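import Pool.Agent.Run7.h546.Step

/-!
Points with the same image in the quotient by the twists.
-/

set_option autoImplicit false

namespace Run7.h546

open MvPolynomial FF

variable {K σ : Type} [Field K]

theorem aeval_homogenize {L : Type} [Field L] [Algebra K L] {c : σ → L} {k : σ} (hc : c k = 1)
    (f : MvPolynomial σ K) :
    aeval c (∑ m ∈ Finset.range (f.totalDegree + 1),
      X k ^ (f.totalDegree - m) * homogeneousComponent m f) = aeval c f := by
  conv_rhs => rw [← sum_homogeneousComponent f]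
  rw [map_sum, map_sum]
  refine Finset.sum_congr rfl fun m _ => ?_
  rw [map_mul, map_pow, aeval_X, hc, one_pow, one_mul]

theorem homogenize_homog (k : σ) (f : MvPolynomial σ K) :
    (∑ m ∈ Finset.range (f.totalDegree + 1),
      X k ^ (f.totalDegree - m) * homogeneousComponent m f).IsHomogeneous f.totalDegree := by
  refine IsHomogeneous.sum _ _ _ fun m hm => ?_
  have h1 := (isHomogeneous_X_pow (R := K) k (f.totalDegree - m)).mul
    (homogeneousComponent_isHomogeneous m f)
  have h2 : f.totalDegree - m + m = f.totalDegree := by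
    have := Finset.mem_range.1 hm
    omega
  rwa [h2] at h1

theorem same_ker {L L' : Type} [Field L] [Algebra K L] [Field L'] [Algebra K L'] {c : σ → L}
    {c' : σ → L'} {k : σ} (hc : c k = 1) (hc' : c' k = 1) (h : locus K c = locus K c')
    (f : MvPolynomial σ K) : aeval c f = 0 ↔ aeval c' f = 0 := by
  rw [← aeval_homogenize hc f, ← aeval_homogenize hc' f]
  have h1 : ∀ (M : Type) [Field M] [Algebra K M] (x : σ → M),
      aeval x (∑ m ∈ Finset.range (f.totalDegree + 1),
        X k ^ (f.totalDegree - m) * homogeneousComponent m f) = 0 ↔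
      (∑ m ∈ Finset.range (f.totalDegree + 1),
        X k ^ (f.totalDegree - m) * homogeneousComponent m f) ∈ locus K x := by
    intro M _ _ x
    constructor
    · intro h
      exact ⟨⟨_, homogenize_homog k f⟩, h⟩
    · exact fun h => h.2
  rw [h1, h1, h]

theorem conj_normal {L L' : Type} [Field L] [Algebra K L] [Field L'] [Algebra K L'] {c : σ → L}
    {c' : σ → L'} {k : σ} (hc : c k = 1) (hc' : c' k = 1) (h : locus K c = locus K c')
    {d : ℕ} (hd : 0 < d) {η : K} (hη : IsPrimitiveRoot η d) {G : MvPolynomial σ K}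
    {u : L} {u' : L'} (hu : u ^ d = - aeval c G) (hu' : u' ^ d = - aeval c' G) :
    ∃ ζ : K, ζ ^ d = 1 ∧ locus K (pt u c) = locus K (tw ζ (pt u' c')) := by
  have hker := same_ker hc hc' h
  let I := RingHom.ker (aeval c : MvPolynomial σ K →ₐ[K] L)
  have hI : I.IsPrime := RingHom.ker_isPrime _
  let R := MvPolynomial σ K ⧸ I
  let f1 : R →ₐ[K] L := Ideal.kerLiftAlg _
  have hf1 : Function.Injective f1 := Ideal.kerLiftAlg_injective _
  have hmem : ∀ p : MvPolynomial σ K, p ∈ I → aeval c' p = 0 := fun p hp =>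
    (hker p).1 (RingHom.mem_ker.1 hp)
  let f2 : R →ₐ[K] L' := Ideal.Quotient.liftₐ I (aeval c') hmem
  have hf2 : Function.Injective f2 := by
    rw [injective_iff_map_eq_zero]
    intro y hy
    obtain ⟨p, rfl⟩ := Ideal.Quotient.mk_surjective y
    have h1 : aeval c' p = 0 := hy
    rw [Ideal.Quotient.eq_zero_iff_mem]
    exact RingHom.mem_ker.2 ((hker p).2 h1)
  let F := FractionRing R
  let M := AlgebraicClosure L'
  let i' : L' →ₐ[K] M := IsScalarTower.toAlgHom K L' M
  let f3 : R →ₐ[K] M := i'.comp f2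
  have hf3 : Function.Injective f3 := i'.injective.comp hf2
  let g1 : F →ₐ[K] L := IsFractionRing.liftAlgHom hf1
  let g3 : F →ₐ[K] M := IsFractionRing.liftAlgHom hf3
  have hg1 : ∀ p : MvPolynomial σ K, g1 (algebraMap R F (Ideal.Quotient.mk I p)) = aeval c p := by
    intro p
    exact IsFractionRing.lift_algebraMap (g := f1.toRingHom) hf1 _
  have hg3 : ∀ p : MvPolynomial σ K,
      g3 (algebraMap R F (Ideal.Quotient.mk I p)) = i' (aeval c' p) := by
    intro p
    exact IsFractionRing.lift_algebraMap (g := f3.toRingHom) hf3 _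
  let a1 : Algebra F L := g1.toRingHom.toAlgebra
  let a3 : Algebra F M := g3.toRingHom.toAlgebra
  have t1 : IsScalarTower K F L := IsScalarTower.of_algebraMap_eq fun x => (g1.commutes x).symm
  have t3 : IsScalarTower K F M := IsScalarTower.of_algebraMap_eq fun x => (g3.commutes x).symm
  have hud : u ^ d = algebraMap F L (algebraMap R F (Ideal.Quotient.mk I (-G))) := by
    rw [hu, ← map_neg]
    exact (hg1 (-G)).symm
  have hint : IsIntegral F u := by
    apply IsIntegral.of_pow hd
    rw [hud]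
    exact isIntegral_algebraMap
  let A := IntermediateField.adjoin F {u}
  have hAalg : Algebra.IsAlgebraic F A := IntermediateField.isAlgebraic_adjoin_simple hint
  let θ : A →ₐ[F] M := IsAlgClosed.lift
  let θK : A →ₐ[K] M := θ.restrictScalars K
  let jK : A →ₐ[K] L := A.val.restrictScalars K
  let uA : A := ⟨u, IntermediateField.mem_adjoin_simple_self F u⟩
  let cA : σ → A := fun j => algebraMap F A (algebraMap R F (Ideal.Quotient.mk I (X j)))
  have h1 : (fun o => jK (pt uA cA o)) = pt u c := by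
    rw [map_pt]
    congr 1
    funext j
    have h2 := hg1 (X j)
    rw [aeval_X] at h2
    exact h2
  have h3 : (fun o => θK (pt uA cA o)) = pt (θK uA) (fun j => i' (c' j)) := by
    rw [map_pt]
    congr 1
    funext j
    have h2 := hg3 (X j)
    rw [aeval_X] at h2
    rw [← h2]
    exact θ.commutes _
  have h4 : (θK uA) ^ d = (i' u') ^ d := by
    have h5 : uA ^ d = algebraMap F A (algebraMap R F (Ideal.Quotient.mk I (-G))) := by
      apply Subtype.ext
      exact hud
    rw [← map_pow, h5, ← map_pow, hu', ← map_neg, ← hg3 (-G)]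
    exact θ.commutes _
  obtain ⟨ζ, hζ, hζu⟩ : ∃ ζ : K, ζ ^ d = 1 ∧ θK uA = algebraMap K M ζ * i' u' := by
    by_cases h5 : i' u' = 0
    · refine ⟨1, one_pow d, ?_⟩
      rw [h5, zero_pow hd.ne'] at h4
      rw [h5, mul_zero]
      exact eq_zero_of_pow_eq_zero h4
    · have : NeZero d := ⟨hd.ne'⟩
      have h6 : (θK uA / i' u') ^ d = 1 := by
        rw [div_pow, h4, div_self (pow_ne_zero _ h5)]
      obtain ⟨n, -, hn⟩ := (hη.map_of_injective
        (algebraMap K M).injective).eq_pow_of_pow_eq_one h6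
      refine ⟨η ^ n, ?_, ?_⟩
      · rw [← pow_mul, mul_comm, pow_mul, hη.pow_eq_one, one_pow]
      · rw [map_pow, hn, div_mul_cancel₀ _ h5]
  refine ⟨ζ, hζ, ?_⟩
  rw [← h1, locus_map, ← locus_map θK (pt uA cA), h3, hζu]
  have h7 : (fun o => i' (tw ζ (pt u' c') o)) = pt (algebraMap K M ζ * i' u')
      (fun j => i' (c' j)) := by
    rw [tw_pt, map_pt, map_mul, AlgHom.commutes]
  rw [← h7, locus_map]

theorem conj_lemma {L L' : Type} [Field L] [Algebra K L] [Field L'] [Algebra K L'] {c : σ → L}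
    {c' : σ → L'} (hc : c ≠ 0) (h : locus K c = locus K c')
    {d : ℕ} (hd : 0 < d) {η : K} (hη : IsPrimitiveRoot η d) {G : MvPolynomial σ K}
    (hG : G.IsHomogeneous d)
    {u : L} {u' : L'} (hu : u ^ d = - aeval c G) (hu' : u' ^ d = - aeval c' G) :
    ∃ ζ : K, ζ ^ d = 1 ∧ locus K (pt u c) = locus K (tw ζ (pt u' c')) := by
  obtain ⟨k, hk⟩ : ∃ k, c k ≠ 0 := by
    by_contra h
    push Not at h
    exact hc (funext h)
  have hk' : c' k ≠ 0 := by
    intro h0
    have h1 : (X k : MvPolynomial σ K) ∈ locus K c' := ⟨⟨1, isHomogeneous_X K k⟩, by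
      rw [aeval_X, h0]⟩
    rw [← h] at h1
    apply hk
    have := h1.2
    rwa [aeval_X] at this
  have hs : ∀ {M : Type} [Field M] [Algebra K M] {x : σ → M} {y : M} (hx : x k ≠ 0)
      (hy : y ^ d = - aeval x G), ((x k)⁻¹ * y) ^ d = - aeval (fun j => (x k)⁻¹ * x j) G := by
    intro M _ _ x y hx hy
    rw [aeval_smul hG, mul_pow, hy]
    ring
  obtain ⟨ζ, hζ, h1⟩ := conj_normal (c := fun j => (c k)⁻¹ * c j) (c' := fun j => (c' k)⁻¹ * c' j)
    (k := k) (inv_mul_cancel₀ hk) (inv_mul_cancel₀ hk')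
    (by rw [locus_smul _ (inv_ne_zero hk), locus_smul _ (inv_ne_zero hk'), h]) hd hη
    (hs hk hu) (hs hk' hu')
  refine ⟨ζ, hζ, ?_⟩
  have h2 : pt ((c k)⁻¹ * u) (fun j => (c k)⁻¹ * c j) = fun o => (c k)⁻¹ * pt u c o := by
    rw [map_pt]
  have h3 : tw ζ (pt ((c' k)⁻¹ * u') (fun j => (c' k)⁻¹ * c' j)) =
      fun o => (c' k)⁻¹ * tw ζ (pt u' c') o := by
    rw [tw_pt, tw_pt, map_pt, mul_left_comm]
  rw [h2, h3, locus_smul _ (inv_ne_zero hk), locus_smul _ (inv_ne_zero hk')] at h1
  exact h1

end Run7.h546
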