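import Pool.Agent.Run7.h546.Cyc
import Pool.Agent.Helper273.Gen.P_common_zero

/-!
Contact directions, and additivity over blocks.
-/

set_option autoImplicit false

namespace Run7.h546

open MvPolynomial

variable {K σ : Type} [Field K]

theorem totalDegree_aeval_le {B F : Type} [Field F] [Algebra K F] {G : MvPolynomial σ K}
    {β : σ → ℕ} {r e : ℕ}
    (hG : ∀ s ∈ G.support, ∑ j ∈ s.support with β j = r, s j ≤ e) (p : σ → MvPolynomial B F)
    (hp : ∀ j, (p j).totalDegree ≤ if β j = r then 1 else 0) :
    (aeval p G).totalDegree ≤ e := by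
  rw [aeval_def, eval₂_eq]
  refine (totalDegree_finsetSum _ _).trans ?_
  rw [Finset.sup_le_iff]
  intro s hs
  refine (totalDegree_mul _ _).trans ?_
  have h1 : (algebraMap K (MvPolynomial B F) (coeff s G)).totalDegree = 0 := by
    rw [IsScalarTower.algebraMap_apply K F, algebraMap_eq, totalDegree_C]
  rw [h1, zero_add]
  refine (totalDegree_finsetProd _ _).trans (le_trans ?_ (hG s hs))
  rw [Finset.sum_filter]
  refine Finset.sum_le_sum fun j _ => ?_
  refine (totalDegree_pow _ _).trans ?_
  refine (Nat.mul_le_mul_left _ (hp j)).trans ?_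
  split_ifs <;> simp

theorem eval₂_homog {B F M : Type} [Field F] [Field M] (ψ : F →+* M) {H : MvPolynomial B F} {n : ℕ}
    (hH : H.IsHomogeneous n) (s : M) (c : B → F) :
    eval₂ ψ (fun i => s * ψ (c i)) H = s ^ n * ψ (eval c H) := by
  rw [eval₂_eq, eval_eq, map_sum, Finset.mul_sum]
  refine Finset.sum_congr rfl fun t ht => ?_
  have h1 : ∏ i ∈ t.support, (s * ψ (c i)) ^ t i = s ^ n * ∏ i ∈ t.support, ψ (c i) ^ t i := by
    simp_rw [mul_pow]
    rw [Finset.prod_mul_distrib, Finset.prod_pow_eq_pow_sum]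
    congr 2
    exact (hH.degree_eq_sum_deg_support ht).symm
  rw [h1, map_mul, map_prod]
  simp_rw [map_pow]
  ring

/-- Contact directions in a block. -/
theorem contact {F : Type} [Field F] [Algebra K F] [IsAlgClosed F] [Finite σ]
    {G : MvPolynomial σ K} (β : σ → ℕ) (r : ℕ) {d : ℕ} (hd' : d = Nat.card {j // β j = r})
    (hd : 0 < d)
    (hG : ∀ s ∈ G.support, ∑ j ∈ s.support with β j = r, s j ≤ d) (a : σ → F) :
    ∃ (v : σ → F) (φ : F), v ≠ 0 ∧ (∀ j, β j ≠ r → v j = 0) ∧
      ∀ (M : Type) [Field M] [Algebra K M] (ψ : F →ₐ[K] M) (s : M),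
        aeval (fun j => ψ (a j) + s * ψ (v j)) G = ψ (aeval a G) + s ^ d * ψ φ := by
  classical
  obtain ⟨e⟩ : Nonempty ({j // β j = r} ≃ Fin (Nat.card {j // β j = r})) :=
    ⟨Finite.equivFin _⟩
  set m := Nat.card {j // β j = r} with hm
  let p : σ → MvPolynomial (Fin m) F := fun j =>
    C (a j) + (if h : β j = r then X (e ⟨j, h⟩) else 0)
  have hp : ∀ j, (p j).totalDegree ≤ if β j = r then 1 else 0 := by
    intro j
    refine (totalDegree_add _ _).trans ?_
    rw [totalDegree_C]
    refine max_le (Nat.zero_le _) ?_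
    by_cases h : β j = r
    · rw [dif_pos h, if_pos h]
      exact (totalDegree_X _).le
    · rw [dif_neg h, totalDegree_zero]
      exact Nat.zero_le _
  set Γ := aeval p G with hΓ
  have hdeg : Γ.totalDegree ≤ d := totalDegree_aeval_le hG p hp
  obtain ⟨c, hc0, hc⟩ := Pool.Agent.Helper273.Sup.common_zero (L := F) (m := m) (q := d - 1)
    (by omega) (fun i => homogeneousComponent (i + 1) Γ) (fun i => i + 1) (fun i => Nat.succ_pos _)
    (fun i => homogeneousComponent_isHomogeneous _ _)
  have hc' : ∀ k, 1 ≤ k → k < d → eval c (homogeneousComponent k Γ) = 0 := by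
    intro k h1 h2
    have := hc ⟨k - 1, by omega⟩
    simpa [Nat.sub_add_cancel h1] using this
  let v : σ → F := fun j => if h : β j = r then c (e ⟨j, h⟩) else 0
  have key : ∀ (M : Type) [Field M] [Algebra K M] (ψ : F →ₐ[K] M) (s : M),
      aeval (fun j => ψ (a j) + s * ψ (v j)) G =
        ψ (eval c (homogeneousComponent 0 Γ)) + s ^ d * ψ (eval c (homogeneousComponent d Γ)) := by
    intro M _ _ ψ s
    let θ : MvPolynomial (Fin m) F →+* M := eval₂Hom (ψ : F →+* M) (fun i => s * ψ (c i))
    have h1 : aeval (fun j => ψ (a j) + s * ψ (v j)) G = θ Γ := by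
      rw [hΓ, aeval_def, aeval_def, hom_eval₂]
      congr 1
      · ext x
        change algebraMap K M x = θ (algebraMap K (MvPolynomial (Fin m) F) x)
        rw [IsScalarTower.algebraMap_apply K F (MvPolynomial (Fin m) F), algebraMap_eq, eval₂Hom_C]
        exact (ψ.commutes x).symm
      · funext j
        change _ = θ (p j)
        simp only [p, v]
        rw [map_add, eval₂Hom_C]
        by_cases h : β j = r
        · rw [dif_pos h, dif_pos h, eval₂Hom_X']
          rfl
        · rw [dif_neg h, dif_neg h, map_zero, map_zero, mul_zero]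
          rfl
    have h2 : ∀ k, θ (homogeneousComponent k Γ) = s ^ k * ψ (eval c (homogeneousComponent k Γ)) := by
      intro k
      exact eval₂_homog (ψ : F →+* M) (homogeneousComponent_isHomogeneous k Γ) s c
    have h3 : Γ = ∑ k ∈ Finset.range (d + 1), homogeneousComponent k Γ := by
      rw [← Finset.sum_subset (Finset.range_subset_range.2 (Nat.succ_le_succ hdeg))]
      · exact (sum_homogeneousComponent Γ).symm
      · intro k _ hk
        rw [Finset.mem_range, not_lt] at hk
        exact homogeneousComponent_eq_zero _ _ (by omega)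
    rw [h1]
    conv_lhs => rw [h3]
    rw [map_sum, Finset.sum_range_succ, ← Finset.sum_subset (Finset.singleton_subset_iff.2
      (Finset.mem_range.2 hd) : ({0} : Finset ℕ) ⊆ Finset.range d)]
    · rw [Finset.sum_singleton, h2, h2, pow_zero, one_mul]
    · intro k hk hk0
      rw [Finset.mem_range] at hk
      rw [Finset.mem_singleton] at hk0
      rw [h2, hc' k (by omega) hk, map_zero, mul_zero]
  have hzero : aeval a G = eval c (homogeneousComponent 0 Γ) := by
    have := key F (AlgHom.id K F) 0
    simpa [hd.ne'] using this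
  refine ⟨v, eval c (homogeneousComponent d Γ), ?_, ?_, ?_⟩
  · intro h0
    apply hc0
    funext i
    have h1 := congrFun h0 (e.symm i).1
    simp only [v] at h1
    rw [dif_pos (e.symm i).2] at h1
    simpa using h1
  · intro j hj
    simp only [v]
    rw [dif_neg hj]
  · intro M _ _ ψ s
    rw [key, hzero]

/-- Additivity of `G` over different blocks. -/
theorem block_add {M : Type} [Field M] [Algebra K M] {G : MvPolynomial σ K} {β : σ → ℕ} {m r : ℕ}
    (hB : ∀ s ∈ G.support, ∀ i j, s i ≠ 0 → s j ≠ 0 → β i < m → β j < m → β i = β j)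
    (hr : r < m) (a u v : σ → M) (hu : ∀ j, β j = r → u j = 0) (hu' : ∀ j, m ≤ β j → u j = 0)
    (hv : ∀ j, β j ≠ r → v j = 0) :
    aeval (fun j => a j + u j + v j) G + aeval a G =
      aeval (fun j => a j + u j) G + aeval (fun j => a j + v j) G := by
  rw [aeval_def, aeval_def, aeval_def, aeval_def, eval₂_eq, eval₂_eq, eval₂_eq, eval₂_eq,
    ← Finset.sum_add_distrib, ← Finset.sum_add_distrib]
  refine Finset.sum_congr rfl fun s hs => ?_
  by_cases h : ∃ i ∈ s.support, β i = r
  · obtain ⟨i, hi, hir⟩ := h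
    have h1 : ∀ j ∈ s.support, u j = 0 := by
      intro j hj
      by_cases hjm : β j < m
      · apply hu
        rw [← hir]
        exact (hB s hs i j (Finsupp.mem_support_iff.1 hi) (Finsupp.mem_support_iff.1 hj)
          (by rw [hir]; exact hr) hjm).symm
      · exact hu' j (not_lt.1 hjm)
    have h2 : ∏ j ∈ s.support, (a j + u j + v j) ^ s j = ∏ j ∈ s.support, (a j + v j) ^ s j :=
      Finset.prod_congr rfl fun j hj => by rw [h1 j hj, add_zero]
    have h3 : ∏ j ∈ s.support, (a j + u j) ^ s j = ∏ j ∈ s.support, (a j) ^ s j :=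
      Finset.prod_congr rfl fun j hj => by rw [h1 j hj, add_zero]
    rw [h2, h3]
    ring
  · push Not at h
    have h2 : ∏ j ∈ s.support, (a j + u j + v j) ^ s j = ∏ j ∈ s.support, (a j + u j) ^ s j :=
      Finset.prod_congr rfl fun j hj => by rw [hv j (h j hj), add_zero]
    have h3 : ∏ j ∈ s.support, (a j + v j) ^ s j = ∏ j ∈ s.support, (a j) ^ s j :=
      Finset.prod_congr rfl fun j hj => by rw [hv j (h j hj), add_zero]
    rw [h2, h3]

end Run7.h546
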