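import Pool.Agent.Run7.h546.Pl

/-!
Cycles: the saturation of the group of cycles rationally equivalent to zero, and the twist by a
root of unity.
-/

set_option autoImplicit false

namespace Run7.h546

open MvPolynomial FF

/-- Cycles. -/
abbrev Cyc (K ι : Type) [Field K] : Type := Set (MvPolynomial ι K) →₀ ℤ

section general

variable {K ι : Type} [Field K]

/-- The class of a point. -/
noncomputable def cls (K : Type) {ι L : Type} [Field K] [Field L] [Algebra K L] (x : ι → L) :
    Cyc K ι := Finsupp.single (locus K x) 1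

/-- Cycles that are torsion modulo rational equivalence. -/
noncomputable def Sat (F : MvPolynomial ι K) (l : ℕ) : AddSubgroup (Cyc K ι) where
  carrier := {c | ∃ N : ℕ, 0 < N ∧ N • c ∈ ratZero F l}
  zero_mem' := ⟨1, one_pos, by rw [smul_zero]; exact zero_mem _⟩
  add_mem' := by
    rintro a b ⟨N, hN, h⟩ ⟨M, hM, h'⟩
    refine ⟨N * M, Nat.mul_pos hN hM, ?_⟩
    rw [smul_add]
    refine add_mem ?_ ?_
    · rw [mul_comm, mul_smul]
      exact nsmul_mem h M
    · rw [mul_smul]
      exact nsmul_mem h' N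
  neg_mem' := by
    rintro a ⟨N, hN, h⟩
    refine ⟨N, hN, ?_⟩
    rw [smul_neg]
    exact neg_mem h

theorem ratZero_le_Sat (F : MvPolynomial ι K) (l : ℕ) : ratZero F l ≤ Sat F l := by
  intro c hc
  exact ⟨1, one_pos, by rwa [one_smul]⟩

theorem Sat_saturated {F : MvPolynomial ι K} {l : ℕ} {c : Cyc K ι} {n : ℤ} (hn : n ≠ 0)
    (h : n • c ∈ Sat F l) : c ∈ Sat F l := by
  obtain ⟨N, hN, h⟩ := h
  refine ⟨N * n.natAbs, Nat.mul_pos hN (Int.natAbs_pos.2 hn), ?_⟩
  rw [mul_smul]
  rcases Int.natAbs_eq n with h1 | h1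
  · rw [h1] at h
    rw [natCast_zsmul] at h
    exact h
  · rw [h1] at h
    rw [neg_smul, smul_neg, natCast_zsmul] at h
    exact neg_mem_iff.1 h

variable {E : Type} [Field E] [Algebra K E]

/-- The contribution of a place to a divisor. -/
noncomputable abbrev tm (l : ℕ) (x : ι → E) (g : E) (P : Place K E) : Cyc K ι :=
  contribution l x g P

theorem divisorCycle_eq (l : ℕ) (x : ι → E) (g : E) :
    divisorCycle l x g = ∑ᶠ P : Place K E, tm l x g P := rfl

theorem tm_support [CharZero K] [Finite ι] {l : ℕ} [Algebra.EssFiniteType K E]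
    (hE : Algebra.trdeg K E = l + 1) {x : ι → E} (hx : x ≠ 0) (g : E) :
    (Function.support (tm l x g : Place K E → Cyc K ι)).Finite := by
  refine (finite_support hE hx g).subset ?_
  intro P hP
  rw [Function.mem_support] at hP
  unfold tm contribution at hP
  by_cases h : HasDim K (centre P x) l
  · rw [if_pos h] at hP
    refine ⟨h, fun h0 => hP ?_⟩
    rw [h0, zero_mul, Finsupp.single_zero]
  · rw [if_neg h] at hP
    exact absurd rfl hP

theorem tm_eq {l : ℕ} {x : ι → E} {g : E} {P : Place K E} (h : HasDim K (centre P x) l) :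
    tm l x g P = (P.ord g * Module.finrank (ratios K (centre P x)) P.RF) •
      (cls K (centre P x)) := by
  unfold tm contribution cls
  rw [if_pos h, Finsupp.smul_single, smul_eq_mul, mul_one]

/-- A general summation lemma: all contributions of positive (negative) order have a multiple of
one and the same image `γ₁` (`γ₂`) under `Φ`, up to a subgroup `M`. -/
theorem divisor_sum [CharZero K] [Finite ι] {l : ℕ} [Algebra.EssFiniteType K E]
    (hE : Algebra.trdeg K E = l + 1) {x : ι → E} (hx : x ≠ 0) (g : E)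
    (Φ : Cyc K ι →+ Cyc K ι) (M : AddSubgroup (Cyc K ι)) (γ₁ γ₂ : Cyc K ι)
    (h : ∀ P : Place K E, HasDim K (centre P x) l → P.ord g ≠ 0 →
      (0 < P.ord g ∧ Φ (cls K (centre P x)) = γ₁) ∨ (P.ord g < 0 ∧ Φ (cls K (centre P x)) = γ₂) ∨
        Φ (cls K (centre P x)) ∈ M) :
    ∃ N₁ N₂ : ℤ, 0 ≤ N₁ ∧ 0 ≤ N₂ ∧ Φ (divisorCycle l x g) - (N₁ • γ₁ - N₂ • γ₂) ∈ M ∧
      ((∃ P : Place K E, HasDim K (centre P x) l ∧ 0 < P.ord g ∧ Φ (cls K (centre P x)) = γ₁) →
        0 < N₁) ∧
      ((∃ P : Place K E, HasDim K (centre P x) l ∧ P.ord g < 0 ∧ Φ (cls K (centre P x)) = γ₂) →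
        0 < N₂) := by
  classical
  have hfin := tm_support hE hx g
  rw [divisorCycle_eq, finsum_eq_sum _ hfin, map_sum]
  set S := hfin.toFinset with hS
  have hmem : ∀ P, P ∈ S ↔ HasDim K (centre P x) l ∧ P.ord g ≠ 0 := by
    intro P
    rw [hS, Set.Finite.mem_toFinset, Function.mem_support]
    constructor
    · intro hP
      unfold tm contribution at hP
      by_cases h : HasDim K (centre P x) l
      · rw [if_pos h] at hP
        refine ⟨h, fun h0 => hP ?_⟩
        rw [h0, zero_mul, Finsupp.single_zero]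
      · rw [if_neg h] at hP
        exact absurd rfl hP
    · rintro ⟨h1, h2⟩ h0
      unfold tm contribution at h0
      rw [if_pos h1, Finsupp.single_eq_zero] at h0
      have := finrank_pos hE hx P h1
      rcases mul_eq_zero.1 h0 with h3 | h3
      · exact h2 h3
      · omega
  let n : Place K E → ℤ := fun P => P.ord g * Module.finrank (ratios K (centre P x)) P.RF
  have hn : ∀ P ∈ S, tm l x g P = n P • cls K (centre P x) := fun P hP =>
    tm_eq ((hmem P).1 hP).1
  let pA : Place K E → Prop := fun P => 0 < P.ord g ∧ Φ (cls K (centre P x)) = γ₁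
  let pB : Place K E → Prop := fun P => P.ord g < 0 ∧ Φ (cls K (centre P x)) = γ₂
  have hposA : ∀ P ∈ S.filter pA, 0 < n P := by
    intro P hP
    rw [Finset.mem_filter] at hP
    have h1 := finrank_pos hE hx P ((hmem P).1 hP.1).1
    exact mul_pos hP.2.1 (by exact_mod_cast h1)
  have hposB : ∀ P ∈ (S.filter (fun P => ¬ pA P)).filter pB, 0 < - n P := by
    intro P hP
    rw [Finset.mem_filter, Finset.mem_filter] at hP
    have h1 := finrank_pos hE hx P ((hmem P).1 hP.1.1).1
    have h2 : n P < 0 := mul_neg_of_neg_of_pos hP.2.1 (by exact_mod_cast h1)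
    omega
  refine ⟨∑ P ∈ S.filter pA, n P, ∑ P ∈ (S.filter (fun P => ¬ pA P)).filter pB, - n P,
    Finset.sum_nonneg fun P hP => (hposA P hP).le, Finset.sum_nonneg fun P hP => (hposB P hP).le,
    ?_, ?_, ?_⟩
  · rw [← Finset.sum_filter_add_sum_filter_not S pA,
      ← Finset.sum_filter_add_sum_filter_not (S.filter (fun P => ¬ pA P)) pB]
    have h1 : ∑ P ∈ S.filter pA, Φ (tm l x g P) = (∑ P ∈ S.filter pA, n P) • γ₁ := by
      rw [Finset.sum_smul]
      refine Finset.sum_congr rfl fun P hP => ?_
      rw [Finset.mem_filter] at hP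
      rw [hn P hP.1, map_zsmul, hP.2.2]
    have h2 : ∑ P ∈ (S.filter (fun P => ¬ pA P)).filter pB, Φ (tm l x g P) =
        - ((∑ P ∈ (S.filter (fun P => ¬ pA P)).filter pB, - n P) • γ₂) := by
      rw [Finset.sum_smul, ← Finset.sum_neg_distrib]
      refine Finset.sum_congr rfl fun P hP => ?_
      rw [Finset.mem_filter, Finset.mem_filter] at hP
      rw [hn P hP.1.1, map_zsmul, hP.2.2, neg_smul, neg_neg]
    rw [h1, h2]
    have h3 : ∑ P ∈ (S.filter (fun P => ¬ pA P)).filter (fun P => ¬ pB P), Φ (tm l x g P) ∈ M := by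
      refine sum_mem fun P hP => ?_
      rw [Finset.mem_filter, Finset.mem_filter] at hP
      rw [hn P hP.1.1, map_zsmul]
      apply zsmul_mem
      have h4 := (hmem P).1 hP.1.1
      rcases h P h4.1 h4.2 with h5 | h5 | h5
      · exact absurd h5 hP.1.2
      · exact absurd h5 hP.2
      · exact h5
    convert h3 using 1
    abel
  · rintro ⟨P, h1, h2, h3⟩
    refine Finset.sum_pos hposA ⟨P, ?_⟩
    rw [Finset.mem_filter]
    exact ⟨(hmem P).2 ⟨h1, h2.ne'⟩, h2, h3⟩
  · rintro ⟨P, h1, h2, h3⟩
    refine Finset.sum_pos hposB ⟨P, ?_⟩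
    rw [Finset.mem_filter, Finset.mem_filter]
    refine ⟨⟨(hmem P).2 ⟨h1, h2.ne⟩, ?_⟩, h2, h3⟩
    rintro ⟨h4, -⟩
    omega

end general

section twist

variable {K σ L : Type} [Field K] [Field L] [Algebra K L]

/-- A point of the projective space with coordinates indexed by `Option σ`. -/
def pt {L : Type} (z : L) (a : σ → L) : Option σ → L := fun o => o.elim z a

theorem pt_eta {L : Type} (x : Option σ → L) : x = pt (x none) (fun j => x (some j)) := by
  funext o
  cases o <;> rfl

/-- The twist of a point by a scalar. -/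
def tw (η : K) (x : Option σ → L) : Option σ → L :=
  pt (algebraMap K L η * x none) (fun j => x (some j))

theorem tw_pt (η : K) (z : L) (a : σ → L) : tw η (pt z a) = pt (algebraMap K L η * z) a := rfl

theorem tw_one (x : Option σ → L) : tw (1 : K) x = x := by
  rw [tw, map_one, one_mul, ← pt_eta]

theorem tw_tw (η ζ : K) (x : Option σ → L) : tw η (tw ζ x) = tw (η * ζ) x := by
  unfold tw
  simp only [pt, Option.elim_none, Option.elim_some, map_mul, mul_assoc]

theorem tw_zero_of (η : K) (a : σ → L) : tw η (pt 0 a) = pt 0 a := by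
  rw [tw_pt, mul_zero]

theorem tw_prop {η : K} {x y : Option σ → L} (h : Prop' x y) : Prop' (tw η x) (tw η y) := by
  obtain ⟨c, hc, h⟩ := h
  refine ⟨c, hc, fun i => ?_⟩
  cases i with
  | none =>
    change algebraMap K L η * x none = c * (algebraMap K L η * y none)
    rw [h none]
    ring
  | some j => exact h (some j)

/-- The corresponding substitution. -/
noncomputable def sub (η : K) : MvPolynomial (Option σ) K →ₐ[K] MvPolynomial (Option σ) K :=
  aeval (pt (C η * X none) (fun j => X (some j)))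

theorem aeval_tw (η : K) (x : Option σ → L) (H : MvPolynomial (Option σ) K) :
    aeval (tw η x) H = aeval x (sub η H) := by
  rw [sub, ← AlgHom.comp_apply, comp_aeval]
  congr 2
  funext o
  cases o with
  | none => simp [tw, pt]
  | some j => simp [tw, pt]

theorem sub_homog (η : K) {H : MvPolynomial (Option σ) K} {n : ℕ} (hH : H.IsHomogeneous n) :
    (sub η H).IsHomogeneous n := by
  have := hH.aeval (pt (C η * X none) (fun j => X (some j)) :
    Option σ → MvPolynomial (Option σ) K) (n := 1) (by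
    intro o
    cases o with
    | none => exact isHomogeneous_C_mul_X η none
    | some j => exact isHomogeneous_X K (some j))
  rwa [one_mul] at this

/-- The action on loci. -/
def act (η : K) (s : Set (MvPolynomial (Option σ) K)) : Set (MvPolynomial (Option σ) K) :=
  {H | (∃ n, H.IsHomogeneous n) ∧ sub η H ∈ s}

theorem locus_tw (η : K) (x : Option σ → L) : locus K (tw η x) = act η (locus K x) := by
  ext H
  constructor
  · rintro ⟨⟨n, hn⟩, h⟩
    exact ⟨⟨n, hn⟩, ⟨n, sub_homog η hn⟩, by rwa [← aeval_tw]⟩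
  · rintro ⟨⟨n, hn⟩, -, h⟩
    exact ⟨⟨n, hn⟩, by rwa [aeval_tw]⟩

theorem ratios_tw {η : K} (hη : η ≠ 0) (x : Option σ → L) : ratios K (tw η x) = ratios K x := by
  have key : ∀ (η : K) (x : Option σ → L), ratios K (tw η x) ≤ ratios K x := by
    intro η x
    unfold ratios
    rw [IntermediateField.adjoin_le_iff]
    rintro _ ⟨⟨i, j⟩, rfl⟩
    have hb : ∀ i j, x i / x j ∈ ratios K x := fun i j =>
      IntermediateField.subset_adjoin K _ ⟨(i, j), rfl⟩
    have hc : algebraMap K L η ∈ ratios K x := IntermediateField.algebraMap_mem _ _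
    change tw η x i / tw η x j ∈ ratios K x
    cases i with
    | none =>
      cases j with
      | none =>
        change algebraMap K L η * x none / (algebraMap K L η * x none) ∈ _
        rw [mul_div_mul_comm]
        exact mul_mem (div_mem hc hc) (hb _ _)
      | some j =>
        change algebraMap K L η * x none / x (some j) ∈ _
        rw [mul_div_assoc]
        exact mul_mem hc (hb _ _)
    | some i =>
      cases j with
      | none =>
        change x (some i) / (algebraMap K L η * x none) ∈ _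
        rw [mul_comm, ← div_div]
        exact div_mem (hb _ _) hc
      | some j => exact hb _ _
  apply le_antisymm (key η x)
  have := key η⁻¹ (tw η x)
  rwa [tw_tw, inv_mul_cancel₀ hη, tw_one] at this

theorem dm_tw {η : K} (hη : η ≠ 0) (x : Option σ → L) : dm K (tw η x) = dm K x := by
  rw [dm_eq, dm_eq, ratios_tw hη]

variable {E : Type} [Field E] [Algebra K E]

theorem centre_tw [Finite σ] {η : K} (hη : η ≠ 0) (P : Place K E) {x : Option σ → E} (hx : x ≠ 0) :
    Prop' (centre P (tw η x)) (tw η (centre P x)) := by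
  obtain ⟨j, hj, hreg⟩ := exists_min P hx
  have h1 : P.red (x j / x j) ≠ 0 := by
    rw [div_self hj, P.red_one]
    exact one_ne_zero
  have h2 := centre_prop P x hreg h1
  have h3 : ∀ i, P.Reg (tw η x i / x j) ∧
      P.red (tw η x i / x j) = tw η (fun i => P.red (x i / x j)) i := by
    intro i
    cases i with
    | none =>
      change P.Reg (algebraMap K E η * x none / x j) ∧ P.red (algebraMap K E η * x none / x j) =
        algebraMap K P.RF η * P.red (x none / x j)
      rw [mul_div_assoc]
      exact ⟨P.reg_mul (P.reg_const η) (hreg none), P.red_mul (P.reg_const η) (hreg none)⟩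
    | some i => exact ⟨hreg _, rfl⟩
  have h4 : P.red (tw η x j / x j) ≠ 0 := by
    rw [(h3 j).2]
    cases j with
    | none =>
      change algebraMap K P.RF η * P.red (x none / x none) ≠ 0
      exact mul_ne_zero (by simpa using hη) h1
    | some j => exact h1
  have h5 := centre_prop P (tw η x) (fun i => (h3 i).1) h4
  have h6 : (fun i => P.red (tw η x i / x j)) = tw η (fun i => P.red (x i / x j)) :=
    funext fun i => (h3 i).2
  rw [h6] at h5
  exact h5.trans (tw_prop h2).symm

/-- The action on cycles. -/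
noncomputable def Act (η : K) : Cyc K (Option σ) →+ Cyc K (Option σ) :=
  Finsupp.mapDomain.addMonoidHom (act η)

theorem Act_cls (η : K) (x : Option σ → L) : Act η (cls K x) = cls K (tw η x) := by
  unfold Act cls
  rw [locus_tw]
  simp [Finsupp.mapDomain.addMonoidHom]

theorem tm_tw [Finite σ] {η : K} (hη : η ≠ 0) (l : ℕ) {x : Option σ → E} (hx : x ≠ 0) (g : E)
    (P : Place K E) : tm l (tw η x) g P = Act η (tm l x g P) := by
  have h1 := centre_tw hη P hx
  have h2 : ratios K (centre P (tw η x)) = ratios K (centre P x) := by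
    obtain ⟨c, hc, h⟩ := h1
    have : centre P (tw η x) = fun i => c * tw η (centre P x) i := funext h
    rw [this, ratios_smul c hc, ratios_tw hη]
  have h3 : HasDim K (centre P (tw η x)) l ↔ HasDim K (centre P x) l := by
    rw [hasDim_iff, hasDim_iff, dm_eq, dm_eq, h2]
  by_cases h : HasDim K (centre P x) l
  · rw [tm_eq h, tm_eq (h3.2 h), map_zsmul, Act_cls, h2]
    unfold cls
    rw [h1.locus]
  · unfold tm contribution
    rw [if_neg h, if_neg (fun h' => h (h3.1 h')), map_zero]

theorem tw_ne_zero {η : K} (hη : η ≠ 0) {x : Option σ → L} (hx : x ≠ 0) : tw η x ≠ 0 := by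
  intro h
  apply hx
  have h1 : tw η⁻¹ (tw η x) = x := by rw [tw_tw, inv_mul_cancel₀ hη, tw_one]
  rw [← h1, h]
  funext i
  cases i with
  | none =>
    change algebraMap K L η⁻¹ * (0 : L) = 0
    rw [mul_zero]
  | some j => rfl

end twist

section hyp

variable {K σ : Type} [Field K]

variable {L : Type} [Field L] [Algebra K L]

theorem aeval_cyc (d : ℕ) (G : MvPolynomial σ K) (z : L) (a : σ → L) :
    aeval (pt z a) (cyc d G) = z ^ d + aeval a G := by
  rw [cyc, map_add, map_pow, aeval_X, aeval_rename]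
  rfl

theorem cyc_homog {d : ℕ} {G : MvPolynomial σ K} (hG : G.IsHomogeneous d) :
    (cyc d G).IsHomogeneous d :=
  (isHomogeneous_X_pow none d).add (hG.rename_isHomogeneous)

theorem aeval_cyc_tw {d : ℕ} {G : MvPolynomial σ K} {η : K} (hη : η ^ d = 1) (x : Option σ → L) :
    aeval (tw η x) (cyc d G) = aeval x (cyc d G) := by
  rw [pt_eta x, tw_pt, aeval_cyc, aeval_cyc, mul_pow, ← map_pow, hη, map_one, one_mul]

variable [CharZero K] [Finite σ] {d : ℕ} {G : MvPolynomial σ K} {l : ℕ}

theorem ratZero_act {η : K} (hd : 0 < d) (hη : η ^ d = 1) {c : Cyc K (Option σ)}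
    (hc : c ∈ ratZero (cyc d G) l) : Act η c ∈ ratZero (cyc d G) l := by
  have hη0 : η ≠ 0 := by
    rintro rfl
    rw [zero_pow hd.ne'] at hη
    exact zero_ne_one hη
  unfold ratZero at hc
  induction hc using AddSubgroup.closure_induction with
  | mem c hc =>
    obtain ⟨E, i1, i2, x, g, h1, h2, h3, h4, h5, rfl⟩ := hc
    apply AddSubgroup.subset_closure
    refine ⟨E, i1, i2, tw η x, g, h1, h2, tw_ne_zero hη0 h3, ?_, h5, ?_⟩
    · rw [aeval_cyc_tw hη, h4]
    · rw [divisorCycle_eq, divisorCycle_eq, AddMonoidHom.map_finsum _ (tm_support h2 h3 g)]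
      refine finsum_congr fun P => ?_
      rw [tm_tw hη0 l h3]
  | zero => rw [map_zero]; exact zero_mem _
  | add a b _ _ ha hb => rw [map_add]; exact add_mem ha hb
  | neg a _ ha => rw [map_neg]; exact neg_mem ha

theorem Sat_act {η : K} (hd : 0 < d) (hη : η ^ d = 1) {c : Cyc K (Option σ)}
    (hc : c ∈ Sat (cyc d G) l) : Act η c ∈ Sat (cyc d G) l := by
  obtain ⟨N, hN, h⟩ := hc
  refine ⟨N, hN, ?_⟩
  rw [← map_nsmul]
  exact ratZero_act hd hη h

/-- The cycles invariant under the twist, up to torsion. -/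
noncomputable def Inv (d : ℕ) (G : MvPolynomial σ K) (l : ℕ) (η : K) :
    AddSubgroup (Cyc K (Option σ)) :=
  (Sat (cyc d G) l).comap (Act η - AddMonoidHom.id _)

omit [CharZero K] [Finite σ] in
theorem mem_Inv {η : K} {c : Cyc K (Option σ)} :
    c ∈ Inv d G l η ↔ Act η c - c ∈ Sat (cyc d G) l := Iff.rfl

omit [CharZero K] [Finite σ] in
theorem Act_iter (η : K) (x : Option σ → L) (k : ℕ) :
    (⇑(Act η))^[k] (cls K x) = cls K (tw (η ^ k) x) := by
  induction k with
  | zero => rw [Function.iterate_zero, id, pow_zero, tw_one]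
  | succ k ih => rw [Function.iterate_succ_apply', ih, Act_cls, tw_tw, pow_succ']

/-- The algebraic core: a relation `N₁ Z - N₂ ηZ + ρ ∼ 0` with `ρ` invariant makes `Z` invariant. -/
theorem invariant_of_relation {η : K} (hd : 0 < d) (hη : η ^ d = 1) (x : Option σ → L)
    {N₁ N₂ : ℤ} (h1 : 0 < N₁) (h2 : 0 ≤ N₂) {c : Cyc K (Option σ)} (hc : c ∈ Sat (cyc d G) l)
    (h : c - (N₁ • cls K x - N₂ • Act η (cls K x)) ∈ Inv d G l η) :
    cls K x ∈ Inv d G l η := by
  set S := Sat (cyc d G) l with hS
  set A := Act (σ := σ) η with hA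
  set δ := A (cls K x) - cls K x with hδ
  have hAS : ∀ c ∈ S, A c ∈ S := fun c hc => Sat_act hd hη hc
  have hrel : N₁ • δ - N₂ • A δ ∈ S := by
    rw [mem_Inv] at h
    have h3 : A c - c ∈ S := sub_mem (hAS c hc) hc
    have h4 := sub_mem h3 h
    convert h4 using 1
    rw [hδ]
    simp only [map_sub, map_zsmul, smul_sub]
    abel
  have hpow : ∀ k : ℕ, N₁ ^ k • δ - N₂ ^ k • (⇑A)^[k] δ ∈ S := by
    intro k
    induction k with
    | zero => simp [S.zero_mem]
    | succ k ih =>
      have h5 := add_mem (zsmul_mem hrel (N₁ ^ k)) (zsmul_mem (hAS _ ih) N₂)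
      convert h5 using 1
      rw [Function.iterate_succ_apply']
      simp only [map_sub, map_zsmul, smul_sub, smul_smul, pow_succ]
      rw [mul_comm N₂ (N₁ ^ k), mul_comm N₂ (N₂ ^ k)]
      abel
  have hiter : ∀ k : ℕ, (⇑A)^[k] δ = cls K (tw (η ^ (k + 1)) x) - cls K (tw (η ^ k) x) := by
    intro k
    rw [hδ, ← Act_iter, ← Act_iter]
    have : ∀ (k : ℕ) (a b : Cyc K (Option σ)), (⇑A)^[k] (a - b) = (⇑A)^[k] a - (⇑A)^[k] b := by
      intro k
      induction k with
      | zero => intro a b; rfl
      | succ k ih =>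
        intro a b
        rw [Function.iterate_succ_apply, map_sub, ih]
        rfl
    rw [this, Function.iterate_succ_apply]
  have hd' : (⇑A)^[d] δ = δ := by
    rw [hiter, hδ, hA, Act_cls, pow_succ, hη, one_mul, tw_one]
  have h6 := hpow d
  rw [hd', ← sub_smul] at h6
  rw [mem_Inv]
  change δ ∈ S
  by_cases hN : N₁ = N₂
  · subst hN
    have h7 : δ - A δ ∈ S := by
      rw [← smul_sub] at hrel
      exact Sat_saturated h1.ne' hrel
    have h8 : ∀ k : ℕ, δ - (⇑A)^[k] δ ∈ S := by
      intro k
      induction k with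
      | zero => simp [S.zero_mem]
      | succ k ih =>
        have h9 := add_mem h7 (hAS _ ih)
        have h10 : A (δ - (⇑A)^[k] δ) = A δ - A ((⇑A)^[k] δ) := map_sub _ _ _
        rw [h10] at h9
        convert h9 using 1
        rw [Function.iterate_succ_apply']
        abel
    have h9 : ∑ k ∈ Finset.range d, (δ - (⇑A)^[k] δ) ∈ S := sum_mem fun k _ => h8 k
    rw [Finset.sum_sub_distrib, Finset.sum_const, Finset.card_range] at h9
    have h10 : ∑ k ∈ Finset.range d, (⇑A)^[k] δ = 0 := by
      simp_rw [hiter]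
      rw [Finset.sum_range_sub (fun k => cls K (tw (η ^ k) x)), hη, pow_zero, sub_self]
    rw [h10, sub_zero, ← natCast_zsmul] at h9
    exact Sat_saturated (by exact_mod_cast hd.ne') h9
  · refine Sat_saturated ?_ h6
    intro h7
    apply hN
    have h8 : N₁ ^ d = N₂ ^ d := by linarith
    exact (pow_left_inj₀ h1.le h2 hd.ne').1 h8

/-- The sum over the orbit of the twists. -/
noncomputable def Orb (d : ℕ) (η : K) : Cyc K (Option σ) →+ Cyc K (Option σ) :=
  ∑ k ∈ Finset.range d, Act (η ^ k)

omit [CharZero K] [Finite σ] in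
theorem Orb_cls (η : K) (x : Option σ → L) :
    Orb d η (cls K x) = ∑ k ∈ Finset.range d, cls K (tw (η ^ k) x) := by
  unfold Orb
  rw [AddMonoidHom.finsetSum_apply]
  exact Finset.sum_congr rfl fun k _ => Act_cls _ _

theorem Orb_Sat {η : K} (hd : 0 < d) (hη : η ^ d = 1) {c : Cyc K (Option σ)}
    (hc : c ∈ Sat (cyc d G) l) : Orb d η c ∈ Sat (cyc d G) l := by
  unfold Orb
  rw [AddMonoidHom.finsetSum_apply]
  refine sum_mem fun k _ => Sat_act hd ?_ hc
  rw [← pow_mul, mul_comm, pow_mul, hη, one_pow]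

omit [CharZero K] [Finite σ] in
theorem Orb_tw {η : K} (hd : 0 < d) (hη : IsPrimitiveRoot η d) {ζ : K} (hζ : ζ ^ d = 1)
    (x : Option σ → L) : Orb d η (cls K (tw ζ x)) = Orb d η (cls K x) := by
  have : NeZero d := ⟨hd.ne'⟩
  obtain ⟨m, hm, rfl⟩ := hη.eq_pow_of_pow_eq_one hζ
  rw [Orb_cls, Orb_cls]
  have h1 : ∀ m : ℕ, ∑ k ∈ Finset.range d, cls K (tw (η ^ k) (tw (η ^ m) x)) =
      ∑ k ∈ Finset.range d, cls K (tw (η ^ k) x) := by
    intro m
    induction m with
    | zero => simp [tw_one]
    | succ m ih =>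
      rw [← ih]
      have h2 : ∀ k, tw (η ^ k) (tw (η ^ (m + 1)) x) = tw (η ^ (k + 1)) (tw (η ^ m) x) := by
        intro k
        rw [tw_tw, tw_tw]
        congr 1
        ring
      simp_rw [h2]
      have h3 := Finset.sum_range_succ' (fun k => cls K (tw (η ^ k) (tw (η ^ m) x))) d
      rw [Finset.sum_range_succ, hη.pow_eq_one, pow_zero] at h3
      exact (add_right_cancel h3).symm
  exact h1 m

/-- If `Z` is invariant, its orbit is `d Z`. -/
theorem Orb_of_Inv {η : K} (hd : 0 < d) (hη : η ^ d = 1) (x : Option σ → L)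
    (h : cls K x ∈ Inv d G l η) : Orb d η (cls K x) - (d : ℤ) • cls K x ∈ Sat (cyc d G) l := by
  have h1 : ∀ k, cls K (tw (η ^ k) x) - cls K x ∈ Sat (cyc d G) l := by
    intro k
    induction k with
    | zero => rw [pow_zero, tw_one, sub_self]; exact zero_mem _
    | succ k ih =>
      have h2 := add_mem (Sat_act hd hη ih) (mem_Inv.1 h)
      convert h2 using 1
      rw [map_sub, Act_cls, tw_tw, pow_succ']
      abel
  have h3 : ∑ k ∈ Finset.range d, (cls K (tw (η ^ k) x) - cls K x) ∈ Sat (cyc d G) l :=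
    sum_mem fun k _ => h1 k
  rw [Finset.sum_sub_distrib, Finset.sum_const, Finset.card_range] at h3
  rw [Orb_cls, natCast_zsmul]
  exact h3

end hyp

end Run7.h546
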