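import Pool.Agent.Helper386.D5V.Helper386_FF_Place

/-!
Cycles on projective hypersurfaces, and rational equivalence.

Subvarieties of `P(K^ι)` are given by generic points: a nonzero vector `x : ι → L` over a field
extension `L` of `K` is the generic point of the closed subvariety whose homogeneous ideal consists
of the forms over `K` that vanish at `x`. Cycles are finite integral combinations of such sets of
forms. Discrete valuations of `E` trivial on `K` are given by `FF.Place K E`; `P.O` is the valuation
ring of `P` and `P.ord` the order.
-/

set_option autoImplicit false

namespace Run7.h546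

open MvPolynomial

/-- The set of all homogeneous polynomials over `K` that vanish at the point `x`. -/
def locus (K : Type) {ι L : Type} [Field K] [Field L] [Algebra K L] (x : ι → L) :
    Set (MvPolynomial ι K) :=
  {H | (∃ n, H.IsHomogeneous n) ∧ aeval x H = 0}

/-- The field generated over `K` by the ratios of the coordinates of `x`: the function field of the
subvariety with generic point `x`. -/
def ratios (K : Type) {ι L : Type} [Field K] [Field L] [Algebra K L] (x : ι → L) :
    IntermediateField K L :=
  IntermediateField.adjoin K (Set.range fun p : ι × ι => x p.1 / x p.2)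

/-- The subvariety with generic point `x` has dimension `l`. -/
def HasDim (K : Type) {ι L : Type} [Field K] [Field L] [Algebra K L] (x : ι → L) (l : ℕ) : Prop :=
  Algebra.trdeg K (ratios K x) = l

/-- `Z` is (the set of forms vanishing on) an `l`-dimensional closed subvariety of the hypersurface
`F = 0` in `P(K^ι)`. -/
def IsSubvariety {K ι : Type} [Field K] (F : MvPolynomial ι K) (l : ℕ)
    (Z : Set (MvPolynomial ι K)) : Prop :=
  ∃ (L : Type) (_ : Field L) (_ : Algebra K L) (x : ι → L),
    x ≠ 0 ∧ aeval x F = 0 ∧ HasDim K x l ∧ Z = locus K x

section

variable {K ι E : Type} [Field K] [Field E] [Algebra K E]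

/-- The residue field of a valuation is an extension of `K`. -/
noncomputable instance residueAlgebra (P : FF.Place K E) :
    Algebra K (IsLocalRing.ResidueField P.O) :=
  ((IsLocalRing.residue P.O).comp
    ((algebraMap K E).codRestrict P.O (fun c => P.reg_const c))).toAlgebra

open Classical in
/-- The residue of an element of the valuation ring (zero outside of it). -/
noncomputable def residueOf (P : FF.Place K E) (f : E) : IsLocalRing.ResidueField P.O :=
  if h : f ∈ P.O then IsLocalRing.residue P.O ⟨f, h⟩ else 0

open Classical in
/-- The centre of the valuation `P` on projective space with respect to a point `x` over `E`: divide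
`x` by a coordinate of smallest valuation, and reduce. -/
noncomputable def centreOf (P : FF.Place K E) (x : ι → E) : ι → IsLocalRing.ResidueField P.O :=
  if h : ∃ j, x j ≠ 0 ∧ ∀ i, x i / x j ∈ P.O then fun i => residueOf P (x i / x h.choose) else 0

/-- The degree of the residue field of `P` over the function field of the centre. -/
noncomputable def centreDegree (P : FF.Place K E) (x : ι → E) : ℕ :=
  Module.finrank (ratios K (centreOf P x)) (IsLocalRing.ResidueField P.O)

open Classical in
/-- The contribution of the valuation `P` to the divisor of `g`: if the centre is `l`-dimensional,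
`ord_P g` times the degree of the residue field of `P` over the function field of the centre, times
the centre. -/
noncomputable def divisorTerm (l : ℕ) (x : ι → E) (g : E) (P : FF.Place K E) :
    Set (MvPolynomial ι K) →₀ ℤ :=
  if HasDim K (centreOf P x) l then
    Finsupp.single (locus K (centreOf P x)) (P.ord g * centreDegree P x) else 0

/-- The push-forward to `P(K^ι)` of the divisor of the rational function `g` on a normal projective
model of `E` that maps to `P(K^ι)` by `x`: the sum of the contributions of all normalised discrete
valuations of `E` trivial on `K`. -/
noncomputable def pushDivisor (l : ℕ) (x : ι → E) (g : E) : Set (MvPolynomial ι K) →₀ ℤ :=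
  ∑ᶠ P : FF.Place K E, divisorTerm l x g P

end

/-- `c` is the push-forward of the divisor of a nonzero rational function on an
`(l+1)`-dimensional variety (with function field `E`) that maps to the hypersurface `F = 0`. -/
def IsPushDivisor {K ι : Type} [Field K] (F : MvPolynomial ι K) (l : ℕ)
    (c : Set (MvPolynomial ι K) →₀ ℤ) : Prop :=
  ∃ (E : Type) (_ : Field E) (_ : Algebra K E) (x : ι → E) (g : E),
    Algebra.EssFiniteType K E ∧ Algebra.trdeg K E = l + 1 ∧ x ≠ 0 ∧ aeval x F = 0 ∧ g ≠ 0 ∧
    c = pushDivisor l x g

/-- The group of `l`-dimensional cycles on the hypersurface `F = 0` that are rationally equivalent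
to zero. -/
noncomputable def RatZero {K ι : Type} [Field K] (F : MvPolynomial ι K) (l : ℕ) :
    AddSubgroup (Set (MvPolynomial ι K) →₀ ℤ) :=
  AddSubgroup.closure {c | IsPushDivisor F l c}

/-- The `l`-dimensional subvarieties `Z₁` and `Z₂` of the hypersurface `F = 0` have proportional
classes: positive integral multiples of them are rationally equivalent. -/
def Proportional {K ι : Type} [Field K] (F : MvPolynomial ι K) (l : ℕ)
    (Z₁ Z₂ : Set (MvPolynomial ι K)) : Prop :=
  ∃ m₁ m₂ : ℤ, 0 < m₁ ∧ 0 < m₂ ∧ Finsupp.single Z₁ m₁ - Finsupp.single Z₂ m₂ ∈ RatZero F l

/-- The form `x₀ ^ d + G(x)`; the variable `x₀` is `X none`. -/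
noncomputable def cyc {K σ : Type} [Field K] (d : ℕ) (G : MvPolynomial σ K) :
    MvPolynomial (Option σ) K :=
  X none ^ d + rename some G

/-- The sets `β⁻¹(b)`, for `b < m`, of variables are nonempty blocks of `G`: no monomial of `G`
involves variables of two different blocks, and the degree of `G` in the variables of a block is at
most the number of the variables of the block. The variables `j` with `m ≤ β j` are in no block. -/
structure Blocks {K σ : Type} [Field K] (β : σ → ℕ) (m : ℕ) (G : MvPolynomial σ K) : Prop where
  nonempty : ∀ b < m, ∃ j, β j = b
  separated : ∀ s ∈ G.support, ∀ i j, s i ≠ 0 → s j ≠ 0 → β i < m → β j < m → β i = β j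
  degree : ∀ b < m, ∀ s ∈ G.support, ∑ j ∈ s.support with β j = b, s j ≤ Nat.card {j // β j = b}

end Run7.h546
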