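import Pool.Agent.Run7.h546.Ruled

/-!
One step of the induction, inside one function field.
-/

set_option autoImplicit false

namespace Run7.h546

open MvPolynomial FF IntermediateField

variable {K σ E : Type} [Field K] [Field E] [Algebra K E]

theorem base_mono {L : Type} (z : L) (a : σ → L) (v : ℕ → σ → L) {r r' : ℕ} (h : r ≤ r') :
    base z a v r ⊆ base z a v r' := by
  rintro y (hy | ⟨i, hi, j, rfl⟩)
  · exact Or.inl hy
  · exact Or.inr ⟨i, lt_of_lt_of_le hi h, j, rfl⟩

theorem td_params {L : Type} [Field L] [Algebra K L] {T : Set L} {w : ℕ → L} {r l : ℕ}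
    (htd : td K T + r ≤ l) : td K (T ∪ w '' {i | i < r}) ≤ l := by
  refine (td_union_le _ _).trans (le_trans ?_ htd)
  refine add_le_add le_rfl ((td_le_encard _).trans ((Set.encard_image_le _ _).trans ?_))
  have : ({i | i < r} : Set ℕ) = ((Finset.range r : Finset ℕ) : Set ℕ) := by
    ext i
    simp
  rw [this, Set.encard_coe_eq_coe_finsetCard, Finset.card_range]

/-- A function with different orders in numerator and denominator. -/
theorem mobius (P : Place K E) {z X0 : E} {η : K} (hz : z ≠ 0) (hη : η ≠ 1)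
    (h1 : X0 - z ≠ 0) (h2 : X0 - algebraMap K E η * z ≠ 0)
    (hg : P.ord ((X0 - z) / (X0 - algebraMap K E η * z)) ≠ 0) :
    (0 < P.ord ((X0 - z) / (X0 - algebraMap K E η * z)) ∧ P.red (X0 / z) = algebraMap K P.RF 1) ∨
    (P.ord ((X0 - z) / (X0 - algebraMap K E η * z)) < 0 ∧ P.red (X0 / z) = algebraMap K P.RF η) := by
  have hD1 : (X0 - z) / z ≠ 0 := div_ne_zero h1 hz
  have hD2 : (X0 - algebraMap K E η * z) / z ≠ 0 := div_ne_zero h2 hz
  have he1 : X0 / z = (X0 - z) / z + algebraMap K E 1 := by
    rw [map_one]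
    field_simp
    ring
  have he2 : X0 / z = (X0 - algebraMap K E η * z) / z + algebraMap K E η := by
    field_simp
    ring
  have hconst : (X0 - z) / z - (X0 - algebraMap K E η * z) / z = algebraMap K E (η - 1) := by
    rw [map_sub, map_one]
    field_simp
    ring
  have hη1 : η - 1 ≠ 0 := sub_ne_zero.2 hη
  have hconst0 := P.ord_const hη1
  have hord : P.ord ((X0 - z) / (X0 - algebraMap K E η * z)) =
      P.ord ((X0 - z) / z) - P.ord ((X0 - algebraMap K E η * z) / z) := by
    rw [P.ord_div h1 h2, P.ord_div h1 hz, P.ord_div h2 hz]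
    ring
  rw [hord] at hg ⊢
  rcases lt_or_gt_of_ne hg with h | h
  · right
    refine ⟨h, ?_⟩
    have h3 : P.ord ((X0 - z) / z) < P.ord (-((X0 - algebraMap K E η * z) / z)) := by
      rw [P.ord_neg]; omega
    have h4 := (P.ord_add_eq hD1 (neg_ne_zero.2 hD2) h3).2
    rw [← sub_eq_add_neg, hconst, hconst0] at h4
    have h5 : 0 < P.ord ((X0 - algebraMap K E η * z) / z) := by omega
    have h6 : P.Reg ((X0 - algebraMap K E η * z) / z) := Or.inr h5.le
    rw [he2, P.red_add h6 (P.reg_const η), (P.red_eq_zero_iff h6).2 (Or.inr h5), zero_add]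
    rfl
  · left
    refine ⟨h, ?_⟩
    have h3 : P.ord (-((X0 - algebraMap K E η * z) / z)) < P.ord ((X0 - z) / z) := by
      rw [P.ord_neg]; omega
    have h4 := (P.ord_add_eq (neg_ne_zero.2 hD2) hD1 h3).2
    rw [add_comm, ← sub_eq_add_neg, hconst, hconst0, P.ord_neg] at h4
    have h5 : 0 < P.ord ((X0 - z) / z) := by omega
    have h6 : P.Reg ((X0 - z) / z) := Or.inr h5.le
    rw [he1, P.red_add h6 (P.reg_const 1), (P.red_eq_zero_iff h6).2 (Or.inr h5), zero_add]
    rfl

theorem exists_zero_place [CharZero K] (F : IntermediateField K E) [IsFF F E] {g : E}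
    (hg : ¬ IsAlgebraic F g) : ∃ P : Place K E, Triv P F ∧ 0 < P.ord g := by
  have hch : CharZero F := charZero_of_injective_algebraMap (algebraMap K F).injective
  obtain ⟨S, hS, -, hsum⟩ := zeros (k := F) (f := g) hg
  have hfin := IsFF.finite (k := F) (f := g) hg
  have hpos : 0 < Module.finrank F⟮g⟯ E := Module.finrank_pos
  rw [← hsum] at hpos
  have hne : S.Nonempty := by
    by_contra h
    rw [Finset.not_nonempty_iff_eq_empty] at h
    rw [h, Finset.sum_empty] at hpos
    exact lt_irrefl _ hpos
  obtain ⟨Q, hQ⟩ := hne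
  exact ⟨restr F Q, triv_restr F Q, (hS Q).1 hQ⟩

theorem inv_one {d : ℕ} {G : MvPolynomial σ K} {l : ℕ} {L : Type} [Field L] [Algebra K L]
    (x : Option σ → L) : cls K x ∈ Inv d G l (1 : K) := by
  rw [mem_Inv, Act_cls, tw_one, sub_self]
  exact zero_mem _

theorem inv_zero {d : ℕ} {G : MvPolynomial σ K} {l : ℕ} {η : K} {L : Type} [Field L] [Algebra K L]
    (b : σ → L) : cls K (pt 0 b) ∈ Inv d G l η := by
  rw [mem_Inv, Act_cls, tw_zero_of, sub_self]
  exact zero_mem _

theorem cls_prop {ι L : Type} [Field L] [Algebra K L] {x y : ι → L} (h : Prop' x y) :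
    cls K x = cls K y := by
  unfold cls
  rw [h.locus]

theorem engine [CharZero K] [Finite σ] {d e l r : ℕ} {G : MvPolynomial σ K} {β : σ → ℕ} {η : K}
    (hd : 0 < d) (he : 0 < e) (hG : G.IsHomogeneous d) (hη : IsPrimitiveRoot η d)
    (IH : ∀ (L : Type) [Field L] [Algebra K L] (x : Option σ → L), x ≠ 0 →
      aeval x (cyc d G) = 0 → dm K x = l → Ruled K β l (r + 1) x → cls K x ∈ Inv d G l η)
    [Algebra.EssFiniteType K E] (hE : Algebra.trdeg K E = l + 1)
    {z X0 φ : E} {a : σ → E} {v : ℕ → σ → E} {w : ℕ → E}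
    (hz : z ≠ 0) (hv : ∀ i < r + 1, v i ≠ 0 ∧ ∀ j, β j ≠ i → v i j = 0)
    (htd : td K (base z a v (r + 1)) + r ≤ l)
    (hφ : φ ∈ IntermediateField.adjoin K (base z a v (r + 1)))
    (hX : X0 ^ d = z ^ d - (w r) ^ e * φ)
    (hcase : φ = 0 → X0 = z)
    (hs : ((l + 1 : ℕ) : ℕ∞) ≤ td K (insert (w r) (base z a v (r + 1) ∪ w '' {i | i < r})))
    (hon : aeval (pt X0 (fun j => a j + ∑ i ∈ Finset.range (r + 1), w i * v i j)) (cyc d G) = 0)
    (hdim : dm K (pt z (fun j => a j + ∑ i ∈ Finset.range r, w i * v i j)) = l) :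
    cls K (pt z (fun j => a j + ∑ i ∈ Finset.range r, w i * v i j)) ∈ Inv d G l η := by
  by_cases hη1 : η = 1
  · rw [hη1]
    exact inv_one _
  have hη0 : η ≠ 0 := hη.ne_zero hd.ne'
  have hηd : η ^ d = 1 := hη.pow_eq_one
  set κ := IntermediateField.adjoin K (base z a v (r + 1)) with hκ
  set T := base z a v (r + 1) ∪ w '' {i | i < r} with hT
  set k1 := IntermediateField.adjoin K T with hk1
  have hκk1 : κ ≤ k1 := IntermediateField.adjoin.mono K _ _ Set.subset_union_left
  have hzκ : z ∈ κ := IntermediateField.subset_adjoin K _ (Or.inl (Or.inl rfl))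
  have haκ : ∀ j, a j ∈ κ := fun j => IntermediateField.subset_adjoin K _ (Or.inl (Or.inr ⟨j, rfl⟩))
  have hvκ : ∀ i < r + 1, ∀ j, v i j ∈ κ := fun i hi j =>
    IntermediateField.subset_adjoin K _ (Or.inr ⟨i, hi, j, rfl⟩)
  set B : σ → E := fun j => a j + ∑ i ∈ Finset.range r, w i * v i j with hB
  set A : σ → E := fun j => a j + ∑ i ∈ Finset.range (r + 1), w i * v i j with hA
  have hAB : A = fun j => B j + w r * v r j := by
    funext j
    rw [hA, hB]
    simp only
    rw [Finset.sum_range_succ, add_assoc]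
  have hw1 : ∀ i < r, w i ∈ k1 := fun i hi =>
    IntermediateField.subset_adjoin K _ (Or.inr ⟨i, hi, rfl⟩)
  have hBk1 : ∀ j, B j ∈ k1 := fun j => add_mem (hκk1 (haκ j)) (sum_mem fun i hi =>
    mul_mem (hw1 i (Finset.mem_range.1 hi)) (hκk1 (hvκ i ((Finset.mem_range.1 hi).trans
      (Nat.lt_succ_self r)) j)))
  have hptk1 : ∀ o, pt z B o ∈ k1 := by
    intro o
    cases o with
    | none => exact hκk1 hzκ
    | some j => exact hBk1 j
  have hTl : td K T ≤ l := td_params htd
  have hwr : ¬ IsAlgebraic k1 (w r) := by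
    intro h
    have h1 : td K (insert (w r) T) ≤ td K T := by
      apply td_le_of_alg
      rintro x (rfl | hx)
      · exact h
      · exact isAlgebraic_of_mem _ (IntermediateField.subset_adjoin K _ hx)
    have h2 := hs.trans (h1.trans hTl)
    norm_cast at h2
    omega
  have hk1l : Algebra.trdeg K k1 = l := by
    rw [trdeg_iff]
    apply le_antisymm
    · rw [hk1, td_adjoin]
      exact hTl
    · rw [← hdim, hk1, td_adjoin]
      exact dm_le (S := T) hptk1 le_rfl
  have hk1l' : td K (k1 : Set E) ≤ l := by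
    rw [hk1, td_adjoin]
    exact hTl
  have hFF : IsFF k1 E := isFF_of hE hk1l
  have hxz : pt z B ≠ 0 := fun h => hz (congrFun h none)
  -- the value of `X0`
  have hXne : X0 ≠ 0 := by
    intro h0
    by_cases hφ0 : φ = 0
    · rw [hcase hφ0] at h0
      exact hz h0
    · apply hwr
      have h1 : (w r) ^ e = z ^ d / φ := by
        rw [h0, zero_pow hd.ne'] at hX
        field_simp
        linear_combination hX
      have h2 : IsAlgebraic k1 ((w r) ^ e) := by
        rw [h1]
        exact isAlgebraic_of_mem _ (hκk1 (div_mem (pow_mem hzκ d) hφ))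
      exact h2.of_pow he
  have hy : pt X0 A ≠ 0 := fun h => hXne (congrFun h none)
  -- local analysis
  have hL1 : ∀ (P : Place K E) (ζ : K), ζ ≠ 0 → P.red (X0 / z) = algebraMap K P.RF ζ →
      HasDim K (centre P (pt X0 A)) l → ¬ Triv P κ → cls K (centre P (pt X0 A)) ∈ Inv d G l η := by
    intro P ζ hζ hred hdimP hnt
    refine IH P.RF _ (centre_ne_zero P hy) (centre_on P hy (cyc_homog hG) hon)
      (hasDim_iff.1 hdimP) ?_
    exact ruled_centre P hz hζ hv htd hred hnt
  have hL2 : ∀ (P : Place K E) (ζ : K), ζ ≠ 0 → P.red (X0 / z) = algebraMap K P.RF ζ →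
      Triv P κ → 0 < P.ord (w r) →
      Prop' (centre P (pt X0 A)) (tw ζ (centre P (pt z B))) := by
    intro P ζ hζ hred ht hs'
    have := main_centre P (B := B) (u := v r) hz (ht z hzκ) hζ hred hs'
      (fun j => ht _ (hvκ r (Nat.lt_succ_self r) j))
    rw [hAB]
    exact this
  have hL3 : ∀ (P : Place K E), Triv P k1 → cls K (centre P (pt z B)) = cls K (pt z B) ∧
      dm K (centre P (pt z B)) = l := by
    intro P ht
    have h1 := centre_of_triv P hxz k1 hptk1 ht
    constructor
    · rw [cls_prop h1]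
      unfold cls
      rw [locus_red P k1 ht hptk1]
    · rw [h1.dm, dm_red P k1 ht hptk1]
      exact hdim
  have hL4 : ∀ (P : Place K E) (ζ : K), ζ ≠ 0 → P.red (X0 / z) = algebraMap K P.RF ζ →
      HasDim K (centre P (pt X0 A)) l → Triv P κ → 0 < P.ord (w r) →
      cls K (centre P (pt X0 A)) = cls K (tw ζ (pt z B)) := by
    intro P ζ hζ hred hdimP ht hs'
    have h1 := hL2 P ζ hζ hred ht hs'
    by_cases ht1 : Triv P k1
    · rw [cls_prop h1, ← Act_cls, (hL3 P ht1).1, Act_cls]
    · exfalso
      have h2 := dm_centre_lt P hxz k1 hptk1 hk1l' ht1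
      rw [hasDim_iff, h1.dm, dm_tw hζ] at hdimP
      rw [hdimP] at h2
      norm_cast at h2
      omega
  have hL5 : ∀ (P : Place K E) (ζ : K), ζ ≠ 0 → P.red (X0 / z) = algebraMap K P.RF ζ →
      Triv P k1 → 0 < P.ord (w r) → HasDim K (centre P (pt X0 A)) l := by
    intro P ζ hζ hred ht hs'
    have h1 := hL2 P ζ hζ hred (fun f hf => ht f (hκk1 hf)) hs'
    rw [hasDim_iff, h1.dm, dm_tw hζ]
    exact (hL3 P ht).2
  -- it suffices to find a function
  suffices h : ∃ g : E, g ≠ 0 ∧ (∃ P : Place K E, HasDim K (centre P (pt X0 A)) l ∧ 0 < P.ord g ∧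
      cls K (centre P (pt X0 A)) = cls K (pt z B)) ∧
      ∀ P : Place K E, HasDim K (centre P (pt X0 A)) l → P.ord g ≠ 0 →
      (0 < P.ord g ∧ cls K (centre P (pt X0 A)) = cls K (pt z B)) ∨
      (P.ord g < 0 ∧ cls K (centre P (pt X0 A)) = Act η (cls K (pt z B))) ∨
        cls K (centre P (pt X0 A)) ∈ Inv d G l η by
    obtain ⟨g, hg0, hex, hall⟩ := h
    obtain ⟨N₁, N₂, -, hN2, h1, h2, -⟩ := divisor_sum hE hy g (AddMonoidHom.id _)
      (Inv d G l η) (cls K (pt z B)) (Act η (cls K (pt z B))) hall
    have hN1 := h2 hex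
    refine invariant_of_relation hd hηd (pt z B) hN1 hN2 (c := divisorCycle l (pt X0 A) g) ?_ h1
    apply ratZero_le_Sat
    exact AddSubgroup.subset_closure ⟨E, inferInstance, inferInstance, pt X0 A, g, inferInstance, hE,
      hy, hon, hg0, rfl⟩
  by_cases hφ0 : φ = 0
  · have hXz := hcase hφ0
    have hred1 : ∀ P : Place K E, P.red (X0 / z) = algebraMap K P.RF 1 := by
      intro P
      rw [hXz, div_self hz, P.red_one, map_one]
    have hw0 : w r ≠ 0 := by
      intro h
      apply hwr
      rw [h]
      exact isAlgebraic_zero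
    refine ⟨w r, hw0, ?_, ?_⟩
    · obtain ⟨P, hP1, hP2⟩ := exists_zero_place k1 hwr
      have h1 := hL5 P 1 one_ne_zero (hred1 P) hP1 hP2
      refine ⟨P, h1, hP2, ?_⟩
      have h2 := hL4 P 1 one_ne_zero (hred1 P) h1 (fun f hf => hP1 f (hκk1 hf)) hP2
      rwa [tw_one] at h2
    · intro P hP hg
      by_cases ht : Triv P κ
      · rcases lt_or_gt_of_ne hg with h | h
        · right; right
          obtain ⟨k, hk⟩ : ∃ k, v r k ≠ 0 := by
            by_contra hc
            push Not at hc
            exact (hv r (Nat.lt_succ_self r)).1 (funext hc)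
          have hβk : β k = r := by
            by_contra hc
            exact hk ((hv r (Nat.lt_succ_self r)).2 k hc)
          have hBk : B k = a k := by
            rw [hB]
            simp only
            rw [Finset.sum_eq_zero, add_zero]
            intro i hi
            have hi' := Finset.mem_range.1 hi
            rw [(hv i (hi'.trans (Nat.lt_succ_self r))).2 k (by omega), mul_zero]
          have hvo : P.ord (v r k) = 0 := ht _ (hvκ r (Nat.lt_succ_self r) k)
          have hAk : P.ord (A k) < 0 := by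
            rw [hAB]
            simp only
            rw [hBk]
            have h1 : P.ord (w r * v r k) < 0 := by
              rw [P.ord_mul hw0 hk, hvo]
              omega
            by_cases ha0 : a k = 0
            · rw [ha0, zero_add]
              exact h1
            · have h2 : P.ord (w r * v r k) < P.ord (a k) := by
                rw [ht _ (haκ k)]
                exact h1
              have h3 := (P.ord_add_eq (mul_ne_zero hw0 hk) ha0 h2).2
              rw [add_comm, h3]
              exact h1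
          obtain ⟨b, hb⟩ := infinity_centre P (z := X0) (A := A) k
            (by rw [hXz]; exact ht z hzκ) hAk
          rw [cls_prop hb]
          exact inv_zero b
        · left
          refine ⟨h, ?_⟩
          have h2 := hL4 P 1 one_ne_zero (hred1 P) hP ht h
          rwa [tw_one] at h2
      · right; right
        exact hL1 P 1 one_ne_zero (hred1 P) hP ht
  · have hw0 : w r ≠ 0 := by
      intro h
      apply hwr
      rw [h]
      exact isAlgebraic_zero
    have hpne : (w r) ^ e * φ ≠ 0 := mul_ne_zero (pow_ne_zero _ hw0) hφ0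
    have hD : ∀ ζ : K, ζ ^ d = 1 → X0 - algebraMap K E ζ * z ≠ 0 := by
      intro ζ hζ h
      apply hpne
      have h1 : X0 = algebraMap K E ζ * z := sub_eq_zero.1 h
      rw [h1, mul_pow, ← map_pow, hζ, map_one, one_mul] at hX
      linear_combination hX
    have hD1 : X0 - z ≠ 0 := by
      have := hD 1 (one_pow d)
      rwa [map_one, one_mul] at this
    have hDη := hD η hηd
    have hXalg : ¬ IsAlgebraic k1 X0 := by
      intro h
      apply hwr
      have h1 : (w r) ^ e = (z ^ d - X0 ^ d) / φ := by
        field_simp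
        linear_combination hX
      have hzk : IsAlgebraic k1 z := isAlgebraic_of_mem _ (hκk1 hzκ)
      have hφk : IsAlgebraic k1 φ := isAlgebraic_of_mem _ (hκk1 hφ)
      have h2 : IsAlgebraic k1 ((w r) ^ e) := by
        rw [h1, div_eq_mul_inv]
        exact ((hzk.pow d).sub (h.pow d)).mul hφk.inv
      exact h2.of_pow he
    have hmob := fun P : Place K E => mobius P (X0 := X0) hz hη1 hD1 hDη
    -- positivity of the order of `s`
    have hspos : ∀ (P : Place K E) (ζ : K), ζ ^ d = 1 → P.red (X0 / z) = algebraMap K P.RF ζ →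
        ζ ≠ 0 → Triv P κ → 0 < P.ord (w r) := by
      intro P ζ hζ hred hζ0 ht
      have hreg : P.Reg (X0 / z) := reg_of_red_ne (by rw [hred]; simpa using hζ0)
      have hregp : P.Reg ((X0 / z) ^ d) := by
        rcases hreg with h | h
        · rw [h, zero_pow hd.ne']
          exact P.reg_zero
        · right
          rw [P.ord_pow]
          positivity
      have h1 : (w r) ^ e * φ / z ^ d = 1 - (X0 / z) ^ d := by
        rw [div_pow]
        field_simp
        linear_combination hX
      have hreg1 : P.Reg ((w r) ^ e * φ / z ^ d) := by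
        rw [h1, sub_eq_add_neg]
        exact P.reg_add P.reg_one (P.reg_neg hregp)
      have hred1 : P.red ((w r) ^ e * φ / z ^ d) = 0 := by
        rw [h1, P.red_sub P.reg_one hregp, P.red_pow hreg, hred, ← map_pow, hζ, map_one, P.red_one,
          sub_self]
      rw [P.red_eq_zero_iff hreg1] at hred1
      rcases hred1 with h | h
      · exact absurd h (div_ne_zero hpne (pow_ne_zero _ hz))
      · rw [P.ord_div hpne (pow_ne_zero _ hz), P.ord_mul (pow_ne_zero _ hw0) hφ0, P.ord_pow,
          P.ord_pow, ht φ hφ, ht z hzκ, mul_zero, add_zero, sub_zero] at h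
        by_contra hc
        push Not at hc
        have h5 : (e : ℤ) * P.ord (w r) ≤ 0 := mul_nonpos_of_nonneg_of_nonpos (by positivity) hc
        omega
    refine ⟨(X0 - z) / (X0 - algebraMap K E η * z), div_ne_zero hD1 hDη, ?_, ?_⟩
    · have hgalg : ¬ IsAlgebraic k1 ((X0 - z) / (X0 - algebraMap K E η * z)) := by
        intro h
        apply hXalg
        set g := (X0 - z) / (X0 - algebraMap K E η * z) with hg
        have h1 : g * (X0 - algebraMap K E η * z) = X0 - z := by
          rw [hg, div_mul_cancel₀ _ hDη]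
        have h2 : 1 - g ≠ 0 := by
          intro h0
          have h3 : g = 1 := by linear_combination -h0
          rw [h3, one_mul] at h1
          have h4 : algebraMap K E (η - 1) * z = 0 := by
            rw [map_sub, map_one]
            linear_combination -h1
          rcases mul_eq_zero.1 h4 with h5 | h5
          · rw [map_eq_zero] at h5
            exact hη1 (sub_eq_zero.1 h5)
          · exact hz h5
        have h3 : X0 = (z - g * (algebraMap K E η * z)) * (1 - g)⁻¹ := by
          rw [← div_eq_mul_inv, eq_div_iff h2]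
          linear_combination -h1
        have hzk : IsAlgebraic k1 z := isAlgebraic_of_mem _ (hκk1 hzκ)
        have hηk : IsAlgebraic k1 (algebraMap K E η) :=
          isAlgebraic_of_mem _ (IntermediateField.algebraMap_mem _ _)
        rw [h3]
        exact (hzk.sub (h.mul (hηk.mul hzk))).mul (isAlgebraic_one.sub h).inv
      obtain ⟨P, hP1, hP2⟩ := exists_zero_place k1 hgalg
      have hκt : Triv P κ := fun f hf => hP1 f (hκk1 hf)
      rcases hmob P hP2.ne' with ⟨h1, h2⟩ | ⟨h1, h2⟩
      · have h3 := hspos P 1 (one_pow d) h2 one_ne_zero hκt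
        have h4 := hL5 P 1 one_ne_zero h2 hP1 h3
        refine ⟨P, h4, hP2, ?_⟩
        have h5 := hL4 P 1 one_ne_zero h2 h4 hκt h3
        rwa [tw_one] at h5
      · omega
    · intro P hP hg
      rcases hmob P hg with ⟨h1, h2⟩ | ⟨h1, h2⟩
      · by_cases ht : Triv P κ
        · left
          have h3 := hspos P 1 (one_pow d) h2 one_ne_zero ht
          have h5 := hL4 P 1 one_ne_zero h2 hP ht h3
          rw [tw_one] at h5
          exact ⟨h1, h5⟩
        · right; right
          exact hL1 P 1 one_ne_zero h2 hP ht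
      · by_cases ht : Triv P κ
        · right; left
          have h3 := hspos P η hηd h2 hη0 ht
          have h5 := hL4 P η hη0 h2 hP ht h3
          rw [← Act_cls] at h5
          exact ⟨h1, h5⟩
        · right; right
          exact hL1 P η hη0 h2 hP ht

end Run7.h546
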