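import Pool.Agent.Run7.h546.Step

/-!
Every subvariety of small dimension is invariant under the twists, modulo torsion.
-/

set_option autoImplicit false

namespace Run7.h546

open MvPolynomial FF

variable {K σ : Type} [Field K]

/-- Normal form of a point. -/
theorem normal_form {L : Type} [Field L] [Algebra K L] {x : Option σ → L} (hx : x ≠ 0) {l : ℕ}
    (hdim : dm K x = l) : ∃ (z : L) (a : σ → L), Prop' x (pt z a) ∧
      td K ({z} ∪ Set.range a) ≤ l := by
  obtain ⟨j, hj⟩ : ∃ j, x j ≠ 0 := by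
    by_contra h
    push Not at h
    exact hx (funext h)
  refine ⟨x none / x j, fun i => x (some i) / x j, ⟨x j, hj, fun i => ?_⟩, ?_⟩
  · cases i with
    | none => exact (mul_div_cancel₀ _ hj).symm
    | some i => exact (mul_div_cancel₀ _ hj).symm
  · rw [← hdim]
    apply td_mono
    rintro y (rfl | ⟨i, rfl⟩)
    · exact ⟨(none, j), rfl⟩
    · exact ⟨(some i, j), rfl⟩

theorem invariant_ruled [CharZero K] [Finite σ] {d l m : ℕ} {G : MvPolynomial σ K} {β : σ → ℕ}
    {η : K} (hd : 0 < d) (hG : G.IsHomogeneous d) (hη : IsPrimitiveRoot η d)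
    (hB : ∀ s ∈ G.support, ∀ i j, s i ≠ 0 → s j ≠ 0 → β i < m → β j < m → β i = β j)
    (hne : ∀ r < m, ∃ j, β j = r)
    (hdeg : ∀ r < m, ∀ s ∈ G.support, ∑ j ∈ s.support with β j = r, s j ≤
      Nat.card {j // β j = r}) (hl : l < m) (k : ℕ) (hk : k ≤ l + 1) :
    ∀ (L : Type) [Field L] [Algebra K L] (x : Option σ → L), x ≠ 0 →
      aeval x (cyc d G) = 0 → dm K x = l → Ruled K β l (l + 1 - k) x → cls K x ∈ Inv d G l η := by
  induction k with
  | zero =>
    intro L _ _ x _ _ _ hR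
    exfalso
    obtain ⟨z, a, v, w, -, htd, -⟩ := hR
    have h1 := (enat_sub htd).1
    omega
  | succ k ih =>
    have h1 : l + 1 - k = (l + 1 - (k + 1)) + 1 := by omega
    have ih' := ih (by omega)
    rw [h1] at ih'
    exact step hd hG hη hB (by omega) (hne _ (by omega)) (hdeg _ (by omega)) ih'

theorem invariant_all [CharZero K] [Finite σ] {d l m : ℕ} {G : MvPolynomial σ K} {β : σ → ℕ}
    {η : K} (hd : 0 < d) (hG : G.IsHomogeneous d) (hη : IsPrimitiveRoot η d)
    (hB : ∀ s ∈ G.support, ∀ i j, s i ≠ 0 → s j ≠ 0 → β i < m → β j < m → β i = β j)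
    (hne : ∀ r < m, ∃ j, β j = r)
    (hdeg : ∀ r < m, ∀ s ∈ G.support, ∑ j ∈ s.support with β j = r, s j ≤
      Nat.card {j // β j = r}) (hl : l < m)
    {L : Type} [Field L] [Algebra K L] (x : Option σ → L) (hx : x ≠ 0)
    (hon : aeval x (cyc d G) = 0) (hdim : dm K x = l) : cls K x ∈ Inv d G l η := by
  have h1 := invariant_ruled hd hG hη hB hne hdeg hl (l + 1) le_rfl L x hx hon hdim
  rw [Nat.sub_self] at h1
  apply h1
  obtain ⟨z, a, hprop, htd⟩ := normal_form hx hdim
  refine ⟨z, a, fun _ => 0, fun _ => 0, fun i hi => absurd hi (Nat.not_lt_zero i), ?_, ?_⟩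
  · rw [Nat.cast_zero, add_zero]
    refine le_trans (td_mono ?_) htd
    rintro y (hy | ⟨i, hi, -⟩)
    · exact hy
    · exact absurd hi (Nat.not_lt_zero i)
  · simpa using hprop

end Run7.h546
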