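import Pool.Agent.Run7.h546.Orbit
import Pool.Agent.Run7.h546.Invar

/-!
The main theorem.
-/

set_option autoImplicit false

namespace Run7.h546

open MvPolynomial FF

variable {K σ : Type} [Field K]

/-- The forms that vanish on the coordinate subspace given by `ε`. -/
def coordLocus (K : Type) [Field K] {l : ℕ} (ε : Fin (l + 1) → σ) : Set (MvPolynomial σ K) :=
  {H | (∃ n, H.IsHomogeneous n) ∧
    aeval (Function.extend ε (X : Fin (l + 1) → MvPolynomial (Fin (l + 1)) K) 0) H = 0}

theorem locus_extend {κ : Type} [Field κ] [Algebra K κ] {l : ℕ} {ε : Fin (l + 1) → σ}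
    (hε : Function.Injective ε) {b : Fin (l + 1) → κ}
    (hgen : ∀ (e : ℕ) (H : MvPolynomial (Fin (l + 1)) K), H.IsHomogeneous e → aeval b H = 0 →
      H = 0) : locus K (Function.extend ε b 0) = coordLocus K ε := by
  classical
  have h1 : ∀ H : MvPolynomial σ K, aeval (Function.extend ε b 0) H =
      aeval b (aeval (Function.extend ε (X : Fin (l + 1) → MvPolynomial (Fin (l + 1)) K) 0) H) := by
    intro H
    rw [map_aeval_ring]
    congr 2
    funext j
    by_cases hj : ∃ i, ε i = j
    · obtain ⟨i, rfl⟩ := hj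
      rw [hε.extend_apply, hε.extend_apply, aeval_X]
    · rw [Function.extend_apply' _ _ _ hj, Function.extend_apply' _ _ _ hj]
      simp
  ext H
  constructor
  · rintro ⟨⟨n, hn⟩, h⟩
    refine ⟨⟨n, hn⟩, ?_⟩
    rw [h1] at h
    refine hgen n _ ?_ h
    have h2 := hn.aeval (Function.extend ε (X : Fin (l + 1) → MvPolynomial (Fin (l + 1)) K) 0)
      (n := 1) (by
      intro j
      by_cases hj : ∃ i, ε i = j
      · obtain ⟨i, rfl⟩ := hj
        rw [hε.extend_apply]
        exact isHomogeneous_X K i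
      · rw [Function.extend_apply' _ _ _ hj]
        exact isHomogeneous_zero _ _ 1)
    rwa [one_mul] at h2
  · rintro ⟨hn, h⟩
    exact ⟨hn, by rw [h1, h, map_zero]⟩

theorem dm_extend {κ : Type} [Field κ] [Algebra K κ] {n : ℕ} {ε : Fin n → σ}
    (hε : Function.Injective ε) (b : Fin n → κ) :
    dm K (Function.extend ε b 0 : σ → κ) = dm K b := by
  apply le_antisymm
  · apply td_le_of_subset_adjoin
    rintro _ ⟨⟨i, j⟩, rfl⟩
    change Function.extend ε b 0 i / Function.extend ε b 0 j ∈ _
    by_cases hi : ∃ i', ε i' = i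
    · by_cases hj : ∃ j', ε j' = j
      · obtain ⟨i', rfl⟩ := hi
        obtain ⟨j', rfl⟩ := hj
        rw [hε.extend_apply, hε.extend_apply]
        exact IntermediateField.subset_adjoin K _ ⟨(i', j'), rfl⟩
      · rw [Function.extend_apply' _ _ j hj, Pi.zero_apply, div_zero]
        exact zero_mem _
    · rw [Function.extend_apply' _ _ i hi, Pi.zero_apply, zero_div]
      exact zero_mem _
  · apply td_mono
    rintro _ ⟨⟨i, j⟩, rfl⟩
    refine ⟨(ε i, ε j), ?_⟩
    simp only
    rw [hε.extend_apply, hε.extend_apply]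

theorem orb_main [CharZero K] [Finite σ] {d l : ℕ} {G : MvPolynomial σ K} {η : K}
    (hd : 0 < d) (hG : G.IsHomogeneous d) (hη : IsPrimitiveRoot η d)
    {ε : Fin (l + 1) → σ} (hε : Function.Injective ε)
    {L : Type} [Field L] [Algebra K L] {x : Option σ → L} (hx : x ≠ 0)
    (hon : aeval x (cyc d G) = 0) (hdim : dm K x = l) :
    ∃ N₁ N₂ : ℤ, 0 < N₁ ∧ 0 < N₂ ∧ ∃ (M : Type) (_ : Field M) (_ : Algebra K M) (u0 : M)
      (b0 : σ → M), b0 ≠ 0 ∧ locus K b0 = coordLocus K ε ∧ u0 ^ d = - aeval b0 G ∧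
      N₁ • Orb d η (cls K x) - N₂ • Orb d η (cls K (pt u0 b0)) ∈ Sat (cyc d G) l := by
  classical
  obtain ⟨z, a, hprop, htd⟩ := normal_form hx hdim
  rw [cls_prop hprop]
  have hx' : pt z a ≠ 0 := by
    intro h
    obtain ⟨c, hc, h1⟩ := hprop
    apply hx
    funext o
    rw [h1 o, h, Pi.zero_apply, mul_zero]
  have hon' : aeval (pt z a) (cyc d G) = 0 := by
    obtain ⟨c, hc, h⟩ := hprop.symm
    rw [funext h, aeval_smul (cyc_homog hG), hon, mul_zero]
  have hdim' : dm K (pt z a) = l := by rw [← hprop.dm]; exact hdim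
  have hza : z ^ d = - aeval a G := by
    rw [aeval_cyc] at hon'
    linear_combination hon'
  have ha0 : a ≠ 0 := by
    intro h
    apply hx'
    have h1 : aeval a G = 0 := by
      have h2 := aeval_smul hG (0 : L) a
      have h3 : (fun i => (0 : L) * a i) = a := by
        funext i
        rw [h, zero_mul]
        rfl
      rw [h3, zero_pow hd.ne', zero_mul] at h2
      exact h2
    rw [h1, neg_zero] at hza
    have h4 : z = 0 := eq_zero_of_pow_eq_zero hza
    funext o
    cases o with
    | none => exact h4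
    | some j => exact congrFun h j
  have hdima : dm K a = l := by
    apply le_antisymm
    · rw [← hdim']
      unfold dm
      apply td_mono
      rintro _ ⟨p, rfl⟩
      exact ⟨(some p.1, some p.2), rfl⟩
    · obtain ⟨k, hk⟩ : ∃ k, a k ≠ 0 := by
        by_contra h
        push Not at h
        exact ha0 (funext h)
      rw [← hdim']
      have h1 : dm K (pt z a) = dm K (fun o => (a k)⁻¹ * pt z a o) :=
        (dm_smul _ (inv_ne_zero hk) _).symm
      rw [h1]
      have hm : ∀ j, (a k)⁻¹ * a j ∈ IntermediateField.adjoin K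
          (Set.range fun p : σ × σ => a p.1 / a p.2) := by
        intro j
        rw [← div_eq_inv_mul]
        exact IntermediateField.subset_adjoin K _ ⟨(j, k), rfl⟩
      apply dm_le_alg
      intro o
      cases o with
      | none =>
        change IsAlgebraic _ ((a k)⁻¹ * z)
        have h2 : ((a k)⁻¹ * z) ^ d = - aeval (fun j => (a k)⁻¹ * a j) G := by
          rw [aeval_smul hG, mul_pow, hza]
          ring
        have h3 : IsAlgebraic (IntermediateField.adjoin K
            (Set.range fun p : σ × σ => a p.1 / a p.2)) (((a k)⁻¹ * z) ^ d) := by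
          rw [h2]
          exact isAlgebraic_of_mem _ (neg_mem (aeval_mem _ hm G))
        exact h3.of_pow hd
      | some j => exact isAlgebraic_of_mem _ (hm j)
  -- the field generated by the point
  set T : Set L := {z} ∪ Set.range a with hT
  set κ := IntermediateField.adjoin K T with hκ
  obtain ⟨z0, hz0⟩ : ∃ z0 : κ, (z0 : L) = z :=
    ⟨⟨z, IntermediateField.subset_adjoin K _ (Or.inl rfl)⟩, rfl⟩
  obtain ⟨a0, ha0'⟩ : ∃ a0 : σ → κ, ∀ j, (a0 j : L) = a j :=
    ⟨fun j => ⟨a j, IntermediateField.subset_adjoin K _ (Or.inr ⟨j, rfl⟩)⟩, fun j => rfl⟩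
  set T0 : Set κ := {z0} ∪ Set.range a0 with hT0
  have hTimg : κ.val '' T0 = T := by
    rw [hT0, hT, Set.image_union, Set.image_singleton, ← Set.range_comp]
    congr 1
    · exact congrArg _ hz0
    · congr 1
      funext j
      exact ha0' j
  have htop : ∀ y : κ, y ∈ IntermediateField.adjoin K T0 := by
    intro y
    have h1 : κ.val y ∈ (IntermediateField.adjoin K T0).map κ.val := by
      rw [IntermediateField.adjoin_map, hTimg]
      exact y.2
    obtain ⟨y', hy', h2⟩ := h1
    have h3 : y' = y := κ.val.injective h2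
    rw [← h3]
    exact hy'
  have hva : (fun j => κ.val (a0 j)) = a := funext ha0'
  have hvpt : (fun o => κ.val (pt z0 a0 o)) = pt z a := by
    rw [map_pt, hva]
    congr 1
  have ha00 : a0 ≠ 0 := by
    intro h
    apply ha0
    rw [← hva, h]
    funext j
    simp
  have hdima0 : dm K a0 = l := by rw [← dm_map κ.val, hva, hdima]
  have hdimpt0 : dm K (pt z0 a0) = l := by rw [← dm_map κ.val, hvpt, hdim']
  have hza0 : z0 ^ d = - aeval a0 G := by
    apply (show Function.Injective κ.val from κ.val.injective)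
    rw [map_pow, map_neg, map_aeval_alg, hva]
    exact (congrArg (· ^ d) hz0).trans hza
  have hcard : l + 1 ≤ Nat.card σ := by
    have := Nat.card_le_card_of_injective ε hε
    simpa using this
  have : Infinite K := inferInstance
  obtain ⟨b, hb0, hspan, hint, hdimb, hgen⟩ := noether ha00 hdima0 hcard
  set bh : σ → κ := Function.extend ε b 0 with hbh
  have hbhε : ∀ i, bh (ε i) = b i := fun i => hε.extend_apply _ _ i
  have hbh0 : bh ≠ 0 := by
    intro h
    apply hb0
    funext i
    rw [← hbhε, h]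
    rfl
  have hbhspan : ∀ j, bh j ∈ Submodule.span K (Set.range a0) := by
    intro j
    by_cases hj : ∃ i, ε i = j
    · obtain ⟨i, rfl⟩ := hj
      rw [hbhε]
      exact hspan i
    · rw [hbh, Function.extend_apply' _ _ _ hj]
      exact zero_mem _
  have hdimbh : dm K bh = l := by rw [hbh, dm_extend hε, hdimb]
  have hlocbh : locus K bh = coordLocus K ε := locus_extend hε hgen
  -- the big field
  obtain ⟨Ω, _, _, _, ψ, t, ht⟩ := exists_big (K := K) κ
  obtain ⟨u, hu⟩ := IsAlgClosed.exists_pow_nat_eq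
    (- aeval (fun j => ψ (bh j) + t * (ψ (a0 j) - ψ (bh j))) G) hd
  obtain ⟨u0, hu0⟩ := IsAlgClosed.exists_pow_nat_eq (- aeval (fun j => ψ (bh j)) G) hd
  set S : Set Ω := insert u (insert t (ψ '' T0)) with hS
  have hT0fin : T0.Finite := (Set.finite_singleton _).union (Set.finite_range _)
  have hSfin : S.Finite := ((hT0fin.image _).insert _).insert _
  set E := IntermediateField.adjoin K S with hE
  have hess : Algebra.EssFiniteType K E := by
    rw [IntermediateField.essFiniteType_iff]
    exact IntermediateField.fg_adjoin_of_finite hSfin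
  have hψE' : ∀ y : κ, ψ y ∈ IntermediateField.adjoin K (ψ '' T0) := by
    intro y
    rw [← IntermediateField.adjoin_map]
    exact ⟨y, htop y, rfl⟩
  have hψE : ∀ y : κ, ψ y ∈ E := fun y =>
    IntermediateField.adjoin.mono K _ _ ((Set.subset_insert _ _).trans (Set.subset_insert _ _))
      (hψE' y)
  let φ : κ →ₐ[K] E :=
    { toFun := fun y => ⟨ψ y, hψE y⟩
      map_one' := Subtype.ext (map_one ψ)
      map_mul' := fun y y' => Subtype.ext (map_mul ψ y y')
      map_zero' := Subtype.ext (map_zero ψ)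
      map_add' := fun y y' => Subtype.ext (map_add ψ y y')
      commutes' := fun r => Subtype.ext (ψ.commutes r) }
  have hφ : ∀ y, E.val (φ y) = ψ y := fun y => rfl
  let tE : E := ⟨t, IntermediateField.subset_adjoin K _ (Or.inr (Or.inl rfl))⟩
  let uE : E := ⟨u, IntermediateField.subset_adjoin K _ (Or.inl rfl)⟩
  have hnt : ¬ IsAlgebraic (IntermediateField.adjoin K (ψ '' T0)) t :=
    ht _ (by rintro _ ⟨y, -, rfl⟩; exact ⟨y, rfl⟩)
  have htdT0 : td K T0 ≤ l := by
    rw [← td_image κ.val, hTimg]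
    exact htd
  have htdT0' : (l : ℕ∞) ≤ td K T0 := by
    rw [← hdimpt0]
    refine dm_le (S := T0) (fun o => htop _) le_rfl
  have htdins : td K (insert t (ψ '' T0)) = ((l + 1 : ℕ) : ℕ∞) := by
    rw [td_insert_of_not hnt, td_image, le_antisymm htdT0 htdT0']
    push_cast
    rfl
  have htr : Algebra.trdeg K E = l + 1 := by
    have h1 : Algebra.trdeg K E = ((l + 1 : ℕ) : Cardinal) := by
      rw [trdeg_iff, hE, td_adjoin, ← htdins]
      apply le_antisymm
      · apply td_le_of_alg
        rintro y (rfl | hy)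
        · have h2 : ∀ y : κ, ψ y ∈ IntermediateField.adjoin K (insert t (ψ '' T0)) := fun y =>
            IntermediateField.adjoin.mono K _ _ (Set.subset_insert _ _) (hψE' y)
          have h3 : t ∈ IntermediateField.adjoin K (insert t (ψ '' T0)) :=
            IntermediateField.subset_adjoin K _ (Or.inl rfl)
          have h4 : IsAlgebraic (IntermediateField.adjoin K (insert t (ψ '' T0))) (y ^ d) := by
            rw [hu]
            exact isAlgebraic_of_mem _ (neg_mem (aeval_mem _ (fun j => add_mem (h2 _)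
              (mul_mem h3 (sub_mem (h2 _) (h2 _)))) G))
          exact h4.of_pow hd
        · exact isAlgebraic_of_mem _ (IntermediateField.subset_adjoin K _ hy)
      · exact td_mono (Set.subset_insert _ _)
    rw [h1]
    push_cast
    rfl
  have hφT0 : φ '' T0 = {φ z0} ∪ Set.range (fun j => φ (a0 j)) := by
    rw [hT0, Set.image_union, Set.image_singleton, ← Set.range_comp]
    rfl
  have hptφ : (fun o => φ (pt z0 a0 o)) = pt (φ z0) (fun j => φ (a0 j)) := map_pt _ _ _
  obtain ⟨N₁, N₂, hN1, hN2, hrel⟩ := orb_engine (E := E) hd hG hη htr (z := φ z0) (t := tE)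
    (u := uE) (a := fun j => φ (a0 j)) (b := fun j => φ (bh j))
    (by
      intro h
      apply hbh0
      funext j
      exact (map_eq_zero φ).1 (congrFun h j))
    (by
      intro P c hreg j
      refine hint E φ P c (fun i => ?_) j
      rw [← hbhε i]
      exact hreg (ε i))
    (by
      intro j
      have h1 := Submodule.mem_map_of_mem (f := φ.toLinearMap) (hbhspan j)
      rw [Submodule.map_span, ← Set.range_comp] at h1
      exact h1)
    (by
      rw [← hφT0, td_image]
      exact htdT0)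
    (by
      rw [← hφT0, ← td_image E.val, Set.image_insert_eq, Set.image_image]
      have h1 : (fun x => E.val (φ x)) = ψ := rfl
      rw [h1]
      exact htdins.ge)
    (by
      rw [← map_pow, hza0, map_neg, map_aeval_alg])
    (by
      apply (show Function.Injective E.val from E.val.injective)
      rw [map_pow, map_neg, map_aeval_alg]
      have h1 : E.val uE = u := rfl
      rw [h1, hu]
      congr 2)
    (by rw [← hptφ, dm_map, hdimpt0])
    (by rw [dm_map, hdimbh])
    (γ := Orb d η (cls K (pt u0 (fun j => ψ (bh j)))))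
    (by
      intro M _ _ u' b' hlb hub
      rw [locus_map] at hlb
      have hψ0 : (fun j => ψ (bh j)) ≠ 0 := by
        intro h
        apply hbh0
        funext j
        exact (map_eq_zero ψ).1 (congrFun h j)
      obtain ⟨ζ, hζ, h1⟩ := conj_lemma (c := fun j => ψ (bh j)) (c' := b') hψ0
        (by rw [locus_map, hlb]) hd hη hG hu0 hub
      have h2 : cls K (pt u0 fun j => ψ (bh j)) = cls K (tw ζ (pt u' b')) := by
        unfold cls
        rw [h1]
      rw [h2, Orb_tw hd hη hζ])
  refine ⟨N₁, N₂, hN1, hN2, Ω, inferInstance, inferInstance, u0, fun j => ψ (bh j), ?_, ?_, hu0, ?_⟩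
  · intro h
    apply hbh0
    funext j
    exact (map_eq_zero ψ).1 (congrFun h j)
  · rw [locus_map, hlocbh]
  · have h1 : cls K (pt (φ z0) (fun j => φ (a0 j))) = cls K (pt z a) := by
      unfold cls
      rw [← hptφ, locus_map, ← hvpt, locus_map]
    rw [h1] at hrel
    exact hrel

/-- The main theorem: any two `l`-dimensional subvarieties have proportional classes. -/
theorem main [IsAlgClosed K] [CharZero K] [Finite σ] {d l m : ℕ} {G : MvPolynomial σ K}
    {β : σ → ℕ} (hd : 0 < d) (hG : G.IsHomogeneous d)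
    (hB : ∀ s ∈ G.support, ∀ i j, s i ≠ 0 → s j ≠ 0 → β i < m → β j < m → β i = β j)
    (hne : ∀ r < m, ∃ j, β j = r)
    (hdeg : ∀ r < m, ∀ s ∈ G.support, ∑ j ∈ s.support with β j = r, s j ≤
      Nat.card {j // β j = r}) (hl : l < m)
    {Z₁ Z₂ : Set (MvPolynomial (Option σ) K)} (h₁ : IsSubvariety (cyc d G) l Z₁)
    (h₂ : IsSubvariety (cyc d G) l Z₂) :
    ∃ m₁ m₂ : ℤ, 0 < m₁ ∧ 0 < m₂ ∧
      Finsupp.single Z₁ m₁ - Finsupp.single Z₂ m₂ ∈ ratZero (cyc d G) l := by
  classical
  have : NeZero (d : K) := ⟨by exact_mod_cast hd.ne'⟩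
  obtain ⟨η, hη⟩ := HasEnoughRootsOfUnity.exists_primitiveRoot K d
  obtain ⟨ε, hε⟩ : ∃ ε : Fin (l + 1) → σ, Function.Injective ε := by
    have h1 : ∀ r : Fin (l + 1), Nonempty {j // β j = r} := by
      intro r
      obtain ⟨j, hj⟩ := hne r (by omega)
      exact ⟨⟨j, hj⟩⟩
    refine ⟨fun r => (h1 r).some.1, fun r s h => ?_⟩
    have h2 := (h1 r).some.2
    have h3 := (h1 s).some.2
    apply Fin.ext
    rw [← h2, ← h3]
    exact congrArg β h
  obtain ⟨L₁, _, _, x₁, hx1, hon1, hdim1, rfl⟩ := h₁
  obtain ⟨L₂, _, _, x₂, hx2, hon2, hdim2, rfl⟩ := h₂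
  rw [hasDim_iff] at hdim1 hdim2
  obtain ⟨N₁, M₁, hN1, hM1, F₁, _, _, u₁, b₁, hb1, hl1, hu1, hr1⟩ :=
    orb_main hd hG hη hε hx1 hon1 hdim1
  obtain ⟨N₂, M₂, hN2, hM2, F₂, _, _, u₂, b₂, hb2, hl2, hu2, hr2⟩ :=
    orb_main hd hG hη hε hx2 hon2 hdim2
  have hi1 := Orb_of_Inv hd hη.pow_eq_one x₁
    (invariant_all hd hG hη hB hne hdeg hl x₁ hx1 hon1 hdim1)
  have hi2 := Orb_of_Inv hd hη.pow_eq_one x₂
    (invariant_all hd hG hη hB hne hdeg hl x₂ hx2 hon2 hdim2)
  have hO : Orb d η (cls K (pt u₁ b₁)) = Orb d η (cls K (pt u₂ b₂)) := by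
    obtain ⟨ζ, hζ, h1⟩ := conj_lemma hb1 (hl1.trans hl2.symm) hd hη hG hu1 hu2
    have h2 : cls K (pt u₁ b₁) = cls K (tw ζ (pt u₂ b₂)) := by
      unfold cls
      rw [h1]
    rw [h2, Orb_tw hd hη hζ]
  rw [hO] at hr1
  have hfin : (M₂ * N₁ * d) • cls K x₁ - (M₁ * N₂ * d) • cls K x₂ ∈ Sat (cyc d G) l := by
    have h1 := zsmul_mem hr1 M₂
    have h2 := zsmul_mem hr2 M₁
    have h3 := zsmul_mem hi1 (M₂ * N₁)
    have h4 := zsmul_mem hi2 (M₁ * N₂)
    have h5 := add_mem (sub_mem (sub_mem h1 h2) h3) h4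
    convert h5 using 1
    simp only [smul_sub, smul_smul]
    rw [mul_comm M₁ M₂]
    abel
  obtain ⟨N, hN, h⟩ := hfin
  have hd' : (0 : ℤ) < d := by exact_mod_cast hd
  have hN' : (0 : ℤ) < N := by exact_mod_cast hN
  refine ⟨N * (M₂ * N₁ * d), N * (M₁ * N₂ * d), by positivity, by positivity, ?_⟩
  convert h using 1
  unfold cls
  rw [smul_sub, ← natCast_zsmul, ← natCast_zsmul, smul_smul, smul_smul, Finsupp.smul_single,
    Finsupp.smul_single]
  simp

end Run7.h546
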