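import Pool.Agent.Run7.h546.Defs

/-!
The forms of the definitions used in the proofs (with the residue field `P.RF`), and the comparison.
-/

set_option autoImplicit false

namespace Run7.h546

open MvPolynomial

open Classical in
/-- The centre on projective space of a discrete valuation `P` of a field `E` with respect to a
point `x` over `E`: divide `x` by a coordinate of smallest valuation, and reduce. -/
noncomputable def centre {K ι E : Type} [Field K] [Field E] [Algebra K E] (P : FF.Place K E)
    (x : ι → E) : ι → P.RF :=
  if h : ∃ j, x j ≠ 0 ∧ ∀ i, P.Reg (x i / x j) then fun i => P.red (x i / x h.choose) else 0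

open Classical in
/-- The contribution of the valuation `P` to the divisor of `g`: if the centre is `l`-dimensional,
`ord_P g` times the degree of the residue field of `P` over the function field of the centre, times
the centre. -/
noncomputable def contribution {K ι E : Type} [Field K] [Field E] [Algebra K E] (l : ℕ)
    (x : ι → E) (g : E) (P : FF.Place K E) : Set (MvPolynomial ι K) →₀ ℤ :=
  if HasDim K (centre P x) l then
    Finsupp.single (locus K (centre P x))
      (P.ord g * Module.finrank (ratios K (centre P x)) P.RF) else 0

/-- The push-forward to `P(K^ι)` of the divisor of the rational function `g` on a normal projective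
model of `E` that maps to `P(K^ι)` by `x`: the sum of the contributions of all normalised discrete
valuations of `E` trivial on `K`. -/
noncomputable def divisorCycle {K ι E : Type} [Field K] [Field E] [Algebra K E] (l : ℕ)
    (x : ι → E) (g : E) : Set (MvPolynomial ι K) →₀ ℤ :=
  ∑ᶠ P : FF.Place K E, contribution l x g P

/-- The cycles rationally equivalent to zero among the `l`-dimensional cycles on the hypersurface
`F = 0`: the group generated by all push-forwards of divisors of nonzero rational functions `g` on
`(l+1)`-dimensional varieties (with function field `E`) that map to the hypersurface. -/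
noncomputable def ratZero {K ι : Type} [Field K] (F : MvPolynomial ι K) (l : ℕ) :
    AddSubgroup (Set (MvPolynomial ι K) →₀ ℤ) :=
  AddSubgroup.closure {c | ∃ (E : Type) (_ : Field E) (_ : Algebra K E) (x : ι → E) (g : E),
    Algebra.EssFiniteType K E ∧ Algebra.trdeg K E = l + 1 ∧ x ≠ 0 ∧ aeval x F = 0 ∧ g ≠ 0 ∧
    c = divisorCycle l x g}

/-! ### Comparison with the definitions used in the proofs -/

section

variable {K ι E : Type} [Field K] [Field E] [Algebra K E]

theorem centreOf_eq (P : FF.Place K E) (x : ι → E) : centreOf P x = centre P x := rfl

theorem residueAlgebra_eq (P : FF.Place K E) :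
    (residueAlgebra P : Algebra K (IsLocalRing.ResidueField P.O)) =
      (inferInstance : Algebra K P.RF) := by
  refine Algebra.algebra_ext _ _ fun c => ?_
  exact (P.red_of_reg (P.reg_const c)).symm

theorem divisorTerm_eq (l : ℕ) (x : ι → E) (g : E) (P : FF.Place K E) :
    divisorTerm l x g P = contribution l x g P := by
  unfold divisorTerm contribution centreDegree
  rw [residueAlgebra_eq]
  rfl

theorem pushDivisor_eq (l : ℕ) (x : ι → E) (g : E) :
    (pushDivisor l x g : Set (MvPolynomial ι K) →₀ ℤ) = divisorCycle l x g := by
  unfold pushDivisor divisorCycle
  exact finsum_congr fun P => divisorTerm_eq l x g P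

theorem RatZero_eq (F : MvPolynomial ι K) (l : ℕ) : RatZero F l = ratZero F l := by
  unfold RatZero ratZero IsPushDivisor
  simp only [pushDivisor_eq]

end

end Run7.h546
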