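import Pool.Agent.Run7.h546.Step

/-!
Noether normalisation, in valuative form.
-/

set_option autoImplicit false

namespace Run7.h546

open MvPolynomial FF

variable {K : Type} [Field K]

/-- `a` is integral over `b` (valuative form). -/
def IntOver (K : Type) {κ τ τ' : Type} [Field K] [Field κ] [Algebra K κ] (a : τ → κ) (b : τ' → κ) :
    Prop :=
  ∀ (E : Type) [Field E] [Algebra K E] (φ : κ →ₐ[K] E) (P : Place K E) (c : E),
    (∀ i, P.Reg (φ (b i) / c)) → ∀ j, P.Reg (φ (a j) / c)

theorem map_aeval_ring {ι A B : Type} [CommRing A] [Algebra K A] [CommRing B] [Algebra K B]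
    (φ : A →ₐ[K] B) (x : ι → A) (H : MvPolynomial ι K) :
    φ (aeval x H) = aeval (fun i => φ (x i)) H := by
  rw [← AlgHom.comp_apply, comp_aeval]

theorem aeval_self {τ : Type} (p : τ → K) (H : MvPolynomial τ K) : (aeval p H : K) = eval p H :=
  rfl

theorem aeval_const {τ κ : Type} [Field κ] [Algebra K κ] (p : τ → K) (H : MvPolynomial τ K) :
    aeval (fun i => algebraMap K κ (p i)) H = algebraMap K κ (eval p H) := by
  have := map_aeval_alg (Algebra.ofId K κ) p H
  rw [aeval_self] at this
  exact this.symm

/-- The elementary projection. -/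
theorem project {κ : Type} [Field κ] [Algebra K κ] [Infinite K] {n e : ℕ} {b : Fin (n + 1) → κ}
    (hb : b ≠ 0) {H : MvPolynomial (Fin (n + 1)) K} (hH : H.IsHomogeneous e) (hH0 : H ≠ 0)
    (hHb : aeval b H = 0) :
    ∃ b' : Fin n → κ, b' ≠ 0 ∧ (∀ i, b' i ∈ Submodule.span K (Set.range b)) ∧
      IntOver K b b' ∧ dm K b ≤ dm K b' := by
  obtain ⟨p, hp⟩ : ∃ p, eval p H ≠ 0 := by
    by_contra h
    push Not at h
    exact hH0 (hH.eq_zero_of_forall_eval_eq_zero h)
  obtain ⟨k, hk⟩ : ∃ k, p k ≠ 0 := by
    by_contra h
    push Not at h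
    apply hp
    have h1 := aeval_smul hH (0 : κ) b
    rw [hHb, mul_zero] at h1
    have h2 : (fun i => (0 : κ) * b i) = fun i => algebraMap K κ (p i) := by
      funext i
      rw [h i, map_zero, zero_mul]
    rw [h2, aeval_const] at h1
    exact (map_eq_zero _).1 h1
  set p' : Fin (n + 1) → K := fun i => p i / p k with hp'
  have hpk : p' k = 1 := div_self hk
  have hHp : eval p' H ≠ 0 := by
    intro h
    apply hp
    have h1 := aeval_smul (L := K) hH (p k) p'
    have h2 : (fun i => p k * p' i) = p := by
      funext i
      exact mul_div_cancel₀ _ hk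
    rw [h2] at h1
    rw [aeval_self, aeval_self, h, mul_zero] at h1
    exact h1
  set b' : Fin n → κ := fun i => b (k.succAbove i) - algebraMap K κ (p' (k.succAbove i)) * b k
    with hb'
  have hHp' : ∀ (M : Type) [Field M] [Algebra K M],
      aeval (fun i => algebraMap K M (p' i)) H ≠ 0 := by
    intro M _ _ h
    rw [aeval_const] at h
    exact hHp ((map_eq_zero _).1 h)
  have hb'0 : b' ≠ 0 := by
    intro h
    have h1 : ∀ j, b j = b k * algebraMap K κ (p' j) := by
      intro j
      rcases Fin.eq_self_or_eq_succAbove k j with h2 | ⟨i, h2⟩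
      · rw [h2, hpk, map_one, mul_one]
      · rw [h2]
        have h3 := congrFun h i
        rw [hb'] at h3
        simp only [Pi.zero_apply] at h3
        linear_combination h3
    have h2 : aeval b H = b k ^ e * aeval (fun i => algebraMap K κ (p' i)) H := by
      rw [← aeval_smul hH]
      congr 2
      funext j
      exact h1 j
    rw [hHb] at h2
    rcases mul_eq_zero.1 h2.symm with h3 | h3
    · have h4 : b k = 0 := eq_zero_of_pow_eq_zero h3
      apply hb
      funext j
      rw [h1 j, h4, zero_mul]
      rfl
    · exact hHp' κ h3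
  refine ⟨b', hb'0, ?_, ?_, ?_⟩
  · intro i
    rw [hb']
    simp only
    rw [← Algebra.smul_def]
    exact sub_mem (Submodule.subset_span ⟨_, rfl⟩)
      (Submodule.smul_mem _ _ (Submodule.subset_span ⟨_, rfl⟩))
  · intro E _ _ φ P c hreg
    have hdec : ∀ i, φ (b (k.succAbove i)) / c = φ (b' i) / c +
        algebraMap K E (p' (k.succAbove i)) * (φ (b k) / c) := by
      intro i
      rw [hb']
      simp only
      rw [map_sub, map_mul, AlgHom.commutes]
      ring
    have hbk : P.Reg (φ (b k) / c) := by
      by_contra hn
      have hne : φ (b k) / c ≠ 0 := fun h => hn (Or.inl h)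
      have hord : P.ord (φ (b k) / c) < 0 := by
        by_contra h
        exact hn (Or.inr (not_lt.1 h))
      have hbk0 : φ (b k) ≠ 0 := fun h => hne (by rw [h, zero_div])
      have hc0 : c ≠ 0 := fun h => hne (by rw [h, div_zero])
      have hinv : P.ord (c / φ (b k)) > 0 := by
        rw [← inv_div, P.ord_inv]
        omega
      have hinvr : P.Reg (c / φ (b k)) := Or.inr hinv.le
      have hinv0 : P.red (c / φ (b k)) = 0 := (P.red_eq_zero_iff hinvr).2 (Or.inr hinv)
      have hall : ∀ j, P.Reg (φ (b j) / φ (b k)) ∧
          P.red (φ (b j) / φ (b k)) = algebraMap K P.RF (p' j) := by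
        intro j
        rcases Fin.eq_self_or_eq_succAbove k j with h2 | ⟨i, h2⟩
        · rw [h2, div_self hbk0, hpk, map_one]
          exact ⟨P.reg_one, P.red_one⟩
        · have h3 : φ (b j) / φ (b k) = (φ (b' i) / c) * (c / φ (b k)) +
              algebraMap K E (p' j) := by
            rw [h2]
            have h4 := hdec i
            rw [div_mul_div_cancel₀ hc0]
            field_simp at h4 ⊢
            linear_combination h4
          have h4 : P.Reg ((φ (b' i) / c) * (c / φ (b k))) := P.reg_mul (hreg i) hinvr
          rw [h3, P.red_add h4 (P.reg_const _), P.red_mul (hreg i) hinvr, hinv0, mul_zero, zero_add]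
          exact ⟨P.reg_add h4 (P.reg_const _), rfl⟩
      apply hHp' P.RF
      have h5 := (reg_aeval P (fun j => (hall j).1) H).2
      have h6 : (fun j => P.red (φ (b j) / φ (b k))) = fun j => algebraMap K P.RF (p' j) :=
        funext fun j => (hall j).2
      rw [h6] at h5
      rw [← h5]
      have h7 : (fun j => φ (b j) / φ (b k)) = fun j => (φ (b k))⁻¹ * φ (b j) := by
        funext j
        rw [div_eq_inv_mul]
      rw [h7, aeval_smul hH, ← map_aeval_alg, hHb, map_zero, mul_zero, P.red_zero]
    intro j
    rcases Fin.eq_self_or_eq_succAbove k j with h2 | ⟨i, h2⟩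
    · rw [h2]
      exact hbk
    · rw [h2, hdec i]
      exact P.reg_add (hreg i) (P.reg_mul (P.reg_const _) hbk)
  · -- dimension
    obtain ⟨i0, hi0⟩ : ∃ i, b' i ≠ 0 := by
      by_contra h
      push Not at h
      exact hb'0 (funext h)
    set F := IntermediateField.adjoin K (Set.range fun q : Fin n × Fin n => b' q.1 / b' q.2) with hF
    have hFm : ∀ i, b' i / b' i0 ∈ F := fun i => IntermediateField.subset_adjoin K _ ⟨(i, i0), rfl⟩
    -- key: algebraicity
    have hdec : ∀ j, ∃ β : F, b j / b' i0 = β + algebraMap K κ (p' j) * (b k / b' i0) := by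
      intro j
      rcases Fin.eq_self_or_eq_succAbove k j with h2 | ⟨i, h2⟩
      · refine ⟨0, ?_⟩
        rw [h2, hpk, map_one, one_mul]
        exact (zero_add _).symm
      · refine ⟨⟨_, hFm i⟩, ?_⟩
        have h3 : b (k.succAbove i) = b' i + algebraMap K κ (p' (k.succAbove i)) * b k := by
          rw [hb']
          simp only
          ring
        change b j / b' i0 = b' i / b' i0 + algebraMap K κ (p' j) * (b k / b' i0)
        rw [h2, h3]
        ring
    choose βf hβf using hdec
    have hInf : Infinite F := Infinite.of_injective (algebraMap K F) (algebraMap K F).injective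
    have halg : IsAlgebraic F (b k / b' i0) := by
      by_contra htr
      let Q : Polynomial F := aeval (fun j => Polynomial.C (βf j) +
        Polynomial.C (algebraMap K F (p' j)) * Polynomial.X) H
      let R : Polynomial F := aeval (fun j => Polynomial.C (βf j) * Polynomial.X +
        Polynomial.C (algebraMap K F (p' j))) H
      have hQ : Polynomial.aeval (b k / b' i0) Q = 0 := by
        have h1 : ((Polynomial.aeval (b k / b' i0)).restrictScalars K) Q =
            aeval (fun j => (b' i0)⁻¹ * b j) H := by
          rw [map_aeval_ring]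
          congr 2
          funext j
          simp only [AlgHom.restrictScalars_apply, map_add, map_mul, Polynomial.aeval_C,
            Polynomial.aeval_X]
          rw [← div_eq_inv_mul, hβf j]
          rfl
        rw [aeval_smul hH, hHb, mul_zero] at h1
        exact h1
      have hQ0 : Q = 0 := by
        by_contra hne
        exact htr ⟨Q, hne, hQ⟩
      have hR : ∀ t : K, t ≠ 0 → Polynomial.eval (algebraMap K F t) R = 0 := by
        intro t ht
        have h1 : Polynomial.eval (algebraMap K F t) R = (algebraMap K F t) ^ e *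
            Polynomial.eval (algebraMap K F t)⁻¹ Q := by
          have h2 : ∀ (s : F) (f : Fin (n + 1) → Polynomial F), Polynomial.eval s (aeval f H) =
              aeval (fun j => Polynomial.eval s (f j)) H := by
            intro s f
            have := map_aeval_ring ((Polynomial.aeval s).restrictScalars K) f H
            exact this
          rw [h2, h2, ← aeval_smul hH]
          congr 2
          funext j
          simp only [Polynomial.eval_add, Polynomial.eval_mul, Polynomial.eval_C,
            Polynomial.eval_X]
          have ht' : algebraMap K F t ≠ 0 := by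
            rwa [Ne, map_eq_zero]
          field_simp
        rw [h1, hQ0, Polynomial.eval_zero, mul_zero]
      have hR0 : R = 0 := by
        apply Polynomial.eq_zero_of_infinite_isRoot
        have h1 : (algebraMap K F '' {t : K | t ≠ 0}).Infinite := by
          apply Set.Infinite.image ((algebraMap K F).injective.injOn)
          exact (Set.finite_singleton (0 : K)).infinite_compl
        refine h1.mono ?_
        rintro _ ⟨t, ht, rfl⟩
        exact hR t ht
      have h3 : Polynomial.eval 0 R = aeval (fun j => algebraMap K F (p' j)) H := by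
        have := map_aeval_ring ((Polynomial.aeval (0 : F)).restrictScalars K)
          (fun j => Polynomial.C (βf j) * Polynomial.X +
            Polynomial.C (algebraMap K F (p' j))) H
        refine Eq.trans this ?_
        congr 2
        funext j
        simp
      rw [hR0, Polynomial.eval_zero] at h3
      exact hHp' F h3.symm
    have hallalg : ∀ j, IsAlgebraic F (b j / b' i0) := by
      intro j
      rw [hβf j]
      refine IsAlgebraic.add (isAlgebraic_of_mem F (βf j).2) (IsAlgebraic.mul
        (isAlgebraic_of_mem F (IntermediateField.algebraMap_mem _ _)) halg)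
    unfold dm
    apply td_le_of_alg
    rintro _ ⟨q, rfl⟩
    have h1 : b q.1 / b q.2 = (b q.1 / b' i0) * (b q.2 / b' i0)⁻¹ := by
      rw [← div_eq_mul_inv, div_div_div_cancel_right₀ hi0]
    change IsAlgebraic F (b q.1 / b q.2)
    rw [h1]
    exact (hallalg _).mul (hallalg _).inv

/-- A nonzero form vanishing at a point with too many coordinates. -/
theorem exists_form {κ : Type} [Field κ] [Algebra K κ] {n l : ℕ} {b : Fin n → κ} (hb : b ≠ 0)
    (hdim : dm K b ≤ l) (hn : l + 1 < n) :
    ∃ (e : ℕ) (H : MvPolynomial (Fin n) K), H.IsHomogeneous e ∧ H ≠ 0 ∧ aeval b H = 0 := by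
  obtain ⟨k, hk⟩ : ∃ k, b k ≠ 0 := by
    by_contra h
    push Not at h
    exact hb (funext h)
  obtain ⟨Ω, _, _, _, ψ, s, hs⟩ := exists_big (K := K) κ
  let y : Fin n → Ω := fun i => s * ψ (b i)
  have h1 : td K (Set.range y) ≤ (l + 1 : ℕ) := by
    calc td K (Set.range y) ≤ td K (insert (s * ψ (b k))
          (ψ '' (Set.range fun p : Fin n × Fin n => b p.1 / b p.2))) := by
          apply td_le_of_subset_adjoin
          rintro _ ⟨i, rfl⟩
          have h2 : s * ψ (b i) = (s * ψ (b k)) * ψ (b i / b k) := by
            rw [mul_assoc, ← map_mul, mul_div_cancel₀ _ hk]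
          change s * ψ (b i) ∈ IntermediateField.adjoin K _
          rw [h2]
          exact mul_mem (IntermediateField.subset_adjoin K _ (Or.inl rfl))
            (IntermediateField.subset_adjoin K _ (Or.inr ⟨_, ⟨(i, k), rfl⟩, rfl⟩))
      _ ≤ td K (ψ '' (Set.range fun p : Fin n × Fin n => b p.1 / b p.2)) + 1 := td_insert_le _ _
      _ ≤ l + 1 := by
          rw [td_image]
          exact add_le_add hdim le_rfl
      _ = (l + 1 : ℕ) := by push_cast; rfl
  have h2 : ¬ AlgebraicIndependent K y := by
    intro h
    have h3 := td_range_of_indep h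
    rw [h3, Fintype.card_fin] at h1
    norm_cast at h1
    omega
  rw [algebraicIndependent_iff] at h2
  push Not at h2
  obtain ⟨f, hf, hf0⟩ := h2
  have h4 : ∀ m, aeval b (homogeneousComponent m f) = 0 := by
    intro m
    by_contra hne
    apply hs (Set.range ψ) subset_rfl
    set F := IntermediateField.adjoin K (Set.range ψ) with hF
    have hmem : ∀ c : κ, ψ c ∈ F := fun c => IntermediateField.subset_adjoin K _ ⟨c, rfl⟩
    let q : Polynomial F := ∑ m ∈ Finset.range (f.totalDegree + 1),
      Polynomial.C (⟨ψ (aeval b (homogeneousComponent m f)), hmem _⟩ : F) * Polynomial.X ^ m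
    refine ⟨q, ?_, ?_⟩
    · intro hq
      have hm : m ∈ Finset.range (f.totalDegree + 1) := by
        rw [Finset.mem_range]
        by_contra hlt
        apply hne
        rw [homogeneousComponent_eq_zero _ _ (by omega), map_zero]
      have h5 : q.coeff m = ⟨ψ (aeval b (homogeneousComponent m f)), hmem _⟩ := by
        simp only [q, Polynomial.finsetSum_coeff, Polynomial.coeff_C_mul_X_pow]
        rw [Finset.sum_ite_eq]
        rw [if_pos hm]
      rw [hq, Polynomial.coeff_zero] at h5
      apply hne
      apply ψ.injective
      rw [map_zero]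
      exact (congrArg Subtype.val h5).symm
    · have h5 : Polynomial.aeval s q = ∑ m ∈ Finset.range (f.totalDegree + 1),
          s ^ m * ψ (aeval b (homogeneousComponent m f)) := by
        simp only [q]
        rw [map_sum]
        refine Finset.sum_congr rfl fun m _ => ?_
        rw [map_mul, map_pow, Polynomial.aeval_X, Polynomial.aeval_C, mul_comm]
        rfl
      rw [h5]
      have h6 : f = ∑ m ∈ Finset.range (f.totalDegree + 1), homogeneousComponent m f :=
        (sum_homogeneousComponent f).symm
      rw [← hf]
      conv_rhs => rw [h6]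
      rw [map_sum]
      refine Finset.sum_congr rfl fun m _ => ?_
      rw [aeval_smul (homogeneousComponent_isHomogeneous m f), map_aeval_alg]
  by_contra hcon
  push Not at hcon
  apply hf0
  rw [← sum_homogeneousComponent f]
  refine Finset.sum_eq_zero fun m _ => ?_
  by_contra hne
  exact hcon m _ (homogeneousComponent_isHomogeneous m f) hne (h4 m)

theorem dm_fin_le {κ : Type} [Field κ] [Algebra K κ] {n : ℕ} {b : Fin n → κ} (hb : b ≠ 0) :
    dm K b + 1 ≤ n := by
  obtain ⟨k, hk⟩ : ∃ k, b k ≠ 0 := by
    by_contra h
    push Not at h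
    exact hb (funext h)
  rw [dm_chart hk]
  have h1 : td K (Set.range fun i => b i / b k) ≤ td K ((fun i => b i / b k) '' {i | i ≠ k}) := by
    apply td_le_of_subset_adjoin
    rintro _ ⟨i, rfl⟩
    by_cases hi : i = k
    · simp only
      rw [hi, div_self hk]
      exact one_mem _
    · exact IntermediateField.subset_adjoin K _ ⟨i, hi, rfl⟩
  have h2 : ((fun i => b i / b k) '' {i | i ≠ k}).encard + 1 ≤ n := by
    have h3 : ({i | i ≠ k} : Set (Fin n)).encard + 1 = n := by
      have h4 : ({i | i ≠ k} : Set (Fin n)) = {k}ᶜ := rfl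
      rw [h4, ← Set.encard_singleton k, add_comm, Set.encard_add_encard_compl, Set.encard_univ,
        ENat.card_eq_coe_fintype_card, Fintype.card_fin]
    rw [← h3]
    exact add_le_add (Set.encard_image_le _ _) le_rfl
  exact (add_le_add (h1.trans (td_le_encard _)) le_rfl).trans h2

theorem dm_span_le {κ τ τ' : Type} [Field κ] [Algebra K κ] {a : τ → κ} {b : τ' → κ}
    (ha : a ≠ 0) (h : ∀ i, b i ∈ Submodule.span K (Set.range a)) : dm K b ≤ dm K a := by
  obtain ⟨k, hk⟩ : ∃ k, a k ≠ 0 := by
    by_contra h
    push Not at h
    exact ha (funext h)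
  rw [dm_eq a]
  have h1 : ∀ i, b i / a k ∈ ratios K a := by
    intro i
    have h2 : ∀ y ∈ Submodule.span K (Set.range a), y / a k ∈ ratios K a := by
      intro y hy
      induction hy using Submodule.span_induction with
      | mem y hy =>
        obtain ⟨j, rfl⟩ := hy
        exact IntermediateField.subset_adjoin K _ ⟨(j, k), rfl⟩
      | zero =>
        rw [zero_div]
        exact zero_mem _
      | add y z _ _ hy hz =>
        rw [add_div]
        exact add_mem hy hz
      | smul c y _ hy =>
        rw [Algebra.smul_def, mul_div_assoc]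
        exact mul_mem (IntermediateField.algebraMap_mem _ _) hy
    exact h2 _ (h i)
  unfold dm
  apply td_mono
  rintro _ ⟨p, rfl⟩
  have h3 : b p.1 / b p.2 = (b p.1 / a k) / (b p.2 / a k) := by
    rw [div_div_div_cancel_right₀ hk]
  change b p.1 / b p.2 ∈ ratios K a
  rw [h3]
  exact div_mem (h1 _) (h1 _)

/-- Noether normalisation. -/
theorem noether {κ τ : Type} [Field κ] [Algebra K κ] [Infinite K] [Finite τ] {l : ℕ} {a : τ → κ}
    (ha : a ≠ 0) (hdim : dm K a = l) (hcard : l + 1 ≤ Nat.card τ) :
    ∃ b : Fin (l + 1) → κ, b ≠ 0 ∧ (∀ i, b i ∈ Submodule.span K (Set.range a)) ∧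
      IntOver K a b ∧ dm K b = l ∧
      ∀ (e : ℕ) (H : MvPolynomial (Fin (l + 1)) K), H.IsHomogeneous e → aeval b H = 0 → H = 0 := by
  classical
  have hdesc : ∀ k n, n + k = Nat.card τ → l + 1 ≤ n → ∃ b : Fin n → κ, b ≠ 0 ∧
      (∀ i, b i ∈ Submodule.span K (Set.range a)) ∧ IntOver K a b ∧ (l : ℕ∞) ≤ dm K b := by
    intro k
    induction k with
    | zero =>
      intro n hn _
      rw [add_zero] at hn
      subst hn
      let e : Fin (Nat.card τ) ≃ τ := (Finite.equivFin τ).symm
      refine ⟨fun i => a (e i), ?_, ?_, ?_, ?_⟩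
      · intro h
        apply ha
        funext j
        have := congrFun h (e.symm j)
        simpa using this
      · intro i
        exact Submodule.subset_span ⟨_, rfl⟩
      · intro E _ _ φ P c hreg j
        have := hreg (e.symm j)
        simpa using this
      · rw [← hdim]
        unfold dm
        apply td_mono
        rintro _ ⟨p, rfl⟩
        exact ⟨(e.symm p.1, e.symm p.2), by simp⟩
    | succ k ih =>
      intro n hn hl
      obtain ⟨b, hb0, hspan, hint, hdm⟩ := ih (n + 1) (by omega) (by omega)
      obtain ⟨e, H, hH, hH0, hHb⟩ := exists_form hb0 ((dm_span_le ha hspan).trans hdim.le)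
        (by omega)
      obtain ⟨b', hb'0, hspan', hint', hdm'⟩ := project hb0 hH hH0 hHb
      refine ⟨b', hb'0, ?_, ?_, hdm.trans hdm'⟩
      · intro i
        refine Submodule.span_le.2 ?_ (hspan' i)
        rintro _ ⟨j, rfl⟩
        exact hspan j
      · intro E _ _ φ P c hreg
        exact hint E φ P c (hint' E φ P c hreg)
  obtain ⟨b, hb0, hspan, hint, hdm⟩ := hdesc (Nat.card τ - (l + 1)) (l + 1) (by omega) le_rfl
  refine ⟨b, hb0, hspan, hint, le_antisymm ((dm_span_le ha hspan).trans hdim.le) hdm, ?_⟩
  intro e H hH hHb
  by_contra hH0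
  obtain ⟨b', hb'0, -, -, hdm'⟩ := project hb0 hH hH0 hHb
  have h1 := dm_fin_le hb'0 (K := K)
  have h2 : ((l : ℕ) : ℕ∞) + 1 ≤ l := (add_le_add (hdm.trans hdm') le_rfl).trans h1
  norm_cast at h2
  omega

end Run7.h546
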