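import Pool.Agent.Run7.h546.Engine
import Pool.Agent.Run7.h546.NN
import Pool.Agent.Run7.h546.Conj

/-!
The orbits under the twists: they are all proportional (they come from the projective space).
-/

set_option autoImplicit false

namespace Run7.h546

open MvPolynomial FF

variable {K σ E : Type} [Field K] [Field E] [Algebra K E]

theorem dm_le_alg {ι L : Type} [Field L] [Algebra K L] {x : ι → L} {S : Set L}
    (h : ∀ i, IsAlgebraic (IntermediateField.adjoin K S) (x i)) : dm K x ≤ td K S := by
  apply td_le_of_alg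
  rintro _ ⟨p, rfl⟩
  change IsAlgebraic _ (x p.1 / x p.2)
  rw [div_eq_mul_inv]
  exact (h _).mul (h _).inv

theorem td_red (P : Place K E) (F : IntermediateField K E) (h : Triv P F) :
    td K (P.red '' (F : Set E)) = td K (F : Set E) := by
  have h1 : P.red '' (F : Set E) = (resF P F h) '' Set.univ := by
    ext y
    constructor
    · rintro ⟨f, hf, rfl⟩
      exact ⟨⟨f, hf⟩, trivial, rfl⟩
    · rintro ⟨f, -, rfl⟩
      exact ⟨f, f.2, rfl⟩
  have h2 : (F : Set E) = F.val '' Set.univ := by
    ext y
    simp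
  rw [h1, td_image]
  conv_rhs => rw [h2]
  rw [td_image]

theorem mobius_t (P : Place K E) {t : E} (h0 : t ≠ 0) (h1 : t - 1 ≠ 0)
    (hg : P.ord ((t - 1) / t) ≠ 0) :
    (0 < P.ord ((t - 1) / t) ∧ 0 < P.ord (t - 1)) ∨ (P.ord ((t - 1) / t) < 0 ∧ 0 < P.ord t) := by
  rw [P.ord_div h1 h0] at hg ⊢
  have h2 : t + -(t - 1) = 1 := by ring
  rcases lt_or_gt_of_ne hg with h | h
  · right
    refine ⟨h, ?_⟩
    have h3 : P.ord (-(t - 1)) < P.ord t := by
      rw [P.ord_neg]; omega
    have h4 := (P.ord_add_eq (neg_ne_zero.2 h1) h0 h3).2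
    rw [add_comm, h2, P.ord_one, P.ord_neg] at h4
    omega
  · left
    refine ⟨h, ?_⟩
    have h3 : P.ord t < P.ord (-(t - 1)) := by
      rw [P.ord_neg]; omega
    have h4 := (P.ord_add_eq h0 (neg_ne_zero.2 h1) h3).2
    rw [h2, P.ord_one] at h4
    omega

theorem orb_engine [CharZero K] [Finite σ] {d l : ℕ} {G : MvPolynomial σ K} {η : K}
    (hd : 0 < d) (hG : G.IsHomogeneous d) (hη : IsPrimitiveRoot η d)
    [Algebra.EssFiniteType K E] (hE : Algebra.trdeg K E = l + 1)
    {z t u : E} {a b : σ → E} (hb0 : b ≠ 0)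
    (hint : ∀ (P : Place K E) (c : E), (∀ j, P.Reg (b j / c)) → ∀ j, P.Reg (a j / c))
    (hspan : ∀ j, b j ∈ Submodule.span K (Set.range a))
    (htd : td K ({z} ∪ Set.range a) ≤ l)
    (ht : ((l + 1 : ℕ) : ℕ∞) ≤ td K (insert t ({z} ∪ Set.range a)))
    (hz : z ^ d = - aeval a G)
    (hu : u ^ d = - aeval (fun j => b j + t * (a j - b j)) G)
    (hdim : dm K (pt z a) = l) (hdimb : dm K b = l) {γ : Cyc K (Option σ)}
    (hγ : ∀ (M : Type) [Field M] [Algebra K M] (u' : M) (b' : σ → M), locus K b' = locus K b →
      u' ^ d = - aeval b' G → Orb d η (cls K (pt u' b')) = γ) :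
    ∃ N₁ N₂ : ℤ, 0 < N₁ ∧ 0 < N₂ ∧
      N₁ • Orb d η (cls K (pt z a)) - N₂ • γ ∈ Sat (cyc d G) l := by
  have hηd : η ^ d = 1 := hη.pow_eq_one
  set κ := IntermediateField.adjoin K ({z} ∪ Set.range a) with hκ
  have hzκ : z ∈ κ := IntermediateField.subset_adjoin K _ (Or.inl rfl)
  have haκ : ∀ j, a j ∈ κ := fun j => IntermediateField.subset_adjoin K _ (Or.inr ⟨j, rfl⟩)
  have hbκ : ∀ j, b j ∈ κ := by
    intro j
    have h1 : Submodule.span K (Set.range a) ≤ Subalgebra.toSubmodule κ.toSubalgebra := by
      rw [Submodule.span_le]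
      rintro _ ⟨i, rfl⟩
      exact haκ i
    exact h1 (hspan j)
  have hptκ : ∀ o, pt z a o ∈ κ := by
    intro o
    cases o with
    | none => exact hzκ
    | some j => exact haκ j
  have htd' : td K (κ : Set E) ≤ l := by
    rw [hκ, td_adjoin]
    exact htd
  have htalg : ¬ IsAlgebraic κ t := by
    intro h
    have h1 : td K (insert t ({z} ∪ Set.range a)) ≤ td K ({z} ∪ Set.range a) := by
      apply td_le_of_alg
      rintro x (rfl | hx)
      · exact h
      · exact isAlgebraic_of_mem _ (IntermediateField.subset_adjoin K _ hx)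
    have h2 := ht.trans (h1.trans htd)
    norm_cast at h2
    omega
  have hκl : Algebra.trdeg K κ = l := by
    rw [trdeg_iff]
    apply le_antisymm htd'
    rw [← hdim, hκ, td_adjoin]
    exact dm_le (S := {z} ∪ Set.range a) hptκ le_rfl
  have hFF : IsFF κ E := isFF_of hE hκl
  have ht0 : t ≠ 0 := by
    rintro rfl
    exact htalg isAlgebraic_zero
  have ht1 : t - 1 ≠ 0 := by
    intro h
    apply htalg
    have : t = 1 := by linear_combination h
    rw [this]
    exact isAlgebraic_one
  have ht1alg : ¬ IsAlgebraic κ (t - 1) := by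
    intro h
    apply htalg
    have := h.add (isAlgebraic_one (R := κ))
    rwa [sub_add_cancel] at this
  obtain ⟨j0, hj0⟩ : ∃ j, b j ≠ 0 := by
    by_contra h
    push Not at h
    exact hb0 (funext h)
  set A : σ → E := fun j => b j + t * (a j - b j) with hA
  have hy : pt u A ≠ 0 := by
    intro h
    have h1 : b j0 + t * (a j0 - b j0) = 0 := congrFun h (some j0)
    by_cases h2 : a j0 - b j0 = 0
    · rw [h2, mul_zero, add_zero] at h1
      exact hj0 h1
    · apply htalg
      have h3 : t = - b j0 / (a j0 - b j0) := by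
        field_simp
        linear_combination h1
      rw [h3]
      exact isAlgebraic_of_mem _ (div_mem (neg_mem (hbκ _)) (sub_mem (haκ _) (hbκ _)))
  have hon : aeval (pt u A) (cyc d G) = 0 := by
    rw [aeval_cyc, hu]
    ring
  -- local analysis
  have hloc : ∀ (P : Place K E) (τ : K), P.Reg t → P.red t = algebraMap K P.RF τ →
      (τ = 0 ∨ τ = 1) → ∀ (c : E), (∀ j, P.Reg (b j / c)) → P.red (b j0 / c) ≠ 0 ∨
        (∃ j, P.red (b j / c) ≠ 0) →
      ∃ (U : P.RF), U ^ d = - aeval (fun j => P.red ((b j + algebraMap K E τ * (a j - b j)) / c)) G ∧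
        Prop' (centre P (pt u A))
          (pt U (fun j => P.red ((b j + algebraMap K E τ * (a j - b j)) / c))) := by
    intro P τ htr htred hτ c hbc hex
    obtain ⟨j1, hj1⟩ : ∃ j, P.red (b j / c) ≠ 0 := by
      rcases hex with h | h
      · exact ⟨j0, h⟩
      · exact h
    have hac := hint P c hbc
    have hdc : ∀ j, P.Reg ((a j - b j) / c) := by
      intro j
      rw [sub_div, sub_eq_add_neg]
      exact P.reg_add (hac j) (P.reg_neg (hbc j))
    have hAc : ∀ j, P.Reg (A j / c) ∧
        P.red (A j / c) = P.red ((b j + algebraMap K E τ * (a j - b j)) / c) := by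
      intro j
      have h1 : A j / c = b j / c + t * ((a j - b j) / c) := by
        rw [hA]
        simp only
        ring
      have h2 : (b j + algebraMap K E τ * (a j - b j)) / c =
          b j / c + algebraMap K E τ * ((a j - b j) / c) := by ring
      have h3 := P.reg_mul htr (hdc j)
      have h4 := P.reg_mul (P.reg_const τ) (hdc j)
      rw [h1, h2, P.red_add (hbc j) h3, P.red_add (hbc j) h4, P.red_mul htr (hdc j),
        P.red_mul (P.reg_const τ) (hdc j), htred]
      exact ⟨P.reg_add (hbc j) h3, rfl⟩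
    have hc0 : c ≠ 0 := by
      rintro rfl
      rw [div_zero, P.red_zero] at hj1
      exact hj1 rfl
    -- the coordinate `u`
    have huc : (u / c) ^ d = - aeval (fun j => A j / c) G := by
      have h1 : (fun j => A j / c) = fun j => c⁻¹ * A j := by
        funext j
        rw [div_eq_inv_mul]
      rw [h1, aeval_smul hG, div_pow, hu, inv_pow]
      field_simp
    have hGreg := reg_aeval P (fun j => (hAc j).1) G
    have hucr : P.Reg (u / c) := by
      by_cases h : u / c = 0
      · exact Or.inl h
      · right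
        have h1 : P.Reg ((u / c) ^ d) := by
          rw [huc]
          exact P.reg_neg hGreg.1
        have h2 := (P.reg_iff (pow_ne_zero d h)).1 h1
        rw [P.ord_pow] at h2
        by_contra hneg
        push Not at hneg
        have h3 : (d : ℤ) * P.ord (u / c) < 0 := mul_neg_of_pos_of_neg (by exact_mod_cast hd) hneg
        omega
    have hred : P.red (u / c) ^ d =
        - aeval (fun j => P.red ((b j + algebraMap K E τ * (a j - b j)) / c)) G := by
      rw [← P.red_pow hucr, huc, P.red_neg hGreg.1, hGreg.2]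
      congr 3
      funext j
      exact (hAc j).2
    refine ⟨P.red (u / c), hred, ?_⟩
    have hregall : ∀ o, P.Reg (pt u A o / c) := by
      intro o
      cases o with
      | none => exact hucr
      | some j => exact (hAc j).1
    obtain ⟨j2, hj2⟩ : ∃ j, P.red ((b j + algebraMap K E τ * (a j - b j)) / c) ≠ 0 := by
      rcases hτ with rfl | rfl
      · refine ⟨j1, ?_⟩
        rw [map_zero, zero_mul, add_zero]
        exact hj1
      · by_contra hcon
        push Not at hcon
        have h1 : ∀ j, P.red (a j / c) = 0 := by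
          intro j
          have := hcon j
          rwa [map_one, one_mul, add_sub_cancel] at this
        have h2 : ∀ y ∈ Submodule.span K (Set.range a), P.Reg (y / c) ∧ P.red (y / c) = 0 := by
          intro y hy
          induction hy using Submodule.span_induction with
          | mem y hy =>
            obtain ⟨j, rfl⟩ := hy
            exact ⟨hac j, h1 j⟩
          | zero =>
            rw [zero_div]
            exact ⟨P.reg_zero, P.red_zero⟩
          | add y z _ _ hy hz =>
            rw [add_div, P.red_add hy.1 hz.1, hy.2, hz.2, add_zero]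
            exact ⟨P.reg_add hy.1 hz.1, rfl⟩
          | smul k y _ hy =>
            rw [Algebra.smul_def, mul_div_assoc, P.red_mul (P.reg_const k) hy.1, hy.2, mul_zero]
            exact ⟨P.reg_mul (P.reg_const k) hy.1, rfl⟩
        exact hj1 (h2 _ (hspan j1)).2
    have hprop := centre_prop P (pt u A) hregall (i0 := some j2) (by
      change P.red (A j2 / c) ≠ 0
      rw [(hAc j2).2]
      exact hj2)
    have h6 : (fun o => P.red (pt u A o / c)) = pt (P.red (u / c))
        (fun j => P.red ((b j + algebraMap K E τ * (a j - b j)) / c)) := by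
      funext o
      cases o with
      | none => rfl
      | some j => exact (hAc j).2
    rw [h6] at hprop
    exact hprop
  have hqκ : ∀ (τ : K) (j : σ), b j + algebraMap K E τ * (a j - b j) ∈ κ := fun τ j =>
    add_mem (hbκ j) (mul_mem (IntermediateField.algebraMap_mem _ _) (sub_mem (haκ j) (hbκ j)))
  -- non trivial places do not contribute
  have hnt : ∀ (P : Place K E) (τ : K), P.Reg t → P.red t = algebraMap K P.RF τ →
      (τ = 0 ∨ τ = 1) → HasDim K (centre P (pt u A)) l → Triv P κ := by
    intro P τ htr htred hτ hdimP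
    by_contra hnt
    obtain ⟨k, hk, hreg⟩ := exists_min P hb0
    obtain ⟨U, hU, hprop⟩ := hloc P τ htr htred hτ (b k) hreg (Or.inr ⟨k, by
      rw [div_self hk, P.red_one]
      exact one_ne_zero⟩)
    have h1 := abh P κ htd' hnt
    have hqm : ∀ j, P.red ((b j + algebraMap K E τ * (a j - b j)) / b k) ∈
        IntermediateField.adjoin K (P.red '' (κ : Set E)) := fun j =>
      IntermediateField.subset_adjoin K _ ⟨_, div_mem (hqκ τ j) (hbκ k), rfl⟩
    have h2 : dm K (pt U (fun j => P.red ((b j + algebraMap K E τ * (a j - b j)) / b k))) ≤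
        td K (P.red '' (κ : Set E)) := by
      apply dm_le_alg
      intro o
      cases o with
      | none =>
        have h3 : IsAlgebraic (IntermediateField.adjoin K (P.red '' (κ : Set E))) (U ^ d) := by
          rw [hU]
          exact isAlgebraic_of_mem _ (neg_mem (aeval_mem _ hqm G))
        exact h3.of_pow hd
      | some j => exact isAlgebraic_of_mem _ (hqm j)
    rw [hasDim_iff, hprop.dm] at hdimP
    rw [hdimP] at h2
    have h3 : ((l : ℕ) : ℕ∞) + 1 ≤ l := (add_le_add h2 le_rfl).trans h1
    norm_cast at h3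
    omega
  -- trivial places
  have htriv : ∀ (P : Place K E) (τ : K), P.Reg t → P.red t = algebraMap K P.RF τ →
      (τ = 0 ∨ τ = 1) → Triv P κ →
      ∃ (U : P.RF), U ^ d = - aeval (fun j => P.red (b j + algebraMap K E τ * (a j - b j))) G ∧
        Prop' (centre P (pt u A))
          (pt U (fun j => P.red (b j + algebraMap K E τ * (a j - b j)))) := by
    intro P τ htr htred hτ htP
    have := hloc P τ htr htred hτ 1 (fun j => by
      rw [div_one]
      exact htP.reg (hbκ j)) (Or.inl (by
      rw [div_one]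
      exact P.red_ne_zero hj0 (htP _ (hbκ j0))))
    simpa only [div_one] using this
  have hcase1 : ∀ (P : Place K E), P.Reg t → P.red t = algebraMap K P.RF 1 → Triv P κ →
      Orb d η (cls K (centre P (pt u A))) = Orb d η (cls K (pt z a)) ∧
      HasDim K (centre P (pt u A)) l := by
    intro P htr htred htP
    obtain ⟨U, hU, hprop⟩ := htriv P 1 htr htred (Or.inr rfl) htP
    have h1 : (fun j => P.red (b j + algebraMap K E 1 * (a j - b j))) = fun j => P.red (a j) := by
      funext j
      rw [map_one, one_mul, add_sub_cancel]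
    rw [h1] at hU hprop
    have hzr : P.Reg z := htP.reg hzκ
    have h2 : (P.red z) ^ d = - aeval (fun j => P.red (a j)) G := by
      rw [← P.red_pow hzr, hz]
      have h3 := reg_aeval P (fun j => htP.reg (haκ j)) G
      rw [P.red_neg h3.1, h3.2]
    obtain ⟨ζ, hζ, hUz⟩ : ∃ ζ : K, ζ ^ d = 1 ∧ U = algebraMap K P.RF ζ * P.red z := by
      by_cases h5 : P.red z = 0
      · refine ⟨1, one_pow d, ?_⟩
        rw [h5, mul_zero]
        rw [← h2, h5, zero_pow hd.ne'] at hU
        exact eq_zero_of_pow_eq_zero hU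
      · have : NeZero d := ⟨hd.ne'⟩
        have h6 : (U / P.red z) ^ d = 1 := by
          rw [div_pow, hU, ← h2, div_self (pow_ne_zero _ h5)]
        obtain ⟨n, -, hn⟩ := (hη.map_of_injective
          (algebraMap K P.RF).injective).eq_pow_of_pow_eq_one h6
        refine ⟨η ^ n, ?_, ?_⟩
        · rw [← pow_mul, mul_comm, pow_mul, hη.pow_eq_one, one_pow]
        · rw [map_pow, hn, div_mul_cancel₀ _ h5]
    have hζ0 : ζ ≠ 0 := by
      rintro rfl
      rw [zero_pow hd.ne'] at hζ
      exact zero_ne_one hζ
    have h7 : pt U (fun j => P.red (a j)) = tw ζ (fun o => P.red (pt z a o)) := by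
      rw [hUz, map_pt, tw_pt]
    rw [h7] at hprop
    constructor
    · rw [cls_prop hprop, Orb_tw hd hη hζ]
      unfold cls
      rw [locus_red P κ htP hptκ]
    · rw [hasDim_iff, hprop.dm, dm_tw hζ0, dm_red P κ htP hptκ, hdim]
  have hcase0 : ∀ (P : Place K E), P.Reg t → P.red t = algebraMap K P.RF 0 → Triv P κ →
      Orb d η (cls K (centre P (pt u A))) = γ ∧ HasDim K (centre P (pt u A)) l := by
    intro P htr htred htP
    obtain ⟨U, hU, hprop⟩ := htriv P 0 htr htred (Or.inl rfl) htP
    have h1 : (fun j => P.red (b j + algebraMap K E 0 * (a j - b j))) = fun j => P.red (b j) := by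
      funext j
      rw [map_zero, zero_mul, add_zero]
    rw [h1] at hU hprop
    constructor
    · rw [cls_prop hprop]
      exact hγ P.RF U _ (locus_red P κ htP hbκ) hU
    · rw [hasDim_iff, hprop.dm]
      apply le_antisymm
      · have hqm : ∀ j, P.red (b j) ∈ IntermediateField.adjoin K (P.red '' (κ : Set E)) := fun j =>
          IntermediateField.subset_adjoin K _ ⟨_, hbκ j, rfl⟩
        refine le_trans (dm_le_alg (S := P.red '' (κ : Set E)) fun o => ?_) ?_
        · cases o with
          | none =>
            have h3 : IsAlgebraic (IntermediateField.adjoin K (P.red '' (κ : Set E))) (U ^ d) := by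
              rw [hU]
              exact isAlgebraic_of_mem _ (neg_mem (aeval_mem _ hqm G))
            exact h3.of_pow hd
          | some j => exact isAlgebraic_of_mem _ (hqm j)
        · rw [td_red P κ htP]
          exact htd'
      · rw [← hdimb, ← dm_red P κ htP hbκ]
        unfold dm
        apply td_mono
        rintro _ ⟨p, rfl⟩
        exact ⟨(some p.1, some p.2), rfl⟩
  have hr1 : ∀ P : Place K E, 0 < P.ord (t - 1) → P.Reg t ∧ P.red t = algebraMap K P.RF 1 := by
    intro P h
    have h1 : P.Reg (t - 1) := Or.inr h.le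
    have h2 : t = (t - 1) + 1 := by ring
    rw [h2, P.red_add h1 P.reg_one, (P.red_eq_zero_iff h1).2 (Or.inr h), zero_add, P.red_one,
      map_one]
    exact ⟨P.reg_add h1 P.reg_one, rfl⟩
  have hr0 : ∀ P : Place K E, 0 < P.ord t → P.Reg t ∧ P.red t = algebraMap K P.RF 0 := by
    intro P h
    have h1 : P.Reg t := Or.inr h.le
    rw [(P.red_eq_zero_iff h1).2 (Or.inr h), map_zero]
    exact ⟨h1, rfl⟩
  obtain ⟨N₁, N₂, -, -, h1, h2, h3⟩ := divisor_sum hE hy ((t - 1) / t) (Orb d η)
    (Sat (cyc d G) l) (Orb d η (cls K (pt z a))) γ (by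
      intro P hdimP hg
      rcases mobius_t P ht0 ht1 hg with ⟨h4, h5⟩ | ⟨h4, h5⟩
      · left
        obtain ⟨h6, h7⟩ := hr1 P h5
        exact ⟨h4, (hcase1 P h6 h7 (hnt P 1 h6 h7 (Or.inr rfl) hdimP)).1⟩
      · right; left
        obtain ⟨h6, h7⟩ := hr0 P h5
        exact ⟨h4, (hcase0 P h6 h7 (hnt P 0 h6 h7 (Or.inl rfl) hdimP)).1⟩)
  refine ⟨N₁, N₂, h2 ?_, h3 ?_, ?_⟩
  · obtain ⟨P, hP1, hP2⟩ := exists_zero_place κ ht1alg
    obtain ⟨h6, h7⟩ := hr1 P hP2
    obtain ⟨h8, h9⟩ := hcase1 P h6 h7 hP1
    refine ⟨P, h9, ?_, h8⟩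
    have h10 : P.ord t = 0 := by
      have h11 : P.red t ≠ 0 := by
        rw [h7, map_one]
        exact one_ne_zero
      exact (inv_of_red_ne h11).2.1
    rw [P.ord_div ht1 ht0, h10]
    omega
  · obtain ⟨P, hP1, hP2⟩ := exists_zero_place κ htalg
    obtain ⟨h6, h7⟩ := hr0 P hP2
    obtain ⟨h8, h9⟩ := hcase0 P h6 h7 hP1
    refine ⟨P, h9, ?_, h8⟩
    have h10 : P.ord (t - 1) = 0 := by
      have h11 : P.red (t - 1) ≠ 0 := by
        rw [P.red_sub h6 P.reg_one, h7, map_zero, P.red_one, zero_sub]
        exact neg_ne_zero.2 one_ne_zero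
      exact (inv_of_red_ne h11).2.1
    rw [P.ord_div ht1 ht0, h10]
    omega
  · have h4 : Orb d η (divisorCycle l (pt u A) ((t - 1) / t)) ∈ Sat (cyc d G) l := by
      apply Orb_Sat hd hηd
      apply ratZero_le_Sat
      exact AddSubgroup.subset_closure ⟨E, inferInstance, inferInstance, pt u A, _, inferInstance,
        hE, hy, hon, div_ne_zero ht1 ht0, rfl⟩
    have h5 := sub_mem h4 h1
    rwa [sub_sub_cancel] at h5

end Run7.h546
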