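import Pool.Agent.Run7.h546.Pt
import Pool.Agent.Helper386.D5V.Helper386_FF_Div

/-!
Places: residues, trivial subfields, the Abhyankar inequality, finiteness.
-/

set_option autoImplicit false

namespace Run7.h546

open MvPolynomial FF

variable {K E : Type} [Field K] [Field E] [Algebra K E]

theorem reg_aeval (P : Place K E) {τ : Type} {y : τ → E} (hy : ∀ i, P.Reg (y i))
    (p : MvPolynomial τ K) :
    P.Reg (aeval y p) ∧ P.red (aeval y p) = aeval (fun i => P.red (y i)) p := by
  induction p using MvPolynomial.induction_on with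
  | C a =>
    rw [algHom_C, algHom_C]
    exact ⟨P.reg_const a, rfl⟩
  | add p q hp hq =>
    rw [map_add, map_add, P.red_add hp.1 hq.1, hp.2, hq.2]
    exact ⟨P.reg_add hp.1 hq.1, rfl⟩
  | mul_X p i hp =>
    rw [map_mul, map_mul, aeval_X, aeval_X, P.red_mul hp.1 (hy i), hp.2]
    exact ⟨P.reg_mul hp.1 (hy i), rfl⟩

/-- `P` is trivial on `S`. -/
def Triv (P : Place K E) (S : Set E) : Prop := ∀ f ∈ S, P.ord f = 0

theorem Triv.reg {P : Place K E} {S : Set E} (h : Triv P S) {f : E} (hf : f ∈ S) : P.Reg f :=
  Or.inr (h f hf).ge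

/-- Reduction on a subfield on which `P` is trivial. -/
noncomputable def resF (P : Place K E) (F : IntermediateField K E) (h : Triv P F) :
    F →ₐ[K] P.RF where
  toFun f := P.red f
  map_one' := by rw [IntermediateField.coe_one, P.red_one]
  map_mul' a b := by
    rw [IntermediateField.coe_mul, P.red_mul (h.reg a.2) (h.reg b.2)]
  map_zero' := by rw [IntermediateField.coe_zero, P.red_zero]
  map_add' a b := by
    rw [IntermediateField.coe_add, P.red_add (h.reg a.2) (h.reg b.2)]
  commutes' c := rfl

theorem locus_red {ι : Type} (P : Place K E) (F : IntermediateField K E) (h : Triv P F)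
    {x : ι → E} (hx : ∀ i, x i ∈ F) : locus K (fun i => P.red (x i)) = locus K x := by
  have h1 := locus_map (resF P F h) (fun i => (⟨x i, hx i⟩ : F))
  have h2 := locus_map F.val (fun i => (⟨x i, hx i⟩ : F))
  exact h1.trans h2.symm

theorem dm_red {ι : Type} (P : Place K E) (F : IntermediateField K E) (h : Triv P F)
    {x : ι → E} (hx : ∀ i, x i ∈ F) : dm K (fun i => P.red (x i)) = dm K x := by
  have h1 := dm_map (resF P F h) (fun i => (⟨x i, hx i⟩ : F))
  have h2 := dm_map F.val (fun i => (⟨x i, hx i⟩ : F))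
  exact h1.trans h2.symm

/-- A place of `E` over `K` that is trivial on `F`, as a place over `F`. -/
def ovr (P : Place K E) (F : IntermediateField K E) (h : Triv P F) : Place F E where
  ord := P.ord
  ord_zero := P.ord_zero
  ord_mul := P.ord_mul
  ord_add := P.ord_add
  ord_const := fun {c} _ => h _ c.2
  surj := P.surj

/-- A place over `F` as a place over `K`. -/
def restr (F : IntermediateField K E) (Q : Place F E) : Place K E where
  ord := Q.ord
  ord_zero := Q.ord_zero
  ord_mul := Q.ord_mul
  ord_add := Q.ord_add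
  ord_const := fun {c} hc => by
    have h1 : algebraMap K F c ≠ 0 := by
      simpa using hc
    have := Q.ord_const h1
    rwa [← IsScalarTower.algebraMap_apply] at this
  surj := Q.surj

theorem triv_restr (F : IntermediateField K E) (Q : Place F E) : Triv (restr F Q) F := by
  intro f hf
  by_cases h0 : f = 0
  · rw [h0]; exact Q.ord_zero
  · have h1 : (⟨f, hf⟩ : F) ≠ 0 := fun h => h0 (congrArg Subtype.val h)
    exact Q.ord_const h1

theorem restr_ovr (P : Place K E) (F : IntermediateField K E) (h : Triv P F) :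
    restr F (ovr P F h) = P := rfl

theorem indep_of_red (P : Place K E) {τ : Type} {y : τ → E} (hy : ∀ i, P.Reg (y i))
    (h : AlgebraicIndependent K (fun i => P.red (y i))) :
    AlgebraicIndependent K y ∧ Triv P (IntermediateField.adjoin K (Set.range y)) := by
  rw [algebraicIndependent_iff] at h
  have h1 : ∀ p : MvPolynomial τ K, p ≠ 0 → P.red (aeval y p) ≠ 0 := by
    intro p hp h0
    rw [(reg_aeval P hy p).2] at h0
    exact hp (h p h0)
  have h2 : ∀ p : MvPolynomial τ K, P.ord (aeval y p) = 0 := by
    intro p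
    by_cases hp : p = 0
    · rw [hp, map_zero, P.ord_zero]
    · have h3 := h1 p hp
      rw [Ne, P.red_eq_zero_iff (reg_aeval P hy p).1] at h3
      push Not at h3
      have h4 := (P.reg_iff h3.1).1 (reg_aeval P hy p).1
      omega
  constructor
  · rw [algebraicIndependent_iff]
    intro p hp
    by_contra hne
    apply h1 p hne
    rw [hp, P.red_zero]
  · intro f hf
    obtain ⟨r, s, rfl⟩ := (IntermediateField.mem_adjoin_range_iff K y f).1 hf
    by_cases hr : aeval y r = 0
    · rw [hr, zero_div, P.ord_zero]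
    by_cases hs : aeval y s = 0
    · rw [hs, div_zero, P.ord_zero]
    rw [P.ord_div hr hs, h2, h2, sub_zero]

theorem triv_of_alg (P : Place K E) (F : IntermediateField K E) (h : Triv P F) {f : E}
    (hf : IsAlgebraic F f) : P.ord f = 0 := by
  by_cases h0 : f = 0
  · rw [h0, P.ord_zero]
  · exact (ovr P F h).ord_eq_zero_of_isAlgebraic h0 hf

/-- The Abhyankar inequality: if `P` is not trivial on `F`, then the residues of `F` have smaller
transcendence degree. -/
theorem abh (P : Place K E) (F : IntermediateField K E) {n : ℕ} (hF : td K (F : Set E) ≤ n)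
    (hnt : ¬ Triv P F) : td K (P.red '' (F : Set E)) + 1 ≤ n := by
  by_contra hcon
  have h1 : (n : ℕ∞) ≤ td K (P.red '' (F : Set E)) := by
    by_contra h2
    apply hcon
    push Not at h2
    exact Order.add_one_le_of_lt h2
  obtain ⟨I, hI, hind, hc⟩ := le_td_iff.1 h1
  have hne : ∀ i : I, (i : P.RF) ≠ 0 := fun i => by
    have := hind.ne_zero i
    exact this
  choose f hfF hf using fun i : I => hI i.2
  have hreg : ∀ i, P.Reg (f i) := by
    intro i
    by_contra hnr
    apply hne i
    rw [← hf i]
    exact dif_neg hnr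
  have hred : (fun i => P.red (f i)) = fun i : I => (i : P.RF) := funext hf
  have hind' : AlgebraicIndependent K (fun i => P.red (f i)) := by
    rw [hred]
    exact hind
  obtain ⟨h3, h4⟩ := indep_of_red P hreg hind'
  apply hnt
  intro g hg
  apply triv_of_alg P _ h4
  have hIfin : I.Finite := by
    rw [← Set.encard_ne_top_iff, hc]
    exact ENat.natCast_ne_top n
  have : Fintype I := hIfin.fintype
  have hcard : (Fintype.card I : ℕ∞) = n := by
    rw [← hc]
    simp
  have h5 : td K (Set.range f) = n := by
    rw [td_range_of_indep h3, hcard]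
  have hsub : Set.range f ⊆ (F : Set E) := by
    rintro _ ⟨i, rfl⟩
    exact hfF i
  have h6 : (AlgebraicIndependent.matroid K E).closure (Set.range f) =
      (AlgebraicIndependent.matroid K E).closure (F : Set E) := by
    apply Matroid.IsRkFinite.closure_eq_closure_of_subset_of_eRk_ge_eRk
    · exact Matroid.isRkFinite_of_finite _ (Set.finite_range f)
    · exact hsub
    · change td K (F : Set E) ≤ td K (Set.range f)
      rw [h5]
      exact hF
  rw [← mem_closure_iff, h6]
  exact Matroid.subset_closure _ _ (Set.subset_univ _) hg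

section centre

variable {ι : Type}

theorem Prop'.symm {L : Type} [Field L] {x y : ι → L} (h : Prop' x y) : Prop' y x := by
  obtain ⟨c, hc, h⟩ := h
  refine ⟨c⁻¹, inv_ne_zero hc, fun i => ?_⟩
  rw [h i, inv_mul_cancel_left₀ hc]

theorem Prop'.trans {L : Type} [Field L] {x y z : ι → L} (h : Prop' x y) (h' : Prop' y z) :
    Prop' x z := by
  obtain ⟨c, hc, h⟩ := h
  obtain ⟨c', hc', h'⟩ := h'
  refine ⟨c * c', mul_ne_zero hc hc', fun i => ?_⟩
  rw [h i, h' i, mul_assoc]

/-- The centre, computed with any normalising factor. -/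
theorem centre_prop (P : Place K E) (x : ι → E) {c : E} (hreg : ∀ i, P.Reg (x i / c))
    {i0 : ι} (h0 : P.red (x i0 / c) ≠ 0) :
    Prop' (centre P x) (fun i => P.red (x i / c)) := by
  have hxc : x i0 / c ≠ 0 ∧ P.ord (x i0 / c) ≤ 0 := by
    have := h0
    rw [Ne, P.red_eq_zero_iff (hreg i0)] at this
    push Not at this
    exact this
  have hc : c ≠ 0 := by
    rintro rfl
    exact hxc.1 (div_zero _)
  have hx0 : x i0 ≠ 0 := by
    intro h
    exact hxc.1 (by rw [h, zero_div])
  have hord : P.ord (x i0 / c) = 0 := le_antisymm hxc.2 ((P.reg_iff hxc.1).1 (hreg i0))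
  have hinv : P.Reg (c / x i0) := by
    right
    rw [← inv_div, P.ord_inv, hord, neg_zero]
  have hex : ∃ j, x j ≠ 0 ∧ ∀ i, P.Reg (x i / x j) := by
    refine ⟨i0, hx0, fun i => ?_⟩
    have : x i / x i0 = (x i / c) * (c / x i0) := by
      rw [div_mul_div_cancel₀ hc]
    rw [this]
    exact P.reg_mul (hreg i) hinv
  have hcen : centre P x = fun i => P.red (x i / x hex.choose) := by
    unfold centre
    rw [dif_pos hex]
  obtain ⟨hj0, hj⟩ := hex.choose_spec
  set j := hex.choose with hjdef
  have h1 : P.Reg (c / x j) := by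
    have : c / x j = (x i0 / x j) * (c / x i0) := by
      rw [mul_comm, div_mul_div_cancel₀ hx0]
    rw [this]
    exact P.reg_mul (hj i0) hinv
  refine ⟨P.red (c / x j), ?_, fun i => ?_⟩
  · intro h2
    have h3 : (x j / c) * (c / x j) = 1 := by
      rw [div_mul_div_cancel₀ hc, div_self hj0]
    have h4 := P.red_mul (hreg j) h1
    rw [h3, P.red_one, h2, mul_zero] at h4
    exact one_ne_zero h4
  · rw [hcen]
    change P.red (x i / x j) = _
    rw [← P.red_mul h1 (hreg i)]
    congr 1
    rw [mul_comm, div_mul_div_cancel₀ hc]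

theorem exists_min [Finite ι] (P : Place K E) {x : ι → E} (hx : x ≠ 0) :
    ∃ j, x j ≠ 0 ∧ ∀ i, P.Reg (x i / x j) := by
  classical
  cases nonempty_fintype ι
  have hne : (Finset.univ.filter fun i => x i ≠ 0).Nonempty := by
    by_contra h
    apply hx
    funext i
    by_contra hi
    apply h
    exact ⟨i, by simpa using hi⟩
  obtain ⟨j, hj, hmin⟩ := Finset.exists_min_image _ (fun i => P.ord (x i)) hne
  have hj0 : x j ≠ 0 := by simpa using hj
  refine ⟨j, hj0, fun i => ?_⟩
  by_cases hi : x i = 0
  · left
    rw [hi, zero_div]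
  · right
    rw [P.ord_div hi hj0]
    have := hmin i (by simpa using hi)
    omega

theorem centre_ne_zero [Finite ι] (P : Place K E) {x : ι → E} (hx : x ≠ 0) : centre P x ≠ 0 := by
  obtain ⟨j, hj, hreg⟩ := exists_min P hx
  have h1 : P.red (x j / x j) ≠ 0 := by
    rw [div_self hj, P.red_one]
    exact one_ne_zero
  obtain ⟨c, hc, h2⟩ := centre_prop P x hreg h1
  intro h0
  have h3 := h2 j
  rw [h0] at h3
  exact mul_ne_zero hc h1 h3.symm

/-- The centre of a point of a hypersurface lies on it. -/
theorem centre_on [Finite ι] (P : Place K E) {x : ι → E} (hx : x ≠ 0) {F : MvPolynomial ι K} {n : ℕ}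
    (hF : F.IsHomogeneous n) (h : aeval x F = 0) : aeval (centre P x) F = 0 := by
  obtain ⟨j, hj, hreg⟩ := exists_min P hx
  have h1 : P.red (x j / x j) ≠ 0 := by
    rw [div_self hj, P.red_one]
    exact one_ne_zero
  obtain ⟨c, hc, h2⟩ := centre_prop P x hreg h1
  have h3 : centre P x = fun i => c * P.red (x i / x j) := funext h2
  rw [h3, aeval_smul hF, ← (reg_aeval P hreg F).2]
  have h4 : (fun i => x i / x j) = fun i => (x j)⁻¹ * x i := by
    funext i
    rw [div_eq_inv_mul]
  rw [h4, aeval_smul hF, h, mul_zero, P.red_zero, mul_zero]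

theorem isFF_of {F : IntermediateField K E} {l : ℕ} [Algebra.EssFiniteType K E]
    (hE : Algebra.trdeg K E = l + 1) (hF : Algebra.trdeg K F = l) : IsFF F E := by
  constructor
  · exact Algebra.EssFiniteType.of_comp K F E
  · have h := trdeg_add_eq K F (A := E)
    rw [hE, hF] at h
    have h1 : Algebra.trdeg F E < Cardinal.aleph0 := by
      refine lt_of_le_of_lt (b := (l : Cardinal) + 1) ?_ ?_
      · rw [← h]
        exact self_le_add_left _ _
      · exact_mod_cast Cardinal.natCast_lt_aleph0 (n := l + 1)
    obtain ⟨n, hn⟩ := Cardinal.lt_aleph0.1 h1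
    rw [hn] at h ⊢
    norm_cast at h ⊢
    omega

/-- The finitely many subfields of which one is trivial for every place with `l`-dimensional
centre. -/
theorem chart_data [Finite ι] {l : ℕ} [Algebra.EssFiniteType K E]
    (hE : Algebra.trdeg K E = l + 1) {x : ι → E} (hx : x ≠ 0) :
    ∃ Φ : Set (IntermediateField K E), Φ.Finite ∧ (∀ F ∈ Φ, IsFF F E) ∧
      ∀ P : Place K E, dm K (centre P x) = l → ∃ F ∈ Φ, Triv P F ∧
        ∀ f ∈ F, P.red f ∈ ratios K (centre P x) := by
  classical
  let fld : ι × Set ι → IntermediateField K E := fun q =>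
    IntermediateField.adjoin K (Set.range fun i : q.2 => x i / x q.1)
  refine ⟨{F | IsFF F E ∧ F ∈ Set.range fld}, (Set.finite_range fld).subset fun F hF => hF.2,
    fun F hF => hF.1, fun P hP => ?_⟩
  obtain ⟨j, hj, hreg⟩ := exists_min P hx
  have h1 : P.red (x j / x j) ≠ 0 := by
    rw [div_self hj, P.red_one]
    exact one_ne_zero
  have hprop := centre_prop P x hreg h1
  rw [hprop.dm, dm_chart (j := j) h1] at hP
  have h2 : (fun i => P.red (x i / x j) / P.red (x j / x j)) = fun i => P.red (x i / x j) := by
    funext i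
    rw [div_self hj, P.red_one, div_one]
  rw [h2] at hP
  obtain ⟨I, hI, hind, hc⟩ := le_td_iff.1 hP.ge
  obtain ⟨T, hT, hbij⟩ := Set.exists_subset_bijOn ((fun i => P.red (x i / x j)) ⁻¹' I)
    (fun i => P.red (x i / x j))
  rw [Set.image_preimage_eq_of_subset hI] at hbij
  have hind' : AlgebraicIndependent K (fun i : T => P.red (x i / x j)) := by
    have h3 : AlgebraicIndependent K (fun i : I => (i : P.RF)) := hind
    exact h3.comp (fun i : T => (⟨P.red (x i / x j), hbij.mapsTo i.2⟩ : I)) (fun a b hab =>
      Subtype.ext (hbij.injOn a.2 b.2 (congrArg Subtype.val hab)))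
  obtain ⟨h4, h5⟩ := indep_of_red P (fun i : T => hreg i) hind'
  have hTfin : Fintype T := Fintype.ofFinite T
  have hcard : (Fintype.card T : ℕ∞) = l := by
    rw [← hc, ← hbij.image_eq, hbij.injOn.encard_image]
    simp
  have hcard' : Fintype.card T = l := by exact_mod_cast hcard
  have h6 : Algebra.trdeg K (fld (j, T)) = l := by
    rw [trdeg_iff, td_adjoin, td_range_of_indep h4, hcard]
  refine ⟨fld (j, T), ⟨isFF_of hE h6, ⟨(j, T), rfl⟩⟩, h5, ?_⟩
  intro f hf
  have h7 : ratios K (centre P x) = ratios K (fun i => P.red (x i / x j)) := by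
    obtain ⟨c, hc, h⟩ := hprop
    have : centre P x = fun i => c * P.red (x i / x j) := funext h
    rw [this, ratios_smul c hc]
  rw [h7]
  let R := ratios K (fun i => P.red (x i / x j))
  have h8 : fld (j, T) ≤ ((R.comap (resF P _ h5)).map (fld (j, T)).val) := by
    rw [IntermediateField.adjoin_le_iff]
    rintro _ ⟨i, rfl⟩
    refine ⟨⟨x i / x j, IntermediateField.subset_adjoin K _ ⟨i, rfl⟩⟩, ?_, rfl⟩
    change P.red (x i / x j) ∈ R
    apply IntermediateField.subset_adjoin
    refine ⟨(i, j), ?_⟩
    change P.red (x i / x j) / P.red (x j / x j) = _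
    rw [div_self hj, P.red_one, div_one]
  obtain ⟨g, hg, rfl⟩ := h8 hf
  exact hg

theorem finite_triv [CharZero K] (F : IntermediateField K E) [IsFF F E] (g : E) :
    {P : Place K E | Triv P F ∧ P.ord g ≠ 0}.Finite := by
  have hch : CharZero F := charZero_of_injective_algebraMap (algebraMap K F).injective
  by_cases hg : Transcendental F g
  · obtain ⟨S, hS, -⟩ := zeros hg
    obtain ⟨S', hS', -⟩ := poles hg
    refine ((S.finite_toSet.union S'.finite_toSet).image (restr F)).subset ?_
    rintro P ⟨h1, h2⟩
    refine ⟨ovr P F h1, ?_, rfl⟩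
    rcases lt_or_gt_of_ne h2 with h | h
    · right
      exact (hS' _).2 h
    · left
      exact (hS _).2 h
  · have : {P : Place K E | Triv P F ∧ P.ord g ≠ 0} = ∅ := by
      ext P
      simp only [Set.mem_ofPred_eq, Set.mem_empty_iff_false, iff_false, not_and, not_not]
      intro h
      exact triv_of_alg P F h (by simpa [Transcendental] using hg)
    rw [this]
    exact Set.finite_empty

/-- Only finitely many places contribute to a divisor. -/
theorem finite_support [CharZero K] [Finite ι] {l : ℕ} [Algebra.EssFiniteType K E]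
    (hE : Algebra.trdeg K E = l + 1) {x : ι → E} (hx : x ≠ 0) (g : E) :
    {P : Place K E | HasDim K (centre P x) l ∧ P.ord g ≠ 0}.Finite := by
  obtain ⟨Φ, hΦ, h1, h2⟩ := chart_data hE hx
  refine Set.Finite.subset (s := ⋃ F ∈ Φ, {P : Place K E | Triv P F ∧ P.ord g ≠ 0}) ?_ ?_
  · apply hΦ.biUnion
    intro F hF
    have := h1 F hF
    exact finite_triv F g
  · rintro P ⟨h3, h4⟩
    obtain ⟨F, hF, h5, -⟩ := h2 P (hasDim_iff.1 h3)
    simp only [Set.mem_iUnion, Set.mem_ofPred_eq]
    exact ⟨F, hF, h5, h4⟩

theorem finrank_pos [CharZero K] [Finite ι] {l : ℕ} [Algebra.EssFiniteType K E]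
    (hE : Algebra.trdeg K E = l + 1) {x : ι → E} (hx : x ≠ 0) (P : Place K E)
    (hP : HasDim K (centre P x) l) : 0 < Module.finrank (ratios K (centre P x)) P.RF := by
  obtain ⟨Φ, hΦ, h1, h2⟩ := chart_data hE hx
  obtain ⟨F, hF, h5, h6⟩ := h2 P (hasDim_iff.1 hP)
  have := h1 F hF
  have hch : CharZero F := charZero_of_injective_algebraMap (algebraMap K F).injective
  have hfd : FiniteDimensional F (ovr P F h5).RF := inferInstance
  let ρ : F →+* ratios K (centre P x) :=
    (resF P F h5).toRingHom.codRestrict (ratios K (centre P x)).toSubfield (fun f => h6 f f.2)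
  let a1 : Algebra F (ratios K (centre P x)) := ρ.toAlgebra
  let a2 : Algebra F P.RF := (ovr P F h5).constHom.toAlgebra
  have : IsScalarTower F (ratios K (centre P x)) P.RF := IsScalarTower.of_algebraMap_eq fun f => rfl
  have hfd' : Module.Finite F P.RF := hfd
  have : Module.Finite (ratios K (centre P x)) P.RF := Module.Finite.of_restrictScalars_finite F _ _
  exact Module.finrank_pos

end centre

end Run7.h546
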