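import Mathlib

/-!
Transcendence degrees of subsets of a field extension.
-/

set_option autoImplicit false

open AlgebraicIndependent

namespace Run7.h546

variable {K L : Type} [Field K] [Field L] [Algebra K L]

/-- The transcendence degree over `K` of the field generated by `S`. -/
noncomputable def td (K : Type) {L : Type} [Field K] [Field L] [Algebra K L] (S : Set L) : ℕ∞ :=
  (AlgebraicIndependent.matroid K L).eRk S

theorem td_mono {S T : Set L} (h : S ⊆ T) : td K S ≤ td K T := Matroid.eRk_mono _ h

theorem td_union_le (S T : Set L) : td K (S ∪ T) ≤ td K S + td K T :=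
  Matroid.eRk_union_le_eRk_add_eRk _ _ _

theorem td_le_encard (S : Set L) : td K S ≤ S.encard := Matroid.eRk_le_encard _ _

theorem td_insert_le (a : L) (S : Set L) : td K (insert a S) ≤ td K S + 1 := by
  have h1 := td_union_le (K := K) S {a}
  have h2 := td_le_encard (K := K) ({a} : Set L)
  rw [Set.encard_singleton] at h2
  rw [Set.insert_eq, Set.union_comm]
  exact h1.trans (add_le_add le_rfl h2)

theorem mem_closure_iff {S : Set L} {x : L} :
    x ∈ (AlgebraicIndependent.matroid K L).closure S ↔
      IsAlgebraic (IntermediateField.adjoin K S) x := by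
  rw [matroid_closure_eq, IntermediateField.isAlgebraic_adjoin_iff]
  exact Iff.rfl

theorem td_le_of_alg {S T : Set L}
    (h : ∀ x ∈ T, IsAlgebraic (IntermediateField.adjoin K S) x) : td K T ≤ td K S := by
  have h1 : T ⊆ (AlgebraicIndependent.matroid K L).closure S := fun x hx =>
    mem_closure_iff.2 (h x hx)
  have h2 := td_mono (K := K) h1
  refine h2.trans (le_of_eq ?_)
  exact Matroid.eRk_closure_eq _ _

theorem isAlgebraic_of_mem (F : IntermediateField K L) {x : L} (h : x ∈ F) : IsAlgebraic F x :=
  isAlgebraic_algebraMap (⟨x, h⟩ : F)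

theorem td_adjoin (S : Set L) : td K (IntermediateField.adjoin K S : Set L) = td K S := by
  apply le_antisymm
  · exact td_le_of_alg fun x hx => isAlgebraic_of_mem _ hx
  · exact td_mono (IntermediateField.subset_adjoin K S)

theorem td_le_of_subset_adjoin {S T : Set L} (h : T ⊆ IntermediateField.adjoin K S) :
    td K T ≤ td K S := (td_mono h).trans (td_adjoin S).le

theorem le_td_iff {S : Set L} {n : ℕ∞} :
    n ≤ td K S ↔ ∃ I ⊆ S, AlgebraicIndepOn K id I ∧ I.encard = n := by
  unfold td
  rw [Matroid.le_eRk_iff]
  rfl

theorem td_eq_of_indep {I : Set L} (h : AlgebraicIndepOn K id I) : td K I = I.encard :=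
  Matroid.Indep.eRk_eq_encard (M := AlgebraicIndependent.matroid K L) h

theorem td_range_of_indep {ι : Type} [Fintype ι] {x : ι → L} (h : AlgebraicIndependent K x) :
    td K (Set.range x) = Fintype.card ι := by
  have h1 : AlgebraicIndepOn K id (Set.range x) := h.to_subtype_range
  rw [td_eq_of_indep h1, ← Set.image_univ, h.injective.encard_image, Set.encard_univ,
    ENat.card_eq_coe_fintype_card]

theorem indep_of_td_range {ι : Type} [Fintype ι] {x : ι → L}
    (h : (Fintype.card ι : ℕ∞) ≤ td K (Set.range x)) : AlgebraicIndependent K x := by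
  obtain ⟨I, hI, hind, hc⟩ := le_td_iff.1 h
  have h1 : (Set.range x).encard ≤ Fintype.card ι := by
    rw [← Set.image_univ]
    refine (Set.encard_image_le _ _).trans ?_
    rw [Set.encard_univ, ENat.card_eq_coe_fintype_card]
  have hfin : (Set.range x).Finite := Set.finite_range x
  have h2 : I = Set.range x := by
    apply (hfin.subset hI).eq_of_subset_of_encard_le hI
    rw [hc]
    exact h1
  subst h2
  have hinj : Function.Injective x := by
    rw [← Set.injOn_univ]
    apply Set.InjOn.mono (Set.subset_univ _)
    apply Set.Finite.injOn_of_encard_image_eq Set.finite_univ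
    rw [Set.image_univ, hc, Set.encard_univ, ENat.card_eq_coe_fintype_card]
  have h3 : AlgebraicIndependent K (fun i : Set.range x => (i : L)) := hind
  have h4 := h3.comp (fun i : ι => (⟨x i, i, rfl⟩ : Set.range x))
    (fun i j hij => hinj (congrArg Subtype.val hij))
  exact h4

theorem indepOn_image {L' : Type} [Field L'] [Algebra K L'] (φ : L →ₐ[K] L') {I : Set L}
    (h : AlgebraicIndepOn K id I) : AlgebraicIndepOn K id (φ '' I) := by
  have h1 : AlgebraicIndependent K (fun i : I => φ i) :=
    (AlgHom.algebraicIndependent_iff φ φ.injective).2 h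
  have h2 := h1.to_subtype_range
  have h3 : Set.range (fun i : I => φ i) = φ '' I := by
    ext y; simp
  rw [h3] at h2
  exact h2

theorem td_image {L' : Type} [Field L'] [Algebra K L'] (φ : L →ₐ[K] L') (S : Set L) :
    td K (φ '' S) = td K S := by
  apply le_antisymm
  · obtain ⟨I, hI, hind, hc⟩ := le_td_iff.1 (le_refl (td K (φ '' S)))
    rw [← hc]
    obtain ⟨J, hJ, hJI⟩ : ∃ J ⊆ S, φ '' J = I := by
      refine ⟨{x ∈ S | φ x ∈ I}, fun x hx => hx.1, ?_⟩
      ext y
      constructor
      · rintro ⟨x, hx, rfl⟩
        exact hx.2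
      · intro hy
        obtain ⟨x, hx, rfl⟩ := hI hy
        exact ⟨x, ⟨hx, hy⟩, rfl⟩
    subst hJI
    rw [(show Function.Injective φ from φ.injective).encard_image]
    have h1 : AlgebraicIndepOn K id J := by
      have h2 : AlgebraicIndependent K (fun i : φ '' J => (i : L')) := hind
      have h3 := h2.comp (fun i : J => (⟨φ i, Set.mem_image_of_mem _ i.2⟩ : φ '' J)) (by
        intro i j hij
        exact Subtype.ext (φ.injective (congrArg Subtype.val hij)))
      exact (AlgHom.algebraicIndependent_iff φ φ.injective).1 h3
    rw [← td_eq_of_indep h1]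
    exact td_mono hJ
  · obtain ⟨I, hI, hind, hc⟩ := le_td_iff.1 (le_refl (td K S))
    rw [← hc, ← (show Function.Injective φ from φ.injective).encard_image]
    rw [← td_eq_of_indep (indepOn_image φ hind)]
    exact td_mono (Set.image_mono hI)

theorem td_univ_eq : td K (Set.univ : Set L) = Cardinal.toENat (Algebra.trdeg K L) := by
  unfold td
  rw [Matroid.eRk_univ_eq, ← Matroid.toENat_cRank_eq, matroid_cRank_eq]

theorem toENat_eq_nat {c : Cardinal} {n : ℕ} : Cardinal.toENat c = n ↔ c = n := by
  constructor
  · intro h
    have := Cardinal.toENat_eq_natCast (c := c) (n := n)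
    exact this.1 h
  · rintro rfl
    simp

theorem trdeg_univ_iff {n : ℕ} : Algebra.trdeg K L = n ↔ td K (Set.univ : Set L) = n := by
  rw [td_univ_eq, toENat_eq_nat]

theorem trdeg_iff (F : IntermediateField K L) {n : ℕ} :
    Algebra.trdeg K F = n ↔ td K (F : Set L) = n := by
  rw [trdeg_univ_iff, ← td_image F.val]
  have : (F.val '' (Set.univ : Set F)) = (F : Set L) := by
    ext x
    simp
  rw [this]

/-- If `w` has as many elements as its contribution to the transcendence degree, it is independent
over the field generated by `A`. -/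
theorem indep_over {A : Set L} {r n : ℕ} {w : Fin r → L} (hA : td K A + r ≤ n)
    (h : (n : ℕ∞) ≤ td K (A ∪ Set.range w)) :
    AlgebraicIndependent (IntermediateField.adjoin K A) w := by
  classical
  obtain ⟨I, hI⟩ := (AlgebraicIndependent.matroid K L).exists_isBasis A
  have hIA : I ⊆ A := hI.subset
  have hind : AlgebraicIndepOn K id I := hI.indep
  have hc : I.encard = td K A := hI.encard_eq_eRk
  have hIfin : td K A ≠ ⊤ := by
    intro h0
    rw [h0, top_add] at hA
    exact (ENat.natCast_ne_top n) (top_le_iff.1 hA)
  have hI2 : ∀ x ∈ A, IsAlgebraic (IntermediateField.adjoin K I) x := fun x hx =>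
    mem_closure_iff.1 (hI.subset_closure hx)
  have hIfin' : I.Finite := by
    rw [← Set.encard_ne_top_iff, hc]
    exact hIfin
  have : Fintype I := hIfin'.fintype
  have hcard : (Fintype.card I : ℕ∞) = td K A := by
    rw [← hc]
    simp
  -- the family `Fin r ⊕ I`
  set y : Fin r ⊕ I → L := Sum.elim w (fun i : I => (i : L)) with hy
  have hyr : Set.range y = Set.range w ∪ I := by
    rw [hy, Set.Sum.elim_range]
    simp
  have h1 : td K (A ∪ Set.range w) ≤ td K (Set.range y) := by
    have h0 : A ∪ Set.range w ⊆ (AlgebraicIndependent.matroid K L).closure (Set.range y) := by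
      rw [hyr]
      rintro x (hx | hx)
      · exact Matroid.closure_subset_closure _ Set.subset_union_right (hI.subset_closure hx)
      · exact Matroid.closure_subset_closure _ Set.subset_union_left
          (Matroid.subset_closure _ _ (Set.subset_univ _) hx)
    exact (td_mono h0).trans (Matroid.eRk_closure_eq _ _).le
  have h2 : (Fintype.card (Fin r ⊕ I) : ℕ∞) ≤ td K (Set.range y) := by
    refine le_trans ?_ (h.trans h1)
    rw [Fintype.card_sum, Nat.cast_add, hcard, Fintype.card_fin, add_comm]
    exact hA
  have h3 := indep_of_td_range h2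
  rw [hy, AlgebraicIndependent.sumElim_iff] at h3
  obtain ⟨-, h5⟩ := h3
  have hri : Set.range (fun i : I => (i : L)) = I := Subtype.range_coe
  rw [hri] at h5
  rw [IntermediateField.algebraicIndependent_adjoin_iff]
  have hle : Algebra.adjoin K I ≤ Algebra.adjoin K A := Algebra.adjoin_mono hIA
  letI : Algebra (Algebra.adjoin K I) (Algebra.adjoin K A) :=
    (Subalgebra.inclusion hle).toAlgebra
  haveI : IsScalarTower (Algebra.adjoin K I) (Algebra.adjoin K A) L :=
    IsScalarTower.of_algebraMap_eq fun _ => rfl
  haveI : Algebra.IsAlgebraic (Algebra.adjoin K I) (Algebra.adjoin K A) := by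
    constructor
    rintro ⟨x, hx⟩
    have h6 : IsAlgebraic (Algebra.adjoin K I) x := by
      refine Algebra.adjoin_induction (fun z hz => ?_) (fun z => ?_) (fun _ _ _ _ => IsAlgebraic.add)
        (fun _ _ _ _ => IsAlgebraic.mul) hx
      · exact (IntermediateField.isAlgebraic_adjoin_iff).1 (hI2 z hz)
      · exact isAlgebraic_algebraMap (⟨algebraMap K L z, Subalgebra.algebraMap_mem _ z⟩ :
          Algebra.adjoin K I)
    exact (isAlgebraic_algHom_iff
      (IsScalarTower.toAlgHom (Algebra.adjoin K I) (Algebra.adjoin K A) L)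
      Subtype.val_injective).1 h6
  exact h5.extendScalars _

end Run7.h546
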