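import Pool.Agent.Run7.h546.Intern
import Pool.Agent.Run7.h546.Td

/-!
Points, loci, dimensions.
-/

set_option autoImplicit false

namespace Run7.h546

open MvPolynomial

variable {K ι L L' : Type} [Field K] [Field L] [Algebra K L] [Field L'] [Algebra K L']

theorem aeval_smul {H : MvPolynomial ι K} {n : ℕ} (hH : H.IsHomogeneous n) (c : L) (x : ι → L) :
    aeval (fun i => c * x i) H = c ^ n * aeval x H := by
  rw [aeval_def, eval₂_eq, aeval_def, eval₂_eq, Finset.mul_sum]
  refine Finset.sum_congr rfl fun s hs => ?_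
  have h1 : ∏ i ∈ s.support, (c * x i) ^ s i = c ^ n * ∏ i ∈ s.support, x i ^ s i := by
    simp_rw [mul_pow]
    rw [Finset.prod_mul_distrib, Finset.prod_pow_eq_pow_sum]
    congr 2
    exact (hH.degree_eq_sum_deg_support hs).symm
  rw [h1]
  ring

theorem locus_smul (c : L) (hc : c ≠ 0) (x : ι → L) : locus K (fun i => c * x i) = locus K x := by
  ext H
  constructor
  · rintro ⟨⟨n, hn⟩, h⟩
    refine ⟨⟨n, hn⟩, ?_⟩
    rw [aeval_smul hn] at h
    exact (mul_eq_zero.1 h).resolve_left (pow_ne_zero _ hc)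
  · rintro ⟨⟨n, hn⟩, h⟩
    refine ⟨⟨n, hn⟩, ?_⟩
    rw [aeval_smul hn, h, mul_zero]

theorem ratios_smul (c : L) (hc : c ≠ 0) (x : ι → L) :
    ratios K (fun i => c * x i) = ratios K x := by
  unfold ratios
  congr 2
  funext p
  exact mul_div_mul_left _ _ hc

theorem locus_map (φ : L →ₐ[K] L') (x : ι → L) : locus K (fun i => φ (x i)) = locus K x := by
  ext H
  have h1 : aeval (fun i => φ (x i)) H = φ (aeval x H) := by
    rw [← AlgHom.comp_apply, comp_aeval]
  constructor
  · rintro ⟨hn, h⟩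
    refine ⟨hn, ?_⟩
    rw [h1] at h
    exact (map_eq_zero φ).1 h
  · rintro ⟨hn, h⟩
    exact ⟨hn, by rw [h1, h, map_zero]⟩

/-- dimension as an `ℕ∞` -/
noncomputable def dm (K : Type) {ι L : Type} [Field K] [Field L] [Algebra K L] (x : ι → L) : ℕ∞ :=
  td K (Set.range fun p : ι × ι => x p.1 / x p.2)

theorem hasDim_iff {x : ι → L} {l : ℕ} : HasDim K x l ↔ dm K x = l := by
  unfold HasDim dm
  rw [trdeg_iff]
  unfold ratios
  rw [td_adjoin]

theorem dm_eq (x : ι → L) : dm K x = td K (ratios K x : Set L) := by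
  unfold ratios dm
  rw [td_adjoin]

theorem dm_smul (c : L) (hc : c ≠ 0) (x : ι → L) : dm K (fun i => c * x i) = dm K x := by
  rw [dm_eq, dm_eq, ratios_smul c hc]

theorem dm_map (φ : L →ₐ[K] L') (x : ι → L) : dm K (fun i => φ (x i)) = dm K x := by
  unfold dm
  rw [← td_image φ]
  congr 1
  ext y
  constructor
  · rintro ⟨p, rfl⟩
    exact ⟨_, ⟨p, rfl⟩, by simp⟩
  · rintro ⟨_, ⟨p, rfl⟩, rfl⟩
    exact ⟨p, by simp⟩

theorem dm_le {x : ι → L} {S : Set L} {n : ℕ∞} (h : ∀ i, x i ∈ (IntermediateField.adjoin K S))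
    (hS : td K S ≤ n) : dm K x ≤ n := by
  refine le_trans (td_le_of_subset_adjoin ?_) hS
  rintro _ ⟨p, rfl⟩
  exact div_mem (h _) (h _)

/-- the dimension in terms of one chart -/
theorem dm_chart {x : ι → L} {j : ι} (hj : x j ≠ 0) : dm K x = td K (Set.range fun i => x i / x j) := by
  apply le_antisymm
  · apply td_le_of_subset_adjoin
    rintro _ ⟨p, rfl⟩
    have h1 : x p.1 / x p.2 = (x p.1 / x j) / (x p.2 / x j) := by
      rw [div_div_div_cancel_right₀ hj]
    change x p.1 / x p.2 ∈ _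
    rw [h1]
    exact div_mem (IntermediateField.subset_adjoin K _ ⟨_, rfl⟩)
      (IntermediateField.subset_adjoin K _ ⟨_, rfl⟩)
  · apply td_mono
    rintro _ ⟨i, rfl⟩
    exact ⟨(i, j), rfl⟩

/-- Proportional points. -/
def Prop' {L : Type} [Field L] (x y : ι → L) : Prop := ∃ c : L, c ≠ 0 ∧ ∀ i, x i = c * y i

theorem Prop'.locus {x y : ι → L} (h : Prop' x y) : locus K x = locus K y := by
  obtain ⟨c, hc, h⟩ := h
  have : x = fun i => c * y i := funext h
  rw [this, locus_smul c hc]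

theorem Prop'.dm {x y : ι → L} (h : Prop' x y) : dm K x = dm K y := by
  obtain ⟨c, hc, h⟩ := h
  have : x = fun i => c * y i := funext h
  rw [this, dm_smul c hc]

end Run7.h546
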