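import Pool.Agent.Run7.h546.Contact

/-!
Ruled points and their specialisations.
-/

set_option autoImplicit false

namespace Run7.h546

open MvPolynomial FF

variable {K σ E : Type} [Field K] [Field E] [Algebra K E]

theorem reg_sum (P : Place K E) {τ : Type} (s : Finset τ) (f : τ → E)
    (h : ∀ i ∈ s, P.Reg (f i)) : P.Reg (∑ i ∈ s, f i) ∧
      P.red (∑ i ∈ s, f i) = ∑ i ∈ s, P.red (f i) := by
  classical
  induction s using Finset.induction_on with
  | empty => simp [P.reg_zero, P.red_zero]
  | insert i s hi ih =>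
    have h1 := ih fun j hj => h j (Finset.mem_insert_of_mem hj)
    have h2 := h i (Finset.mem_insert_self _ _)
    rw [Finset.sum_insert hi, Finset.sum_insert hi, P.red_add h2 h1.1, h1.2]
    exact ⟨P.reg_add h2 h1.1, rfl⟩

/-- Generators of the field of definition of a ruled family. -/
def base {E : Type} (z : E) (a : σ → E) (v : ℕ → σ → E) (r : ℕ) : Set E :=
  {z} ∪ Set.range a ∪ {y | ∃ i < r, ∃ j, y = v i j}

/-- The point `x` is ruled by `r` directions, one in each of the first `r` blocks. -/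
def Ruled (K : Type) {L : Type} [Field K] [Field L] [Algebra K L] (β : σ → ℕ) (l r : ℕ)
    (x : Option σ → L) : Prop :=
  ∃ (z : L) (a : σ → L) (v : ℕ → σ → L) (w : ℕ → L),
    (∀ i < r, v i ≠ 0 ∧ ∀ j, β j ≠ i → v i j = 0) ∧
    td K (base z a v r) + r ≤ l ∧
    Prop' x (pt z (fun j => a j + ∑ i ∈ Finset.range r, w i * v i j))

theorem dm_centre_lt {ι : Type} [Finite ι] (P : Place K E) {x : ι → E} (hx : x ≠ 0)
    (F : IntermediateField K E) (hxF : ∀ i, x i ∈ F) {n : ℕ} (hF : td K (F : Set E) ≤ n)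
    (hnt : ¬ Triv P F) : dm K (centre P x) + 1 ≤ n := by
  obtain ⟨j, hj, hreg⟩ := exists_min P hx
  have h1 : P.red (x j / x j) ≠ 0 := by
    rw [div_self hj, P.red_one]
    exact one_ne_zero
  rw [(centre_prop P x hreg h1).dm]
  refine le_trans ?_ (abh P F hF hnt)
  refine add_le_add ?_ le_rfl
  refine dm_le (S := P.red '' (F : Set E)) (fun i => ?_) le_rfl
  exact IntermediateField.subset_adjoin K _ ⟨_, div_mem (hxF i) (hxF j), rfl⟩

theorem centre_of_triv {ι : Type} (P : Place K E) {x : ι → E} (hx : x ≠ 0)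
    (F : IntermediateField K E) (hxF : ∀ i, x i ∈ F) (ht : Triv P F) :
    Prop' (centre P x) (fun i => P.red (x i)) := by
  have hex : ∃ i, x i ≠ 0 := by
    by_contra h
    push Not at h
    exact hx (funext h)
  obtain ⟨i0, hi0⟩ := hex
  have h1 := centre_prop P x (c := 1) (i0 := i0) (fun i => by
    rw [div_one]
    exact ht.reg (hxF i)) (by
    rw [div_one]
    exact P.red_ne_zero hi0 (ht _ (hxF i0)))
  simpa only [div_one] using h1

theorem reg_of_red_ne {P : Place K E} {f : E} (h : P.red f ≠ 0) : P.Reg f := by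
  by_contra hn
  exact h (dif_neg hn)

theorem inv_of_red_ne {P : Place K E} {f : E} (h : P.red f ≠ 0) :
    f ≠ 0 ∧ P.ord f = 0 ∧ P.Reg f⁻¹ := by
  have hreg := reg_of_red_ne h
  rw [Ne, P.red_eq_zero_iff hreg] at h
  push Not at h
  have h1 := (P.reg_iff h.1).1 hreg
  refine ⟨h.1, by omega, ?_⟩
  right
  rw [P.ord_inv]
  omega

theorem enat_sub {t : ℕ∞} {r l : ℕ} (h : t + r ≤ l) : r ≤ l ∧ t ≤ (l - r : ℕ) := by
  have ht : t ≠ ⊤ := by
    rintro rfl
    rw [top_add] at h
    exact ENat.natCast_ne_top l (top_le_iff.1 h)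
  obtain ⟨n, rfl⟩ := ENat.ne_top_iff_exists.1 ht
  norm_cast at h ⊢
  omega

/-- Specialisations of a ruled family acquire one more ruling. -/
theorem ruled_centre [Finite σ] {β : σ → ℕ} (P : Place K E) {l r : ℕ} {z X0 : E} {a : σ → E}
    {v : ℕ → σ → E} {w : ℕ → E} {ζ : K} (hz : z ≠ 0) (hζ : ζ ≠ 0)
    (hv : ∀ i < r + 1, v i ≠ 0 ∧ ∀ j, β j ≠ i → v i j = 0)
    (htd : td K (base z a v (r + 1)) + r ≤ l)
    (hred : P.red (X0 / z) = algebraMap K P.RF ζ)
    (hnt : ¬ Triv P (IntermediateField.adjoin K (base z a v (r + 1)))) :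
    Ruled K β l (r + 1)
      (centre P (pt X0 (fun j => a j + ∑ i ∈ Finset.range (r + 1), w i * v i j))) := by
  classical
  have hζ' : P.red (X0 / z) ≠ 0 := by
    rw [hred]
    simpa using hζ
  obtain ⟨hXz, hXz0, hXz'⟩ := inv_of_red_ne hζ'
  have hX0 : X0 ≠ 0 := fun h => hXz (by rw [h, zero_div])
  have hregXz := reg_of_red_ne hζ'
  rw [inv_div] at hXz'
  have : Nonempty σ := by
    by_contra h
    rw [not_nonempty_iff] at h
    exact (hv 0 (Nat.succ_pos r)).1 (funext fun j => h.elim j)
  have hne : ∀ i < r + 1, ∃ p, v i p ≠ 0 ∧ ∀ j, P.Reg (v i j / v i p) :=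
    fun i hi => exists_min P (hv i hi).1
  choose! p hp using hne
  set κ := IntermediateField.adjoin K (base z a v (r + 1)) with hκ
  have hzκ : z ∈ κ := IntermediateField.subset_adjoin K _ (Or.inl (Or.inl rfl))
  have haκ : ∀ j, a j ∈ κ := fun j => IntermediateField.subset_adjoin K _ (Or.inl (Or.inr ⟨j, rfl⟩))
  have hvκ : ∀ i < r + 1, ∀ j, v i j ∈ κ := fun i hi j =>
    IntermediateField.subset_adjoin K _ (Or.inr ⟨i, hi, j, rfl⟩)
  set vh : ℕ → σ → E := fun i j => v i j / v i (p i) with hvh
  have hvhκ : ∀ i < r + 1, ∀ j, vh i j ∈ κ := fun i hi j => div_mem (hvκ i hi j) (hvκ i hi _)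
  have hvhr : ∀ i < r + 1, ∀ j, P.Reg (vh i j) := fun i hi j => (hp i hi).2 j
  have hβ : ∀ i < r + 1, β (p i) = i := by
    intro i hi
    by_contra h
    exact (hp i hi).1 ((hv i hi).2 _ h)
  set A : σ → E := fun j => a j + ∑ i ∈ Finset.range (r + 1), w i * v i j with hA
  have hAp : ∀ i < r + 1, A (p i) = a (p i) + w i * v i (p i) := by
    intro i hi
    rw [hA]
    simp only
    congr 1
    refine Finset.sum_eq_single i ?_ ?_
    · intro k hk hki
      rw [(hv k (Finset.mem_range.1 hk)).2 (p i) (by rw [hβ i hi]; exact hki.symm), mul_zero]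
    · intro h
      exact absurd (Finset.mem_range.2 hi) h
  set a' : σ → E := fun j => a j - ∑ i ∈ Finset.range (r + 1), a (p i) * vh i j with ha'
  have ha'κ : ∀ j, a' j ∈ κ := fun j => sub_mem (haκ j) (sum_mem fun i hi =>
    mul_mem (haκ _) (hvhκ i (Finset.mem_range.1 hi) j))
  have hAdec : ∀ j, A j = a' j + ∑ i ∈ Finset.range (r + 1), A (p i) * vh i j := by
    intro j
    have h1 : ∑ i ∈ Finset.range (r + 1), A (p i) * vh i j =
        ∑ i ∈ Finset.range (r + 1), a (p i) * vh i j +
          ∑ i ∈ Finset.range (r + 1), w i * v i j := by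
      rw [← Finset.sum_add_distrib]
      refine Finset.sum_congr rfl fun i hi => ?_
      have hi' := Finset.mem_range.1 hi
      rw [hAp i hi', add_mul]
      congr 1
      simp only [hvh]
      rw [mul_assoc, mul_div_cancel₀ _ (hp i hi').1]
    rw [h1, ha', hA]
    ring
  -- the normalising factor
  have hy : pt X0 A ≠ 0 := fun h => hX0 (congrFun h none)
  obtain ⟨j0, hj0, hregy⟩ := exists_min P hy
  set c := pt X0 A j0 with hc
  have hcj : P.red (pt X0 A j0 / c) ≠ 0 := by
    rw [div_self hj0, P.red_one]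
    exact one_ne_zero
  have hprop := centre_prop P (pt X0 A) hregy hcj
  have hX0c : P.Reg (X0 / c) := hregy none
  have hAc : ∀ j, P.Reg (A j / c) := fun j => hregy (some j)
  have hzc : P.Reg (z / c) := by
    have : z / c = (X0 / c) * (z / X0) := by
      rw [mul_comm, div_mul_div_cancel₀ hX0]
    rw [this]
    exact P.reg_mul hX0c hXz'
  have hsumr : ∀ j, ∀ i ∈ Finset.range (r + 1), P.Reg (A (p i) / c * vh i j) := fun j i hi =>
    P.reg_mul (hAc _) (hvhr i (Finset.mem_range.1 hi) j)
  have hAj : ∀ j, A j / c = a' j / c + ∑ i ∈ Finset.range (r + 1), A (p i) / c * vh i j := by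
    intro j
    rw [hAdec j, add_div, Finset.sum_div]
    congr 1
    refine Finset.sum_congr rfl fun i _ => ?_
    ring
  have ha'c : ∀ j, P.Reg (a' j / c) := by
    intro j
    have h1 : a' j / c = A j / c + -(∑ i ∈ Finset.range (r + 1), A (p i) / c * vh i j) := by
      rw [hAj j]
      ring
    rw [h1]
    exact P.reg_add (hAc j) (P.reg_neg (reg_sum P _ _ (hsumr j)).1)
  have hredX : P.red (X0 / c) = algebraMap K P.RF ζ * P.red (z / c) := by
    rw [← hred, ← P.red_mul hregXz hzc, div_mul_div_cancel₀ hz]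
  have hredA : ∀ j, P.red (A j / c) = P.red (a' j / c) +
      ∑ i ∈ Finset.range (r + 1), P.red (A (p i) / c) * P.red (vh i j) := by
    intro j
    rw [hAj j, P.red_add (ha'c j) (reg_sum P _ _ (hsumr j)).1, (reg_sum P _ _ (hsumr j)).2]
    congr 1
    refine Finset.sum_congr rfl fun i hi => ?_
    rw [P.red_mul (hAc _) (hvhr i (Finset.mem_range.1 hi) j)]
  -- the point over `κ`
  have hq : pt z a' ≠ 0 := fun h => hz (congrFun h none)
  obtain ⟨k0, hk0, hregq⟩ := exists_min P hq
  set e := pt z a' k0 with he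
  have heκ : e ∈ κ := by
    rw [he]
    cases k0 with
    | none => exact hzκ
    | some j => exact ha'κ j
  have hec : P.Reg (e / c) := by
    rw [he]
    cases k0 with
    | none => exact hzc
    | some j => exact ha'c j
  have hze : P.Reg (z / e) := hregq none
  have ha'e : ∀ j, P.Reg (a' j / e) := fun j => hregq (some j)
  have hz2 : P.red (z / c) = P.red (z / e) * P.red (e / c) := by
    rw [← P.red_mul hze hec, div_mul_div_cancel₀ hk0]
  have ha2 : ∀ j, P.red (a' j / c) = P.red (a' j / e) * P.red (e / c) := by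
    intro j
    rw [← P.red_mul (ha'e j) hec, div_mul_div_cancel₀ hk0]
  obtain ⟨hrl, htd'⟩ := enat_sub htd
  have hab := abh P κ (n := l - r) (by rw [hκ, td_adjoin]; exact htd') hnt
  have hfin : ∀ S : Set P.RF, S ⊆ P.red '' (κ : Set E) → td K S + ((r + 1 : ℕ) : ℕ∞) ≤ l := by
    intro S hS
    have h1 : td K S + 1 ≤ ((l - r : ℕ) : ℕ∞) := (add_le_add (td_mono hS) le_rfl).trans hab
    have h2 : ((l : ℕ) : ℕ∞) = ((l - r : ℕ) : ℕ∞) + (r : ℕ∞) := by
      rw [← Nat.cast_add, Nat.sub_add_cancel hrl]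
    rw [h2, Nat.cast_add, Nat.cast_one, add_comm (r : ℕ∞) 1, ← add_assoc]
    exact add_le_add h1 le_rfl
  have hv' : ∀ i < r + 1, (fun j => P.red (vh i j)) ≠ 0 ∧ ∀ j, β j ≠ i → P.red (vh i j) = 0 := by
    intro i hi
    constructor
    · intro h
      have := congrFun h (p i)
      simp only [hvh, div_self (hp i hi).1, P.red_one, Pi.zero_apply] at this
      exact one_ne_zero this
    · intro j hj
      simp only [hvh]
      rw [(hv i hi).2 j hj, zero_div, P.red_zero]
  by_cases hρ : P.red (e / c) = 0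
  · refine ⟨0, 0, fun i j => P.red (vh i j), fun i => P.red (A (p i) / c), hv', ?_, ?_⟩
    · apply hfin
      rintro y ((rfl | ⟨j, rfl⟩) | ⟨i, hi, j, rfl⟩)
      · exact ⟨0, zero_mem κ, P.red_zero⟩
      · exact ⟨0, zero_mem κ, P.red_zero⟩
      · exact ⟨_, hvhκ i hi j, rfl⟩
    · have h1 : (fun i => P.red (pt X0 A i / c)) = pt 0 (fun j => (0 : σ → P.RF) j +
          ∑ i ∈ Finset.range (r + 1), P.red (A (p i) / c) * P.red (vh i j)) := by
        funext o
        cases o with
        | none =>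
          change P.red (X0 / c) = 0
          rw [hredX, hz2, hρ, mul_zero, mul_zero]
        | some j =>
          change P.red (A j / c) = _
          rw [hredA, ha2, hρ, mul_zero]
          rfl
      rw [h1] at hprop
      exact hprop
  · refine ⟨P.red (algebraMap K E ζ * (z / e)), fun j => P.red (a' j / e), fun i j => P.red (vh i j),
      fun i => (P.red (e / c))⁻¹ * P.red (A (p i) / c), hv', ?_, ?_⟩
    · apply hfin
      rintro y ((rfl | ⟨j, rfl⟩) | ⟨i, hi, j, rfl⟩)
      · exact ⟨_, mul_mem (IntermediateField.algebraMap_mem _ _) (div_mem hzκ heκ), rfl⟩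
      · exact ⟨_, div_mem (ha'κ j) heκ, rfl⟩
      · exact ⟨_, hvhκ i hi j, rfl⟩
    · refine hprop.trans ⟨P.red (e / c), hρ, fun o => ?_⟩
      cases o with
      | none =>
        change P.red (X0 / c) = P.red (e / c) * P.red (algebraMap K E ζ * (z / e))
        rw [hredX, hz2, P.red_mul (P.reg_const ζ) hze, P.algebraMap_RF]
        ring
      | some j =>
        change P.red (A j / c) = P.red (e / c) * (P.red (a' j / e) + _)
        rw [hredA, ha2, mul_add, Finset.mul_sum]
        congr 1
        · ring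
        · refine Finset.sum_congr rfl fun i _ => ?_
          rw [← mul_assoc, mul_inv_cancel_left₀ hρ]

theorem main_centre [Finite σ] (P : Place K E) {z X0 s : E} {B u : σ → E} {ζ : K}
    (hz : z ≠ 0) (hzo : P.ord z = 0) (hζ : ζ ≠ 0)
    (hred : P.red (X0 / z) = algebraMap K P.RF ζ) (hs : 0 < P.ord s)
    (hu : ∀ j, P.ord (u j) = 0) :
    Prop' (centre P (pt X0 (fun j => B j + s * u j))) (tw ζ (centre P (pt z B))) := by
  have hζ' : P.red (X0 / z) ≠ 0 := by
    rw [hred]
    simpa using hζ
  have hregXz := reg_of_red_ne hζ'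
  have hx : pt z B ≠ 0 := fun h => hz (congrFun h none)
  obtain ⟨j0, hj0, hregx⟩ := exists_min P hx
  set c := pt z B j0 with hc
  have hcj : P.red (pt z B j0 / c) ≠ 0 := by
    rw [div_self hj0, P.red_one]
    exact one_ne_zero
  have hprop := centre_prop P (pt z B) hregx hcj
  have hzc : P.Reg (z / c) := hregx none
  have hco : P.ord c ≤ 0 := by
    have h1 := (P.reg_iff (div_ne_zero hz hj0)).1 hzc
    rw [P.ord_div hz hj0, hzo] at h1
    omega
  have hs0 : s ≠ 0 := by
    rintro rfl
    rw [P.ord_zero] at hs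
    exact lt_irrefl _ hs
  have hsu : ∀ j, P.Reg (s * u j / c) ∧ P.red (s * u j / c) = 0 := by
    intro j
    by_cases h : u j = 0
    · rw [h, mul_zero, zero_div]
      exact ⟨P.reg_zero, P.red_zero⟩
    · have h1 : 0 < P.ord (s * u j / c) := by
        rw [P.ord_div (mul_ne_zero hs0 h) hj0, P.ord_mul hs0 h, hu j]
        omega
      have h2 : P.Reg (s * u j / c) := Or.inr h1.le
      exact ⟨h2, (P.red_eq_zero_iff h2).2 (Or.inr h1)⟩
  have key : ∀ o, P.Reg (pt X0 (fun j => B j + s * u j) o / c) ∧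
      P.red (pt X0 (fun j => B j + s * u j) o / c) = tw ζ (fun o => P.red (pt z B o / c)) o := by
    intro o
    cases o with
    | none =>
      change P.Reg (X0 / c) ∧ P.red (X0 / c) = algebraMap K P.RF ζ * P.red (z / c)
      have h1 : X0 / c = (X0 / z) * (z / c) := by rw [div_mul_div_cancel₀ hz]
      rw [h1, P.red_mul hregXz hzc, hred]
      exact ⟨P.reg_mul hregXz hzc, rfl⟩
    | some j =>
      change P.Reg ((B j + s * u j) / c) ∧ P.red ((B j + s * u j) / c) = P.red (B j / c)
      have h1 : P.Reg (B j / c) := hregx (some j)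
      rw [add_div, P.red_add h1 (hsu j).1, (hsu j).2, add_zero]
      exact ⟨P.reg_add h1 (hsu j).1, rfl⟩
  have h4 : P.red (pt X0 (fun j => B j + s * u j) j0 / c) ≠ 0 := by
    rw [(key j0).2]
    cases j0 with
    | none => exact mul_ne_zero (by simpa using hζ) hcj
    | some j => exact hcj
  have h5 := centre_prop P (pt X0 (fun j => B j + s * u j)) (fun i => (key i).1) h4
  have h6 : (fun o => P.red (pt X0 (fun j => B j + s * u j) o / c)) =
      tw ζ (fun o => P.red (pt z B o / c)) := funext fun o => (key o).2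
  rw [h6] at h5
  exact h5.trans (tw_prop hprop).symm

theorem infinity_centre [Finite σ] (P : Place K E) {z : E} {A : σ → E} (k : σ)
    (hz : P.ord z = 0) (hk : P.ord (A k) < 0) :
    ∃ b : σ → P.RF, Prop' (centre P (pt z A)) (pt 0 b) := by
  have hAk : A k ≠ 0 := by
    intro h
    rw [h, P.ord_zero] at hk
    exact lt_irrefl _ hk
  have hx : pt z A ≠ 0 := fun h => hAk (congrFun h (some k))
  obtain ⟨j0, hj0, hregx⟩ := exists_min P hx
  set c := pt z A j0 with hc
  have hcj : P.red (pt z A j0 / c) ≠ 0 := by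
    rw [div_self hj0, P.red_one]
    exact one_ne_zero
  have hprop := centre_prop P (pt z A) hregx hcj
  refine ⟨fun j => P.red (A j / c), ?_⟩
  have h1 : P.red (z / c) = 0 := by
    by_cases h : z = 0
    · rw [h, zero_div, P.red_zero]
    · have hzc : P.Reg (z / c) := hregx none
      rw [P.red_eq_zero_iff hzc]
      right
      have h2 := (P.reg_iff (div_ne_zero hAk hj0)).1 (hregx (some k))
      rw [P.ord_div hAk hj0] at h2
      rw [P.ord_div h hj0, hz]
      omega
  have h2 : (fun o => P.red (pt z A o / c)) = pt 0 (fun j => P.red (A j / c)) := by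
    funext o
    cases o with
    | none => exact h1
    | some j => rfl
  rw [h2] at hprop
  exact hprop

end Run7.h546
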