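import Pool.Agent.Run7.h546.Engine

/-!
The induction step.
-/

set_option autoImplicit false

namespace Run7.h546

open MvPolynomial FF

variable {K σ : Type} [Field K]

theorem map_pt {L L' : Type} (f : L → L') (z : L) (a : σ → L) :
    (fun o => f (pt z a o)) = pt (f z) (fun j => f (a j)) := by
  funext o
  cases o <;> rfl

theorem map_aeval_alg {ι L L' : Type} [Field L] [Algebra K L] [Field L'] [Algebra K L']
    (φ : L →ₐ[K] L') (x : ι → L) (H : MvPolynomial ι K) :
    φ (aeval x H) = aeval (fun i => φ (x i)) H := by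
  rw [← AlgHom.comp_apply, comp_aeval]

theorem image_base {L L' : Type} (f : L → L') (z : L) (a : σ → L) (v : ℕ → σ → L) (r : ℕ) :
    f '' (base z a v r) = base (f z) (fun j => f (a j)) (fun i j => f (v i j)) r := by
  ext y
  constructor
  · rintro ⟨_, ((rfl | ⟨j, rfl⟩) | ⟨i, hi, j, rfl⟩), rfl⟩
    · exact Or.inl (Or.inl rfl)
    · exact Or.inl (Or.inr ⟨j, rfl⟩)
    · exact Or.inr ⟨i, hi, j, rfl⟩
  · rintro ((rfl | ⟨j, rfl⟩) | ⟨i, hi, j, rfl⟩)
    · exact ⟨_, Or.inl (Or.inl rfl), rfl⟩
    · exact ⟨_, Or.inl (Or.inr ⟨j, rfl⟩), rfl⟩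
    · exact ⟨_, Or.inr ⟨i, hi, j, rfl⟩, rfl⟩

theorem base_congr {L : Type} {z : L} {a : σ → L} {v v' : ℕ → σ → L} {r : ℕ}
    (h : ∀ i < r, v i = v' i) : base z a v r = base z a v' r := by
  ext y
  constructor
  · rintro (hy | ⟨i, hi, j, rfl⟩)
    · exact Or.inl hy
    · exact Or.inr ⟨i, hi, j, by rw [h i hi]⟩
  · rintro (hy | ⟨i, hi, j, rfl⟩)
    · exact Or.inl hy
    · exact Or.inr ⟨i, hi, j, by rw [h i hi]⟩

theorem finite_base [Finite σ] {L : Type} (z : L) (a : σ → L) (v : ℕ → σ → L) (r : ℕ) :
    (base z a v r).Finite := by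
  refine ((Set.finite_singleton z).union (Set.finite_range a)).union ?_
  have : {y | ∃ i < r, ∃ j, y = v i j} = ⋃ i ∈ Set.Iio r, Set.range (v i) := by
    ext y
    simp only [Set.mem_iUnion, Set.mem_Iio, Set.mem_range]
    constructor
    · rintro ⟨i, hi, j, rfl⟩
      exact ⟨i, hi, j, rfl⟩
    · rintro ⟨i, hi, j, rfl⟩
      exact ⟨i, hi, j, rfl⟩
  rw [this]
  exact (Set.finite_Iio r).biUnion fun i _ => Set.finite_range _

theorem aeval_mem {ι L : Type} [Field L] [Algebra K L] (F : IntermediateField K L) {x : ι → L}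
    (hx : ∀ i, x i ∈ F) (H : MvPolynomial ι K) : aeval x H ∈ F := by
  have h1 : aeval x H = F.val (aeval (fun i => (⟨x i, hx i⟩ : F)) H) := by
    rw [map_aeval_alg]
    rfl
  rw [h1]
  exact (aeval (fun i => (⟨x i, hx i⟩ : F)) H).2

/-- The step of the induction with all data in an arbitrary extension field. -/
theorem engine' [CharZero K] [Finite σ] {d e l r : ℕ} {G : MvPolynomial σ K} {β : σ → ℕ} {η : K}
    (hd : 0 < d) (he : 0 < e) (hG : G.IsHomogeneous d) (hη : IsPrimitiveRoot η d)
    (IH : ∀ (L : Type) [Field L] [Algebra K L] (x : Option σ → L), x ≠ 0 →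
      aeval x (cyc d G) = 0 → dm K x = l → Ruled K β l (r + 1) x → cls K x ∈ Inv d G l η)
    {Ω : Type} [Field Ω] [Algebra K Ω]
    {z X0 φ : Ω} {a : σ → Ω} {v : ℕ → σ → Ω} {w : ℕ → Ω}
    (hz : z ≠ 0) (hv : ∀ i < r + 1, v i ≠ 0 ∧ ∀ j, β j ≠ i → v i j = 0)
    (htd : td K (base z a v (r + 1)) + r ≤ l)
    (hφ : φ = aeval (fun j => a j + v r j) G - aeval a G)
    (hX : X0 ^ d = z ^ d - (w r) ^ e * φ)
    (hcase : φ = 0 → X0 = z)
    (hs : ((l + 1 : ℕ) : ℕ∞) ≤ td K (insert (w r) (base z a v (r + 1) ∪ w '' {i | i < r})))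
    (hon : aeval (pt X0 (fun j => a j + ∑ i ∈ Finset.range (r + 1), w i * v i j)) (cyc d G) = 0)
    (hdim : dm K (pt z (fun j => a j + ∑ i ∈ Finset.range r, w i * v i j)) = l) :
    cls K (pt z (fun j => a j + ∑ i ∈ Finset.range r, w i * v i j)) ∈ Inv d G l η := by
  classical
  set T := base z a v (r + 1) ∪ w '' {i | i < r} with hT
  set S := insert X0 (insert (w r) T) with hS
  have hTfin : T.Finite := (finite_base z a v (r + 1)).union ((Set.finite_lt_nat r).image w)
  have hSfin : S.Finite := (hTfin.insert _).insert _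
  set E := IntermediateField.adjoin K S with hE
  have hess : Algebra.EssFiniteType K E := by
    rw [IntermediateField.essFiniteType_iff]
    exact IntermediateField.fg_adjoin_of_finite hSfin
  have hTE : ∀ y ∈ T, y ∈ E := fun y hy =>
    IntermediateField.subset_adjoin K _ (Or.inr (Or.inr hy))
  obtain ⟨zE, hzE⟩ : ∃ zE : E, (zE : Ω) = z := ⟨⟨z, hTE _ (Or.inl (Or.inl (Or.inl rfl)))⟩, rfl⟩
  obtain ⟨XE, hXE⟩ : ∃ XE : E, (XE : Ω) = X0 :=
    ⟨⟨X0, IntermediateField.subset_adjoin K _ (Or.inl rfl)⟩, rfl⟩
  obtain ⟨aE, haE⟩ : ∃ aE : σ → E, ∀ j, (aE j : Ω) = a j :=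
    ⟨fun j => ⟨a j, hTE _ (Or.inl (Or.inl (Or.inr ⟨j, rfl⟩)))⟩, fun j => rfl⟩
  obtain ⟨vE, hvE⟩ : ∃ vE : ℕ → σ → E, ∀ i < r + 1, ∀ j, (vE i j : Ω) = v i j := by
    refine ⟨fun i j => if h : i < r + 1 then ⟨v i j, hTE _ (Or.inl (Or.inr ⟨i, h, j, rfl⟩))⟩ else 0,
      fun i hi j => ?_⟩
    simp only
    rw [dif_pos hi]
  obtain ⟨wE, hwE⟩ : ∃ wE : ℕ → E, ∀ i < r + 1, (wE i : Ω) = w i := by
    refine ⟨fun i => if h : i < r + 1 then ⟨w i, ?_⟩ else 0, fun i hi => ?_⟩
    · rcases Nat.lt_succ_iff_lt_or_eq.1 h with h1 | h1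
      · exact hTE _ (Or.inr ⟨i, h1, rfl⟩)
      · rw [h1]
        exact IntermediateField.subset_adjoin K _ (Or.inr (Or.inl rfl))
    · simp only
      rw [dif_pos hi]
  have hbase : E.val '' (base zE aE vE (r + 1)) = base z a v (r + 1) := by
    rw [image_base]
    have h1 : (fun j => E.val (aE j)) = a := funext haE
    have h2 : E.val zE = z := hzE
    rw [h1, h2]
    exact base_congr fun i hi => funext (hvE i hi)
  have hTimg : E.val '' (base zE aE vE (r + 1) ∪ wE '' {i | i < r}) = T := by
    rw [Set.image_union, hbase, hT, Set.image_image]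
    congr 1
    refine Set.image_congr fun i hi => hwE i (lt_trans hi (Nat.lt_succ_self r))
  have hinj : Function.Injective E.val := E.val.injective
  have hsum : ∀ n ≤ r + 1, ∀ j, E.val (aE j + ∑ i ∈ Finset.range n, wE i * vE i j) =
      a j + ∑ i ∈ Finset.range n, w i * v i j := by
    intro n hn j
    rw [map_add, map_sum]
    congr 1
    · exact haE j
    · refine Finset.sum_congr rfl fun i hi => ?_
      have hi' := lt_of_lt_of_le (Finset.mem_range.1 hi) hn
      rw [map_mul]
      congr 1
      · exact hwE i hi'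
      · exact hvE i hi' j
  have hpt : ∀ (n : ℕ) (hn : n ≤ r + 1) (y : E), (fun o => E.val (pt y (fun j => aE j +
      ∑ i ∈ Finset.range n, wE i * vE i j) o)) = pt (y : Ω) (fun j => a j +
      ∑ i ∈ Finset.range n, w i * v i j) := by
    intro n hn y
    rw [map_pt]
    congr 1
    funext j
    exact hsum n hn j
  have hTl : td K T ≤ l := td_params htd
  have hTdm : (l : ℕ∞) ≤ td K T := by
    rw [← hdim]
    refine dm_le (S := T) (fun o => ?_) le_rfl
    cases o with
    | none => exact IntermediateField.subset_adjoin K _ (Or.inl (Or.inl (Or.inl rfl)))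
    | some j =>
      change a j + ∑ i ∈ Finset.range r, w i * v i j ∈ IntermediateField.adjoin K T
      refine add_mem (IntermediateField.subset_adjoin K _ (Or.inl (Or.inl (Or.inr ⟨j, rfl⟩))))
        (sum_mem fun i hi => ?_)
      have hi' := Finset.mem_range.1 hi
      exact mul_mem (IntermediateField.subset_adjoin K _ (Or.inr ⟨i, hi', rfl⟩))
        (IntermediateField.subset_adjoin K _ (Or.inl (Or.inr ⟨i, hi'.trans (Nat.lt_succ_self r), j,
          rfl⟩)))
  have hXalg : IsAlgebraic (IntermediateField.adjoin K (insert (w r) T)) X0 := by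
    have h1 : X0 ^ d ∈ IntermediateField.adjoin K (insert (w r) T) := by
      have ha : ∀ j, a j ∈ IntermediateField.adjoin K (insert (w r) T) := fun j =>
        IntermediateField.subset_adjoin K _ (Or.inr (Or.inl (Or.inl (Or.inr ⟨j, rfl⟩))))
      have hvr : ∀ j, v r j ∈ IntermediateField.adjoin K (insert (w r) T) := fun j =>
        IntermediateField.subset_adjoin K _ (Or.inr (Or.inl (Or.inr ⟨r, Nat.lt_succ_self r, j,
          rfl⟩)))
      have hz' : z ∈ IntermediateField.adjoin K (insert (w r) T) :=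
        IntermediateField.subset_adjoin K _ (Or.inr (Or.inl (Or.inl (Or.inl rfl))))
      have hw' : w r ∈ IntermediateField.adjoin K (insert (w r) T) :=
        IntermediateField.subset_adjoin K _ (Or.inl rfl)
      rw [hX, hφ]
      exact sub_mem (pow_mem hz' d) (mul_mem (pow_mem hw' e) (sub_mem
        (aeval_mem _ (fun j => add_mem (ha j) (hvr j)) G) (aeval_mem _ ha G)))
    exact (isAlgebraic_of_mem _ h1).of_pow hd
  have htr : Algebra.trdeg K E = l + 1 := by
    have h1 : Algebra.trdeg K E = ((l + 1 : ℕ) : Cardinal) := by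
      rw [trdeg_iff, hE, td_adjoin]
      apply le_antisymm
      · calc td K S ≤ td K (insert (w r) T) := by
              apply td_le_of_alg
              rintro y (rfl | hy)
              · exact hXalg
              · exact isAlgebraic_of_mem _ (IntermediateField.subset_adjoin K _ hy)
          _ ≤ td K T + 1 := td_insert_le _ _
          _ ≤ l + 1 := add_le_add hTl le_rfl
          _ = ((l + 1 : ℕ) : ℕ∞) := by push_cast; rfl
      · exact hs.trans (td_mono (Set.subset_insert _ _))
    rw [h1]
    push_cast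
    rfl
  have hcoe : ∀ (n : ℕ) (hn : n ≤ r + 1) (y : E), cls K (pt y (fun j => aE j +
      ∑ i ∈ Finset.range n, wE i * vE i j)) = cls K (pt (y : Ω) (fun j => a j +
      ∑ i ∈ Finset.range n, w i * v i j)) := by
    intro n hn y
    unfold cls
    rw [← hpt n hn y, locus_map]
  have hφE : E.val (aeval (fun j => aE j + vE r j) G - aeval aE G) = φ := by
    rw [map_sub, map_aeval_alg, map_aeval_alg, hφ]
    have h1 : (fun i => E.val (aE i)) = a := funext haE
    have h2 : (fun i => E.val (aE i + vE r i)) = fun j => a j + v r j := by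
      funext j
      rw [map_add]
      congr 1
      · exact haE j
      · exact hvE r (Nat.lt_succ_self r) j
    rw [h1, h2]
  have hmain := engine (E := E) (β := β) hd he hG hη IH htr (z := zE) (X0 := XE)
    (φ := aeval (fun j => aE j + vE r j) G - aeval aE G) (a := aE) (v := vE) (w := wE)
    (by
      intro h
      apply hz
      rw [← hzE, h]
      rfl)
    (by
      intro i hi
      obtain ⟨h1, h2⟩ := hv i hi
      constructor
      · intro h
        apply h1
        funext j
        rw [← hvE i hi j, h]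
        rfl
      · intro j hj
        apply hinj
        rw [map_zero]
        exact (hvE i hi j).trans (h2 j hj))
    (by
      rw [← td_image E.val, hbase]
      exact htd)
    (by
      have ha : ∀ j, aE j ∈ IntermediateField.adjoin K (base zE aE vE (r + 1)) := fun j =>
        IntermediateField.subset_adjoin K _ (Or.inl (Or.inr ⟨j, rfl⟩))
      refine sub_mem (aeval_mem _ (fun j => add_mem (ha j) ?_) G) (aeval_mem _ ha G)
      exact IntermediateField.subset_adjoin K _ (Or.inr ⟨r, Nat.lt_succ_self r, j, rfl⟩))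
    (by
      apply hinj
      rw [map_sub, map_mul, map_pow, map_pow, map_pow, hφE]
      have h1 : E.val XE = X0 := hXE
      have h2 : E.val zE = z := hzE
      have h3 : E.val (wE r) = w r := hwE r (Nat.lt_succ_self r)
      rw [h1, h2, h3]
      exact hX)
    (by
      intro h0
      apply Subtype.ext
      rw [hXE, hzE]
      apply hcase
      rw [← hφE, h0, map_zero])
    (by
      rw [← td_image E.val, Set.image_insert_eq, hTimg]
      have h3 : E.val (wE r) = w r := hwE r (Nat.lt_succ_self r)
      rw [h3]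
      exact hs)
    (by
      apply hinj
      rw [map_aeval_alg, map_zero, hpt (r + 1) le_rfl, hXE]
      exact hon)
    (by
      rw [← dm_map E.val, hpt r (Nat.le_succ r), hzE]
      exact hdim)
  rw [hcoe r (Nat.le_succ r), hzE] at hmain
  exact hmain

/-- A large extension with a transcendental element. -/
theorem exists_big (L : Type) [Field L] [Algebra K L] :
    ∃ (Ω : Type) (_ : Field Ω) (_ : Algebra K Ω) (_ : IsAlgClosed Ω) (ψ : L →ₐ[K] Ω) (s : Ω),
      ∀ S : Set Ω, S ⊆ Set.range ψ → ¬ IsAlgebraic (IntermediateField.adjoin K S) s := by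
  refine ⟨AlgebraicClosure (RatFunc L), inferInstance, inferInstance, inferInstance,
    IsScalarTower.toAlgHom K L _, algebraMap (RatFunc L) _ RatFunc.X, ?_⟩
  intro S hS halg
  set ψ := IsScalarTower.toAlgHom K L (AlgebraicClosure (RatFunc L)) with hψ
  have h1 : ∀ y : IntermediateField.adjoin K S,
      algebraMap (IntermediateField.adjoin K S) (AlgebraicClosure (RatFunc L)) y ∈ ψ.range := by
    rintro ⟨y, hy⟩
    have h0 : IntermediateField.adjoin K S ≤ ψ.fieldRange := by
      rw [IntermediateField.adjoin_le_iff]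
      intro y hy
      exact hS hy
    exact h0 hy
  have h2 : IsAlgebraic L (algebraMap (RatFunc L) (AlgebraicClosure (RatFunc L)) RatFunc.X) := by
    let j : IntermediateField.adjoin K S →+* L :=
      ((AlgEquiv.ofInjectiveField ψ).symm : _ →+* L).comp
        ((algebraMap (IntermediateField.adjoin K S) (AlgebraicClosure (RatFunc L))).codRestrict
          ψ.range h1)
    have hj : (algebraMap L (AlgebraicClosure (RatFunc L))).comp j =
        algebraMap (IntermediateField.adjoin K S) (AlgebraicClosure (RatFunc L)) := by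
      ext y
      have h3 := (AlgEquiv.ofInjectiveField ψ).apply_symm_apply
        ⟨algebraMap (IntermediateField.adjoin K S) (AlgebraicClosure (RatFunc L)) y, h1 y⟩
      exact congrArg Subtype.val h3
    obtain ⟨p, hp, hps⟩ := halg
    refine ⟨p.map j, ?_, ?_⟩
    · rwa [Ne, Polynomial.map_eq_zero]
    · rw [Polynomial.aeval_def, Polynomial.eval₂_map, hj]
      exact hps
  have h3 : Transcendental L (RatFunc.X : RatFunc L) := RatFunc.transcendental_X
  exact h3 ((isAlgebraic_algebraMap_iff (algebraMap (RatFunc L)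
    (AlgebraicClosure (RatFunc L))).injective).1 h2)

theorem alg_map {L Ω : Type} [Field L] [Algebra K L] [Field Ω] [Algebra K Ω] (ψ : L →ₐ[K] Ω)
    {S : Set L} {y : L} (h : IsAlgebraic (IntermediateField.adjoin K S) y) :
    IsAlgebraic (IntermediateField.adjoin K (ψ '' S)) (ψ y) := by
  have h1 : ∀ x : IntermediateField.adjoin K S,
      ((ψ : L →+* Ω).comp (algebraMap (IntermediateField.adjoin K S) L)) x ∈
        IntermediateField.adjoin K (ψ '' S) := by
    rintro ⟨x, hx⟩
    rw [← IntermediateField.adjoin_map]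
    exact ⟨x, hx, rfl⟩
  let j : IntermediateField.adjoin K S →+* IntermediateField.adjoin K (ψ '' S) :=
    ((ψ : L →+* Ω).comp (algebraMap (IntermediateField.adjoin K S) L)).codRestrict _ h1
  have hj : (algebraMap (IntermediateField.adjoin K (ψ '' S)) Ω).comp j =
      (ψ : L →+* Ω).comp (algebraMap (IntermediateField.adjoin K S) L) := by
    ext x
    rfl
  obtain ⟨p, hp, hps⟩ := h
  refine ⟨p.map j, ?_, ?_⟩
  · rwa [Ne, Polynomial.map_eq_zero]
  · rw [Polynomial.aeval_def, Polynomial.eval₂_map, hj]
    rw [Polynomial.aeval_def] at hps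
    have h2 := congrArg ψ hps
    rw [map_zero] at h2
    rw [← h2]
    exact (Polynomial.hom_eval₂ p _ (ψ : L →+* Ω) y).symm

theorem contact_alg {L : Type} [Field L] [Algebra K L] [IsAlgClosed L] [Finite σ]
    {G : MvPolynomial σ K} (β : σ → ℕ) (r : ℕ) {d : ℕ} (hd' : d = Nat.card {j // β j = r})
    (hd : 0 < d)
    (hG : ∀ s ∈ G.support, ∑ j ∈ s.support with β j = r, s j ≤ d) (a : σ → L) :
    ∃ (v : σ → L) (φ : L), v ≠ 0 ∧ (∀ j, β j ≠ r → v j = 0) ∧
      (∀ j, IsAlgebraic (IntermediateField.adjoin K (Set.range a)) (v j)) ∧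
      ∀ (M : Type) [Field M] [Algebra K M] (ψ : L →ₐ[K] M) (s : M),
        aeval (fun j => ψ (a j) + s * ψ (v j)) G = ψ (aeval a G) + s ^ d * ψ φ := by
  set k0 := IntermediateField.adjoin K (Set.range a) with hk0
  let F := algebraicClosure k0 L
  have hF : IsAlgClosed F := (algebraicClosure.isAlgClosure (F := k0) (E := L)).isAlgClosed
  have ha : ∀ j, a j ∈ F := fun j => mem_algebraicClosure_iff.2
    (isAlgebraic_of_mem k0 (IntermediateField.subset_adjoin K _ ⟨j, rfl⟩))
  obtain ⟨v, φ, hv0, hv, h⟩ := contact (F := F) β r hd' hd hG (fun j => ⟨a j, ha j⟩)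
  let i : F →ₐ[K] L := F.val.restrictScalars K
  refine ⟨fun j => i (v j), i φ, ?_, ?_, ?_, ?_⟩
  · intro h0
    apply hv0
    funext j
    apply i.injective
    rw [Pi.zero_apply, map_zero]
    exact congrFun h0 j
  · intro j hj
    simp only
    rw [hv j hj, map_zero]
  · intro j
    exact mem_algebraicClosure_iff.1 (v j).2
  · intro M _ _ ψ s
    have h1 := h M (ψ.comp i) s
    have h2 : (ψ.comp i) (aeval (fun j => (⟨a j, ha j⟩ : F)) G) = ψ (aeval a G) := by
      rw [map_aeval_alg, map_aeval_alg]
      rfl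
    rw [h2] at h1
    exact h1

theorem td_insert_of_not {L : Type} [Field L] [Algebra K L] {T : Set L} {s : L}
    (h : ¬ IsAlgebraic (IntermediateField.adjoin K T) s) : td K (insert s T) = td K T + 1 := by
  unfold td
  apply Matroid.eRk_insert_eq_add_one
  refine ⟨Set.mem_univ _, fun h1 => h (mem_closure_iff.1 h1)⟩

/-- The induction step. -/
theorem step [CharZero K] [Finite σ] {d l r m : ℕ} {G : MvPolynomial σ K} {β : σ → ℕ} {η : K}
    (hd : 0 < d) (hG : G.IsHomogeneous d) (hη : IsPrimitiveRoot η d)
    (hB : ∀ s ∈ G.support, ∀ i j, s i ≠ 0 → s j ≠ 0 → β i < m → β j < m → β i = β j)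
    (hr : r < m) (hne : ∃ j, β j = r)
    (hdeg : ∀ s ∈ G.support, ∑ j ∈ s.support with β j = r, s j ≤ Nat.card {j // β j = r})
    (IH : ∀ (L : Type) [Field L] [Algebra K L] (x : Option σ → L), x ≠ 0 →
      aeval x (cyc d G) = 0 → dm K x = l → Ruled K β l (r + 1) x → cls K x ∈ Inv d G l η)
    (L : Type) [Field L] [Algebra K L] (x : Option σ → L) (hx : x ≠ 0)
    (hon : aeval x (cyc d G) = 0) (hdim : dm K x = l) (hR : Ruled K β l r x) :
    cls K x ∈ Inv d G l η := by
  classical
  obtain ⟨z, a, v, w, hv, htd, hprop⟩ := hR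
  rw [cls_prop hprop]
  rw [hprop.dm] at hdim
  have hon' : aeval (pt z fun j => a j + ∑ i ∈ Finset.range r, w i * v i j) (cyc d G) = 0 := by
    obtain ⟨c, hc, h⟩ := hprop.symm
    rw [funext h, aeval_smul (cyc_homog hG), hon, mul_zero]
  clear hon hprop hx x
  by_cases hz : z = 0
  · rw [hz]
    exact inv_zero _
  let L1 := AlgebraicClosure L
  let i1 : L →ₐ[K] L1 := IsScalarTower.toAlgHom K L L1
  obtain ⟨e, he'⟩ : ∃ e, e = Nat.card {j // β j = r} := ⟨_, rfl⟩
  have he : 0 < e := by
    obtain ⟨j, hj⟩ := hne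
    have : Nonempty {j // β j = r} := ⟨⟨j, hj⟩⟩
    rw [he']
    exact Nat.card_pos
  obtain ⟨u, φ1, hu0, hu, hualg, hcon⟩ := contact_alg (L := L1) (G := G) β r he' he
    (by rw [he']; exact hdeg) (fun j => i1 (a j))
  obtain ⟨Ω, _, _, _, ψ, s, hs⟩ := exists_big (K := K) L1
  let i : L →ₐ[K] Ω := ψ.comp i1
  set v' : ℕ → σ → Ω := fun k j => if k < r then i (v k j) else ψ (u j) with hv'
  set w' : ℕ → Ω := fun k => if k < r then i (w k) else s with hw'
  have hv'1 : ∀ k < r, v' k = fun j => i (v k j) := by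
    intro k hk
    funext j
    rw [hv']
    simp only
    rw [if_pos hk]
  have hv'2 : v' r = fun j => ψ (u j) := by
    funext j
    rw [hv']
    simp only
    rw [if_neg (lt_irrefl r)]
  have hw'1 : ∀ k < r, w' k = i (w k) := by
    intro k hk
    rw [hw']
    simp only
    rw [if_pos hk]
  have hw'2 : w' r = s := by
    rw [hw']
    simp only
    rw [if_neg (lt_irrefl r)]
  have hcon' := hcon Ω ψ
  set φ' := ψ φ1 with hφ'
  obtain ⟨X0, hX, hcase⟩ : ∃ X0 : Ω, X0 ^ d = (i z) ^ d - s ^ e * φ' ∧ (φ' = 0 → X0 = i z) := by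
    by_cases h : φ' = 0
    · exact ⟨i z, by rw [h, mul_zero, sub_zero], fun _ => rfl⟩
    · obtain ⟨X0, hX0⟩ := IsAlgClosed.exists_pow_nat_eq ((i z) ^ d - s ^ e * φ') hd
      exact ⟨X0, hX0, fun h0 => absurd h0 h⟩
  have hU : ∀ j, ∑ k ∈ Finset.range r, w' k * v' k j = i (∑ k ∈ Finset.range r, w k * v k j) := by
    intro j
    rw [map_sum]
    refine Finset.sum_congr rfl fun k hk => ?_
    have hk' := Finset.mem_range.1 hk
    rw [hw'1 k hk', hv'1 k hk', map_mul]
  have hpt : (fun o => i (pt z (fun j => a j + ∑ k ∈ Finset.range r, w k * v k j) o)) =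
      pt (i z) (fun j => i (a j) + ∑ k ∈ Finset.range r, w' k * v' k j) := by
    rw [map_pt]
    congr 1
    funext j
    rw [map_add, hU]
  have hdim' : dm K (pt (i z) (fun j => i (a j) + ∑ k ∈ Finset.range r, w' k * v' k j)) = l := by
    rw [← hpt, dm_map, hdim]
  have hon2 : aeval (pt (i z) (fun j => i (a j) + ∑ k ∈ Finset.range r, w' k * v' k j))
      (cyc d G) = 0 := by
    rw [← hpt, ← map_aeval_alg, hon', map_zero]
  have hres := engine' (Ω := Ω) (β := β) hd he hG hη IH (z := i z) (X0 := X0) (φ := φ')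
    (a := fun j => i (a j)) (v := v') (w := w') (r := r)
    (by
      intro h
      exact hz ((map_eq_zero i).1 h))
    (by
      intro k hk
      rcases Nat.lt_succ_iff_lt_or_eq.1 hk with h1 | h1
      · rw [hv'1 k h1]
        obtain ⟨h2, h3⟩ := hv k h1
        constructor
        · intro h
          apply h2
          funext j
          have h4 := congrFun h j
          exact (map_eq_zero i).1 h4
        · intro j hj
          simp only
          rw [h3 j hj, map_zero]
      · rw [h1, hv'2]
        constructor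
        · intro h
          apply hu0
          funext j
          exact (map_eq_zero ψ).1 (congrFun h j)
        · intro j hj
          simp only
          rw [hu j hj, map_zero])
    (by
      refine le_trans (add_le_add ?_ le_rfl) htd
      have h1 : base (i z) (fun j => i (a j)) v' r = i '' (base z a v r) := by
        rw [image_base]
        exact base_congr hv'1
      calc td K (base (i z) (fun j => i (a j)) v' (r + 1))
          ≤ td K (base (i z) (fun j => i (a j)) v' r) := by
            apply td_le_of_alg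
            rintro y (hy | ⟨k, hk, j, rfl⟩)
            · exact isAlgebraic_of_mem _ (IntermediateField.subset_adjoin K _ (Or.inl hy))
            · rcases Nat.lt_succ_iff_lt_or_eq.1 hk with h2 | h2
              · exact isAlgebraic_of_mem _ (IntermediateField.subset_adjoin K _
                  (Or.inr ⟨k, h2, j, rfl⟩))
              · rw [h2, hv'2]
                have h3 := alg_map ψ (hualg j)
                rw [← mem_closure_iff] at h3 ⊢
                refine Matroid.closure_subset_closure _ ?_ h3
                rintro _ ⟨_, ⟨j, rfl⟩, rfl⟩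
                exact Or.inl (Or.inr ⟨j, rfl⟩)
        _ = td K (base z a v r) := by rw [h1, td_image])
    (by
      have h1 := hcon' 1
      rw [one_pow, one_mul] at h1
      simp only [one_mul] at h1
      have h2 : ψ (aeval (fun j => i1 (a j)) G) = aeval (fun j => i (a j)) G := by
        rw [map_aeval_alg]
        rfl
      rw [h2] at h1
      rw [hv'2]
      change φ' = aeval (fun j => ψ (i1 (a j)) + ψ (u j)) G - _
      rw [h1]
      ring)
    (by rw [hw'2]; exact hX) hcase
    (by
      have hT : base (i z) (fun j => i (a j)) v' (r + 1) ∪ w' '' {k | k < r} ⊆ Set.range ψ := by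
        rintro y (((rfl | ⟨j, rfl⟩) | ⟨k, hk, j, rfl⟩) | ⟨k, hk, rfl⟩)
        · exact ⟨i1 z, rfl⟩
        · exact ⟨i1 (a j), rfl⟩
        · rcases Nat.lt_succ_iff_lt_or_eq.1 hk with h2 | h2
          · rw [hv'1 k h2]
            exact ⟨i1 (v k j), rfl⟩
          · rw [h2, hv'2]
            exact ⟨u j, rfl⟩
        · rw [hw'1 k hk]
          exact ⟨i1 (w k), rfl⟩
      rw [hw'2, td_insert_of_not (hs _ hT), Nat.cast_add, Nat.cast_one]
      refine add_le_add ?_ le_rfl
      rw [← hdim']
      refine dm_le (S := base (i z) (fun j => i (a j)) v' (r + 1) ∪ w' '' {k | k < r})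
        (fun o => ?_) le_rfl
      cases o with
      | none => exact IntermediateField.subset_adjoin K _ (Or.inl (Or.inl (Or.inl rfl)))
      | some j =>
        change i (a j) + ∑ k ∈ Finset.range r, w' k * v' k j ∈ IntermediateField.adjoin K _
        refine add_mem (IntermediateField.subset_adjoin K _ (Or.inl (Or.inl (Or.inr ⟨j, rfl⟩))))
          (sum_mem fun k hk => ?_)
        have hk' := Finset.mem_range.1 hk
        exact mul_mem (IntermediateField.subset_adjoin K _ (Or.inr ⟨k, hk', rfl⟩))
          (IntermediateField.subset_adjoin K _ (Or.inl (Or.inr ⟨k, hk'.trans (Nat.lt_succ_self r),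
            j, rfl⟩))))
    (by
      have h1 : (fun j => i (a j) + ∑ k ∈ Finset.range (r + 1), w' k * v' k j) =
          fun j => i (a j) + (∑ k ∈ Finset.range r, w' k * v' k j) + s * ψ (u j) := by
        funext j
        rw [Finset.sum_range_succ, hw'2, hv'2, add_assoc]
      have hz0 : ∀ k < r, ∀ j, β j ≠ k → v' k j = 0 := by
        intro k hk j hj
        rw [hv'1 k hk]
        simp only
        rw [(hv k hk).2 j hj, map_zero]
      have h2 := block_add hB hr (fun j => i (a j)) (fun j => ∑ k ∈ Finset.range r, w' k * v' k j)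
        (fun j => s * ψ (u j))
        (by
          intro j hj
          refine Finset.sum_eq_zero fun k hk => ?_
          have hk' := Finset.mem_range.1 hk
          rw [hz0 k hk' j (by omega), mul_zero])
        (by
          intro j hj
          refine Finset.sum_eq_zero fun k hk => ?_
          have hk' := Finset.mem_range.1 hk
          rw [hz0 k hk' j (by omega), mul_zero])
        (by
          intro j hj
          rw [hu j hj, map_zero, mul_zero])
      have h3 := hcon' s
      have h4 : ψ (aeval (fun j => i1 (a j)) G) = aeval (fun j => i (a j)) G := by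
        rw [map_aeval_alg]
        rfl
      rw [h4] at h3
      have h5 : aeval (fun j => i (a j) + s * ψ (u j)) G =
          aeval (fun j => i (a j)) G + s ^ e * φ' := h3
      rw [h5] at h2
      rw [aeval_cyc] at hon2
      rw [h1, aeval_cyc, hX]
      linear_combination hon2 + h2)
    hdim'
  have hfin : cls K (pt z fun j => a j + ∑ k ∈ Finset.range r, w k * v k j) =
      cls K (pt (i z) (fun j => i (a j) + ∑ k ∈ Finset.range r, w' k * v' k j)) := by
    unfold cls
    rw [← hpt, locus_map]
  rw [hfin]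
  exact hres

end Run7.h546
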